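import Mathlib

/-! Selberg's recurrence property of cocompact discrete subgroups. -/

set_option autoImplicit false

open Set MeasureTheory Filter Topology
open scoped Pointwise ENNReal NNReal

namespace Pool.Agent.Lib.MP_d2fa5a_al

/-- Selberg's property (S) -/
def Selberg {G : Type*} [Group G] [TopologicalSpace G] (Δ : Set G) : Prop :=
  ∀ g : G, ∀ U ∈ 𝓝 (1 : G), ∃ n : ℕ, 0 < n ∧ ∃ δ ∈ Δ, ∃ u ∈ U, ∃ u' ∈ U, g ^ n * u' = u * δ

variable {G : Type*} [Group G] [TopologicalSpace G] [IsTopologicalGroup G] [T2Space G]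
  [LocallyCompactSpace G] [SecondCountableTopology G]

lemma selberg_aux (Δ : Subgroup G) (hP : ∀ K, IsCompact K → (K ∩ (Δ : Set G)).Finite)
    {C : Set G} (hC : IsCompact C) (hcov : ∀ h, ∃ δ ∈ Δ, δ⁻¹ * h ∈ C) (g : G)
    (hg : 1 ≤ Measure.modularCharacter g⁻¹) {U : Set G} (hU : U ∈ 𝓝 (1 : G)) :
    ∃ k : ℤ, k ≠ 0 ∧ ∃ δ ∈ Δ, ∃ w ∈ U, ∃ w' ∈ U, g ^ k = w⁻¹ * δ * w' := by
  borelize G
  set μ : Measure G := Measure.haar with hμ
  have hcount : (Δ : Set G).Countable := by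
    have : (Δ : Set G) ⊆ ⋃ n, compactCovering G n ∩ Δ := fun x hx => by
      obtain ⟨n, hn⟩ := exists_mem_compactCovering x
      exact mem_iUnion.2 ⟨n, hn, hx⟩
    exact (countable_iUnion fun n => (hP _ (isCompact_compactCovering G n)).countable).mono this
  have : Countable Δ := hcount.to_subtype
  obtain ⟨K, hK, hK1⟩ := exists_compact_mem_nhds (1 : G)
  have hN : K ∩ ((K ∩ (Δ : Set G)) \ {1})ᶜ ∈ 𝓝 (1 : G) :=
    inter_mem hK1 (((hP K hK).subset sdiff_subset).isClosed.isOpen_compl.mem_nhds (by simp))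
  obtain ⟨W₀, hW₀, hW₀'⟩ := exists_nhds_split_inv hN
  obtain ⟨W, hWs, hWo, hW1⟩ := mem_nhds_iff.1 (inter_mem hW₀ hU)
  by_contra hcon
  push Not at hcon
  set T : ℕ × Δ → Set G := fun i => {y | (i.2 : G) * y * (g ^ i.1)⁻¹ ∈ W} ∩ C with hT
  have hTm : ∀ i, MeasurableSet (T i) := fun i =>
    (hWo.preimage (by fun_prop)).measurableSet.inter hC.measurableSet
  have hdisj : Pairwise (Function.onFun Disjoint T) := by
    rintro ⟨n, δ⟩ ⟨m, δ'⟩ hne
    rw [Function.onFun, Set.disjoint_left]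
    rintro y ⟨h1, -⟩ ⟨h2, -⟩
    simp only [mem_ofPred_eq] at h1 h2
    by_cases hnm : n = m
    · subst hnm
      have h3 := hW₀' _ (hWs h1).1 _ (hWs h2).1
      have e : (δ : G) * y * (g ^ n)⁻¹ / (δ' * y * (g ^ n)⁻¹) = δ * (δ' : G)⁻¹ := by
        rw [div_eq_mul_inv]; group
      rw [e] at h3
      have h4 : (δ : G) * (δ' : G)⁻¹ = 1 := by
        by_contra h5
        exact h3.2 ⟨⟨h3.1, Δ.mul_mem δ.2 (Δ.inv_mem δ'.2)⟩, h5⟩
      exact hne (Prod.ext rfl (Subtype.ext (mul_inv_eq_one.1 h4)))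
    · refine hcon ((n : ℤ) - m) (by omega) (δ * (δ' : G)⁻¹) (Δ.mul_mem δ.2 (Δ.inv_mem δ'.2))
        _ (hWs h1).2 _ (hWs h2).2 ?_
      rw [zpow_sub, zpow_natCast, zpow_natCast]; group
  have hfin : ∑' i, μ (T i) ≤ μ C := by
    rw [← measure_iUnion hdisj hTm]
    exact measure_mono (iUnion_subset fun i => inter_subset_right)
  have hlow : ∀ n, μ W ≤ ∑' δ : Δ, μ (T (n, δ)) := by
    intro n
    have h1 : μ W ≤ μ {x | x * (g ^ n)⁻¹ ∈ W} := by
      have h2 := Measure.map_right_mul_eq_modularCharacterFun_smul μ (g ^ n)⁻¹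
      have h3 : μ {x | x * (g ^ n)⁻¹ ∈ W} = Measure.map (· * (g ^ n)⁻¹) μ W :=
        (Measure.map_apply (measurable_mul_const _) hWo.measurableSet).symm
      rw [h3, h2, Measure.smul_apply]
      have h4 : 1 ≤ Measure.modularCharacterFun (g ^ n)⁻¹ := by
        have : Measure.modularCharacterFun (g ^ n)⁻¹ = Measure.modularCharacter g⁻¹ ^ n := by
          rw [← map_pow, inv_pow]; rfl
        rw [this]; exact one_le_pow₀ hg
      rw [ENNReal.smul_def, smul_eq_mul]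
      exact le_mul_of_one_le_left' (by exact_mod_cast h4)
    refine h1.trans (le_trans (measure_mono ?_)
      ((measure_iUnion_le fun δ : Δ => (fun x : G => (δ : G)⁻¹ * x) ⁻¹' T (n, δ)).trans ?_))
    · intro x hx
      obtain ⟨δ, hδ, hx'⟩ := hcov x
      exact mem_iUnion.2 ⟨⟨δ, hδ⟩, by simpa [hT] using ⟨hx, hx'⟩⟩
    · simp only [measure_preimage_mul, le_refl]
  rw [ENNReal.tsum_prod'] at hfin
  have h5 : ∑' _ : ℕ, μ W ≤ μ C := (ENNReal.tsum_le_tsum hlow).trans hfin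
  rw [ENNReal.tsum_const_eq_top_of_ne_zero (hWo.measure_ne_zero μ ⟨1, hW1⟩)] at h5
  exact hC.measure_lt_top.ne (top_le_iff.1 h5)

theorem selberg (Δ : Subgroup G) (hP : ∀ K, IsCompact K → (K ∩ (Δ : Set G)).Finite)
    {C : Set G} (hC : IsCompact C) (hcov : ∀ h, ∃ δ ∈ Δ, δ⁻¹ * h ∈ C) : Selberg (Δ : Set G) := by
  intro g U hU
  have hU' : U⁻¹ ∈ 𝓝 (1 : G) := inv_mem_nhds_one G hU
  have key : ∃ k : ℤ, k ≠ 0 ∧ ∃ δ ∈ Δ, ∃ w ∈ U⁻¹, ∃ w' ∈ U⁻¹, g ^ k = w⁻¹ * δ * w' := by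
    by_cases hg : 1 ≤ Measure.modularCharacter g⁻¹
    · exact selberg_aux Δ hP hC hcov g hg hU'
    · have h1 : 1 ≤ Measure.modularCharacter g⁻¹⁻¹ := by
        by_contra h2
        have := mul_lt_one_of_nonneg_of_lt_one_left zero_le (not_le.1 hg) (not_le.1 h2).le
        rw [← map_mul, mul_inv_cancel, map_one] at this
        exact lt_irrefl _ this
      obtain ⟨k, hk, h⟩ := selberg_aux Δ hP hC hcov g⁻¹ h1 hU'
      exact ⟨-k, by omega, by simpa using h⟩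
  obtain ⟨k, hk, δ, hδ, w, hw, w', hw', h⟩ := key
  rcases lt_or_gt_of_ne hk with h0 | h0
  · refine ⟨(-k).toNat, by omega, δ⁻¹, Δ.inv_mem hδ, _, hw', _, hw, ?_⟩
    rw [← zpow_natCast, Int.toNat_of_nonneg (by omega), zpow_neg, h]; group
  · refine ⟨k.toNat, by omega, δ, hδ, _, hw, _, hw', ?_⟩
    rw [← zpow_natCast, Int.toNat_of_nonneg (by omega), h]; group

lemma Selberg.snd {I H : Type*} [Group I] [TopologicalSpace I] [Group H] [TopologicalSpace H]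
    {Δ : Set (I × H)} (h : Selberg Δ) : Selberg (Prod.snd '' Δ) := by
  intro g U hU
  obtain ⟨n, hn, δ, hδ, u, hu, u', hu', e⟩ := h (1, g) (Prod.snd ⁻¹' U)
    (continuous_snd.continuousAt.preimage_mem_nhds hU)
  exact ⟨n, hn, δ.2, ⟨δ, hδ, rfl⟩, u.2, hu, u'.2, hu', congrArg Prod.snd e⟩

lemma Selberg.mono {H : Type*} [Group H] [TopologicalSpace H] {Δ Δ' : Set H} (h : Selberg Δ)
    (hs : Δ ⊆ Δ') : Selberg Δ' := by
  intro g U hU
  obtain ⟨n, hn, δ, hδ, e⟩ := h g U hU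
  exact ⟨n, hn, δ, hs hδ, e⟩

end Pool.Agent.Lib.MP_d2fa5a_al
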