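import Pool.Agent.Lib.MP_d2fa5a_al.ClosedSub
import Pool.Agent.Lib.MP_d2fa5a_al.Selberg

/-! The Borel density argument. -/

set_option autoImplicit false

open Set Filter Topology NormedSpace Module

namespace Pool.Agent.Lib.MP_d2fa5a_al

variable {V : Type*} [NormedAddCommGroup V] [NormedSpace ℝ V] [CompleteSpace V]

lemma hasDerivAt_exp_apply (A : V →L[ℝ] V) (v : V) (t : ℝ) :
    HasDerivAt (fun s : ℝ => exp (s • A) v) (exp (t • A) (A v)) t := by
  simpa using (hasDerivAt_exp_smul_const A t).clm_apply (hasDerivAt_const t v)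

lemma exp_apply_eigen {A : V →L[ℝ] V} {v : V} {c : ℝ} (h : A v = c • v) :
    exp A v = Real.exp c • v := by
  have hd : ∀ t : ℝ, HasDerivAt (fun s : ℝ => Real.exp (-(s * c)) • exp (s • A) v) 0 t := by
    intro t
    have h1 : HasDerivAt (fun s : ℝ => Real.exp (-(s * c))) (Real.exp (-(t * c)) * -c) t := by
      simpa using ((hasDerivAt_id t).mul_const c).neg.exp
    refine (h1.smul (hasDerivAt_exp_apply A v t)).congr_deriv ?_
    rw [h, map_smul, smul_smul, ← add_smul]; simp
  have := is_const_of_deriv_eq_zero (fun t => (hd t).differentiableAt) (fun t => (hd t).deriv) 1 0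
  simp only [one_mul, one_smul, zero_mul, neg_zero, Real.exp_zero, zero_smul, exp_zero,
    one_apply_eq_self] at this
  conv_rhs => rw [← this]
  rw [smul_smul, ← Real.exp_add]; simp

lemma coord_diag {ι : Type*} (e : Basis ι ℝ V) {B : V →L[ℝ] V} {ν : ι → ℝ}
    (h : ∀ i, B (e i) = ν i • e i) (i : ι) (v : V) : e.coord i (B v) = ν i * e.coord i v := by
  classical
  have : (e.coord i) ∘ₗ (B : V →ₗ[ℝ] V) = ν i • e.coord i := by
    refine e.ext fun j => ?_
    by_cases hij : j = i
    · subst hij; simp [h]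
    · simp [h, hij]
  simpa using LinearMap.congr_fun this v

theorem borel [FiniteDimensional ℝ V] {G : Subgroup (V →L[ℝ] V)ˣ} {Δ : Set G} (hS : Selberg Δ)
    {A : V →L[ℝ] V} (hA : expU A ∈ G) {ι : Type*} (e : Basis ι ℝ V) {μ : ι → ℝ}
    (he : ∀ i, A (e i) = μ i • e i) (W : Submodule ℝ V)
    (hW : ∀ δ ∈ Δ, ∀ w ∈ W, (δ.1 : V →L[ℝ] V) w ∈ W) : ∀ w ∈ W, A w ∈ W := by
  classical
  set ε : ι → Dual ℝ W := fun i => (e.coord i).domRestrict W with hε
  have hspan : Submodule.span ℝ (range ε) = ⊤ := by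
    refine Submodule.span_eq_top_of_ne_zero fun z hz => ?_
    by_contra h
    push Not at h
    exact hz (Subtype.ext (e.ext_elem fun i => by simpa [hε] using h _ ⟨i, rfl⟩))
  obtain ⟨κ, hκ, hκs, hκi⟩ := exists_linearIndependent ℝ (range ε)
  let bd : Basis κ ℝ (Dual ℝ W) := Basis.mk hκi (by simp [hκs, hspan])
  have : Finite κ := Module.Finite.finite_basis bd
  have : Fintype κ := Fintype.ofFinite κ
  let w : Basis κ ℝ W := bd.dualBasis.map (evalEquiv ℝ W).symm
  choose f hf using fun s : κ => hκ s.2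
  have hw : ∀ i j, e.coord (f i) (w j) = (1 : Matrix κ κ ℝ) i j := by
    intro i j
    have h1 : e.coord (f i) (w j) = bd i (w j) := by
      have : bd i = ε (f i) := by simp [bd, hf]
      rw [this]; rfl
    rw [h1]
    simp [w, Matrix.one_apply, Finsupp.single_apply]
  clear_value w
  let P : (κ → ι) → G → ℝ := fun f' u =>
    (Matrix.of fun i j => e.coord (f' i) ((u.1 : V →L[ℝ] V) (w j))).det
  have Pc : ∀ f', Continuous (P f') := by
    intro f'
    refine Continuous.matrix_det (continuous_matrix fun i j => ?_)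
    exact (e.coord (f' i)).continuous_of_finiteDimensional.comp
      ((Units.continuous_val.comp continuous_subtype_val).clm_apply continuous_const)
  let g : G := ⟨expU A, hA⟩
  have Pg : ∀ f' (n : ℕ) u, P f' (g ^ n * u) = Real.exp (∑ i, μ (f' i)) ^ n * P f' u := by
    intro f' n u
    induction n with
    | zero => simp
    | succ n ih =>
      rw [pow_succ', mul_assoc, pow_succ', mul_assoc, ← ih, Real.exp_sum, ← Matrix.det_mul_column]
      refine congrArg Matrix.det ?_
      ext i j
      exact coord_diag e (B := exp A) (fun i => exp_apply_eigen (he i)) _ _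
  have Pδ : ∀ δ ∈ Δ, ∃ d : ℝ, ∀ f' u, P f' (u * δ) = P f' u * d := by
    intro δ hδ
    refine ⟨(Matrix.of fun l j => w.repr ⟨_, hW δ hδ _ (w j).2⟩ l).det, fun f' u => ?_⟩
    rw [← Matrix.det_mul]
    refine congrArg Matrix.det ?_
    ext i j
    have h1 := congrArg Subtype.val (w.sum_repr ⟨_, hW δ hδ _ (w j).2⟩)
    simp only [Matrix.mul_apply, Matrix.of_apply]
    change e.coord (f' i) ((u.1 : V →L[ℝ] V) ((δ.1 : V →L[ℝ] V) (w j))) = _
    conv_lhs => rw [← show _ = (δ.1 : V →L[ℝ] V) (w j) from h1]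
    simp only [AddSubmonoidClass.coe_finsetSum, SetLike.val_smul, map_sum, map_smul, smul_eq_mul]
    exact Finset.sum_congr rfl fun l _ => mul_comm _ _
  have key : ∀ f₁ f₂, P f₁ 1 ≠ 0 → P f₂ 1 ≠ 0 → ¬ ∑ i, μ (f₂ i) < ∑ i, μ (f₁ i) := by
    intro f₁ f₂ h1 h2 hlt
    set r := Real.exp (∑ i, μ (f₁ i) - ∑ i, μ (f₂ i)) with hr
    have hr1 : 1 < r := Real.one_lt_exp_iff.2 (by linarith)
    have hev : ∀ᶠ x : G × G in 𝓝 (1, 1), |P f₂ x.2 * P f₁ x.1| < r * |P f₁ x.2 * P f₂ x.1| := by
      refine ContinuousAt.eventually_lt (by fun_prop) (by fun_prop) ?_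
      simp only [mul_comm (P f₂ 1)]
      exact lt_mul_of_one_lt_left (abs_pos.2 (mul_ne_zero h1 h2)) hr1
    rw [nhds_prod_eq, Filter.Eventually, mem_prod_self_iff] at hev
    obtain ⟨U, hU, hU'⟩ := hev
    obtain ⟨n, hn, δ, hδ, u, hu, u', hu', h⟩ := hS g U hU
    obtain ⟨d, hd⟩ := Pδ δ hδ
    have a1 := Pg f₁ n u'
    have a2 := Pg f₂ n u'
    rw [h, hd] at a1 a2
    have a3 : |P f₂ u' * P f₁ u| < r * |P f₁ u' * P f₂ u| := hU' (mk_mem_prod hu hu')
    have a4 : P f₂ u' * P f₁ u = r ^ n * (P f₁ u' * P f₂ u) := by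
      have hp : Real.exp (∑ i, μ (f₂ i)) ^ n ≠ 0 := pow_ne_zero _ (Real.exp_pos _).ne'
      rw [hr, Real.exp_sub, div_pow, div_mul_eq_mul_div, eq_div_iff hp]
      linear_combination P f₂ u * a1 - P f₁ u * a2
    rw [a4, abs_mul, abs_of_pos (pow_pos (by linarith) n)] at a3
    exact absurd a3 (not_lt.2 (mul_le_mul_of_nonneg_right (le_self_pow₀ hr1.le hn.ne')
      (abs_nonneg _)))
  have P1 : P f 1 = 1 := by
    have : (Matrix.of fun i j => e.coord (f i) (((1 : G).1 : V →L[ℝ] V) (w j))) = 1 := by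
      ext i j; exact hw i j
    simp only [P, this, Matrix.det_one]
  have eig : ∀ j l, e.coord l (w j) ≠ 0 → μ l = μ (f j) := by
    intro j l hl
    have h1 : P (Function.update f j l) 1 = e.coord l (w j) := by
      have := Matrix.det_updateRow_sum (1 : Matrix κ κ ℝ) j fun k => e.coord l (w k)
      rw [Matrix.det_one, smul_eq_mul, mul_one] at this
      rw [← this]
      refine congrArg Matrix.det ?_
      ext i k
      by_cases hi : i = j
      · subst hi
        simp [Matrix.one_apply, Finset.sum_apply]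
      · simp only [Matrix.of_apply, Function.update_of_ne hi, Matrix.updateRow_ne hi]
        exact hw i k
    have h2 := le_antisymm (not_lt.1 (key f _ (by rw [P1]; exact one_ne_zero) (h1 ▸ hl)))
      (not_lt.1 (key _ f (h1 ▸ hl) (by rw [P1]; exact one_ne_zero)))
    rw [← Finset.add_sum_erase _ _ (Finset.mem_univ j),
      ← Finset.add_sum_erase _ _ (Finset.mem_univ j), Function.update_self,
      Finset.sum_congr rfl fun i hi => by
        rw [← Function.update_of_ne (Finset.ne_of_mem_erase hi) l f]] at h2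
    linarith
  have hAw : ∀ j, A (w j) ∈ W := by
    intro j
    have : A (w j) = μ (f j) • (w j : V) := by
      refine e.ext_elem fun l => ?_
      have h1 := coord_diag e he l (w j)
      by_cases hl : e.coord l (w j) = 0
      · rw [hl, mul_zero] at h1
        simp only [Basis.coord_apply] at h1 hl
        simp [h1, hl]
      · rw [eig j l hl] at h1
        simpa using h1
    rw [this]
    exact W.smul_mem _ (w j).2
  intro v hv
  have h1 := congrArg Subtype.val (w.sum_repr ⟨v, hv⟩)
  rw [← show _ = v from h1]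
  simp only [AddSubmonoidClass.coe_finsetSum, SetLike.val_smul, map_sum, map_smul]
  exact W.sum_mem fun j _ => W.smul_mem _ (hAw j)

end Pool.Agent.Lib.MP_d2fa5a_al
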