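import Pool.Agent.Lib.MP_d2fa5a_al.Borel

/-! Structure of closed subgroups with Selberg's property in adjoint semisimple groups. -/

set_option autoImplicit false

open Set Filter Topology NormedSpace Module

namespace Pool.Agent.Lib.MP_d2fa5a_al

lemma finite_inter_of_discrete {G : Type*} [Group G] [TopologicalSpace G] [IsTopologicalGroup G]
    [T2Space G] (H : Subgroup G) [DiscreteTopology H] {K : Set G} (hK : IsCompact K) :
    (K ∩ H).Finite :=
  (hK.inter_right Subgroup.isClosed_of_discrete).finite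
    ((isDiscrete_iff_discreteTopology.2 ‹_›).mono inter_subset_right)

/-- the output of the structure theory -/
structure SplitData {G : Type*} [Group G] [TopologicalSpace G] (Δ : Subgroup G) (a b : G →* G) :
    Prop where
  ca : Continuous a
  cb : Continuous b
  mul : ∀ g, a g * b g = g
  ab : ∀ g, a (b g) = 1
  fin : ∀ K, IsCompact K → (K ∩ a '' Δ).Finite
  perf : ∀ N : Subgroup G, (∀ δ ∈ Δ, ∀ δ' ∈ Δ, a δ = 1 → a δ' = 1 → δ * δ' * δ⁻¹ * δ'⁻¹ ∈ N) →
    ∀ δ ∈ Δ, a δ = 1 → δ ∈ closure (N : Set G)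
  centre : ∀ g, a g = 1 → (∀ δ ∈ Δ, a δ = 1 → g * δ = δ * g) → g = 1

variable {V : Type*} [NormedAddCommGroup V] [NormedSpace ℝ V] [CompleteSpace V]

/-- semisimple Lie algebra without compact factors -/
structure LieData (ad : V →ₗ[ℝ] V →L[ℝ] V) (𝔭 : Set V) : Prop where
  anti : ∀ x y, ad x y = -ad y x
  jac : ∀ x y z, ad x (ad y z) = ad (ad x y) z + ad y (ad x z)
  inner : ∀ D : V →L[ℝ] V, (∀ x y, D (ad x y) = ad (D x) y + ad x (D y)) → ∃ x, D = ad x
  inj : ∀ x, ad x = 0 → x = 0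
  compl : ∀ I : Submodule ℝ V, (∀ x, ∀ y ∈ I, ad x y ∈ I) →
    ∃ J : Submodule ℝ V, (∀ x, ∀ y ∈ J, ad x y ∈ J) ∧ IsCompl I J
  diag : ∀ y ∈ 𝔭, ∃ (n : ℕ) (e : Basis (Fin n) ℝ V) (μ : Fin n → ℝ), ∀ i, ad y (e i) = μ i • e i
  gen : ∀ S : Submodule ℝ V, 𝔭 ⊆ S → (∀ x ∈ S, ∀ y ∈ S, ad x y ∈ S) → S = ⊤

variable (ad : V →ₗ[ℝ] V →L[ℝ] V)

/-- automorphisms -/
def Aut : Subgroup (V →L[ℝ] V)ˣ where
  carrier := {g | ∀ x y, g.1 (ad x y) = ad (g.1 x) (g.1 y)}
  one_mem' x y := rfl
  mul_mem' {g h} hg hh x y := by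
    simp only [Units.val_mul, mul_apply_eq_comp]
    rw [hh, hg]
  inv_mem' {g} hg x y := by
    have h1 : ∀ z, g.1 ((g⁻¹).1 z) = z := fun z => by
      rw [← mul_apply_eq_comp, Units.mul_inv]; rfl
    have h2 : ∀ z, (g⁻¹).1 (g.1 z) = z := fun z => by
      rw [← mul_apply_eq_comp, Units.inv_mul]; rfl
    conv_lhs => rw [← h1 x, ← h1 y, ← hg, h2]

/-- inner automorphisms -/
def Gint : Subgroup (V →L[ℝ] V)ˣ := Subgroup.closure (range fun x => expU (ad x))

/-- exponential map -/
noncomputable def ex (x : V) : Gint ad := ⟨expU (ad x), Subgroup.subset_closure ⟨x, rfl⟩⟩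

variable {ad}

lemma ex_val (x : V) : ((ex ad x).1 : V →L[ℝ] V) = exp (ad x) := rfl

lemma Gint_induction {p : Gint ad → Prop} (h1 : ∀ x, p (ex ad x)) (h2 : p 1)
    (h3 : ∀ g h, p g → p h → p (g * h)) (g : Gint ad) : p g := by
  obtain ⟨g, hg⟩ := g
  induction hg using Subgroup.closure_induction'' with
  | mem x hx => obtain ⟨x, rfl⟩ := hx; exact h1 x
  | inv_mem x hx =>
    obtain ⟨x, rfl⟩ := hx
    have : (⟨(expU (ad x))⁻¹, Subgroup.inv_mem _ (Subgroup.subset_closure ⟨x, rfl⟩)⟩ : Gint ad) =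
      ex ad (-x) := Subtype.ext (by simp [ex, expU_neg])
    exact this ▸ h1 (-x)
  | one => exact h2
  | mul x y hx hy a b => exact h3 ⟨x, hx⟩ ⟨y, hy⟩ a b

variable [FiniteDimensional ℝ V]

lemma continuous_ad : Continuous ad := ad.continuous_of_finiteDimensional

lemma continuous_ex : Continuous (ex ad) :=
  (continuous_expU.comp continuous_ad).subtype_mk _

lemma isClosed_Aut : IsClosed (Aut ad : Set (V →L[ℝ] V)ˣ) := by
  have : (Aut ad : Set (V →L[ℝ] V)ˣ) = ⋂ x, ⋂ y, {g | g.1 (ad x y) = ad (g.1 x) (g.1 y)} := by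
    ext g; simp only [mem_iInter]; rfl
  rw [this]
  refine isClosed_iInter fun x => isClosed_iInter fun y => isClosed_eq ?_ ?_
  · exact Units.continuous_val.clm_apply continuous_const
  · exact (continuous_ad.comp (Units.continuous_val.clm_apply continuous_const)).clm_apply
      (Units.continuous_val.clm_apply continuous_const)

lemma hasDerivAt_ad {f g : ℝ → V} {f' g' : V} {t : ℝ} (hf : HasDerivAt f f' t)
    (hg : HasDerivAt g g' t) :
    HasDerivAt (fun s => ad (f s) (g s)) (ad f' (g t) + ad (f t) g') t :=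
  (((LinearMap.toContinuousLinearMap ad).hasFDerivAt.comp_hasDerivAt t hf).clm_apply hg :)

lemma expU_mem_Aut {D : V →L[ℝ] V} (hD : ∀ x y, D (ad x y) = ad (D x) y + ad x (D y)) :
    expU D ∈ Aut ad := by
  intro x y
  have hd : ∀ t : ℝ, HasDerivAt
      (fun s : ℝ => exp (s • -D) (ad (exp (s • D) x) (exp (s • D) y))) 0 t := by
    intro t
    have h1 : ∀ v, HasDerivAt (fun s : ℝ => exp (s • D) v) (D (exp (t • D) v)) t := fun v => by
      simpa using (hasDerivAt_exp_smul_const' D t).clm_apply (hasDerivAt_const t v)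
    refine ((hasDerivAt_exp_smul_const (-D) t).clm_apply
      (hasDerivAt_ad (h1 x) (h1 y))).congr_deriv ?_
    rw [← hD]; simp
  have := is_const_of_deriv_eq_zero (fun t => (hd t).differentiableAt) (fun t => (hd t).deriv) 1 0
  simp only [one_smul, zero_smul, exp_zero, one_apply_eq_self] at this
  rw [← this, ← mul_apply_eq_comp]
  change ((expU D * expU (-D) : (V →L[ℝ] V)ˣ) : V →L[ℝ] V) _ = _
  rw [expU_neg, mul_inv_cancel]; rfl

variable {𝔭 : Set V}

lemma LieData.Gint_le (h : LieData ad 𝔭) : Gint ad ≤ Aut ad := by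
  rw [Gint, Subgroup.closure_le]
  rintro _ ⟨x, rfl⟩
  exact expU_mem_Aut (h.jac x)

lemma LieData.lie_Aut (h : LieData ad 𝔭) {D : V →L[ℝ] V} (hD : ∀ t : ℝ, expU (t • D) ∈ Aut ad) :
    ∃ x, D = ad x := by
  refine h.inner D fun x y => ?_
  have h1 := hasDerivAt_exp_apply D (ad x y) 0
  have h2 := hasDerivAt_ad (ad := ad) (hasDerivAt_exp_apply D x 0) (hasDerivAt_exp_apply D y 0)
  have h3 : (fun s : ℝ => exp (s • D) (ad x y)) =
    fun s : ℝ => ad (exp (s • D) x) (exp (s • D) y) := funext fun s => hD s x y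
  rw [h3] at h1
  simpa using h1.unique h2

lemma LieData.nhds_Aut (h : LieData ad 𝔭) :
    ∀ᶠ q in 𝓝 (1 : (V →L[ℝ] V)ˣ), q ∈ Aut ad → q ∈ Gint ad := by
  filter_upwards [exists_nhds_exp (Aut ad) isClosed_Aut] with q hq hq'
  obtain ⟨D, hD, rfl⟩ := hq hq'
  obtain ⟨x, rfl⟩ := h.lie_Aut hD
  exact (ex ad x).2

lemma LieData.isOpen_Gint (h : LieData ad 𝔭) :
    IsOpen (((Gint ad).subgroupOf (Aut ad) : Subgroup (Aut ad)) : Set (Aut ad)) := by
  refine Subgroup.isOpen_of_mem_nhds _ (g := 1) ?_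
  filter_upwards [continuous_subtype_val.continuousAt.eventually
    (show ∀ᶠ q in 𝓝 ((1 : Aut ad) : (V →L[ℝ] V)ˣ), _ from h.nhds_Aut)] with q hq
  exact hq q.2

lemma LieData.isClosed_Gint (h : LieData ad 𝔭) : IsClosed (Gint ad : Set (V →L[ℝ] V)ˣ) := by
  have h0 := Subgroup.isClosed_of_isOpen (G := Aut ad) _ h.isOpen_Gint
  have h1 := (isClosed_Aut (ad := ad)).isClosedEmbedding_subtypeVal.isClosedMap _ h0
  have h2 : Subtype.val '' (((Gint ad).subgroupOf (Aut ad) : Subgroup (Aut ad)) : Set (Aut ad)) =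
      (Gint ad : Set (V →L[ℝ] V)ˣ) := by
    ext g
    exact ⟨by rintro ⟨g, hg, rfl⟩; exact hg, fun hg => ⟨⟨g, h.Gint_le hg⟩, hg, rfl⟩⟩
  exact h2 ▸ h1

lemma LieData.conj_ex (h : LieData ad 𝔭) (g : Gint ad) (x : V) :
    g * ex ad x * g⁻¹ = ex ad (g.1.1 x) := by
  refine Subtype.ext ?_
  change g.1 * expU (ad x) * g.1⁻¹ = expU (ad (g.1.1 x))
  rw [← expU_conj]
  congr 1
  rw [Units.mul_inv_eq_iff_eq_mul]
  ext y
  exact h.Gint_le g.2 x y

/-- the Lie algebra of the closure of a subgroup -/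
noncomputable def LieData.lieOf (h : LieData ad 𝔭) (N : Subgroup (Gint ad)) : Submodule ℝ V :=
  (lieSub (N.topologicalClosure.map (Gint ad).subtype)
    (h.isClosed_Gint.isClosedEmbedding_subtypeVal.isClosedMap _
      N.isClosed_topologicalClosure)).comap ad

lemma mem_map_subtype {G : Type*} [Group G] {H : Subgroup G} {N : Subgroup H} {g : H} :
    (g : G) ∈ N.map H.subtype ↔ g ∈ N :=
  Subgroup.mem_map_iff_mem H.subtype_injective

lemma LieData.mem_lieOf (h : LieData ad 𝔭) {N : Subgroup (Gint ad)} {x : V} :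
    x ∈ h.lieOf N ↔ ∀ t : ℝ, ex ad (t • x) ∈ N.topologicalClosure := by
  refine forall_congr' fun t => ?_
  rw [← map_smul]
  exact mem_map_subtype (g := ex ad (t • x))

lemma LieData.nhds_lieOf (h : LieData ad 𝔭) (N : Subgroup (Gint ad)) :
    ∀ᶠ q in 𝓝 (1 : Gint ad), q ∈ N.topologicalClosure → ∃ x ∈ h.lieOf N, q = ex ad x := by
  filter_upwards [continuous_subtype_val.continuousAt.eventually
    (show ∀ᶠ q in 𝓝 ((1 : Gint ad) : (V →L[ℝ] V)ˣ), _ from exists_nhds_exp
      (N.topologicalClosure.map (Gint ad).subtype) (h.isClosed_Gint.isClosedEmbedding_subtypeVal.isClosedMap _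
        N.isClosed_topologicalClosure))] with q hq hq'
  obtain ⟨D, hD, e⟩ := hq (mem_map_subtype.2 hq')
  obtain ⟨x, rfl⟩ := h.lie_Aut (D := D) fun t => by
    obtain ⟨g, -, hg⟩ := hD t
    rw [← hg]; exact h.Gint_le g.2
  exact ⟨x, hD, Subtype.ext e⟩

lemma LieData.mem_lieOf_of_hasDerivAt (h : LieData ad 𝔭) {N : Subgroup (Gint ad)}
    {c : ℝ → Gint ad} {x : V} (hc : ∀ t, c t ∈ N.topologicalClosure) (h0 : c 0 = 1)
    (hD : HasDerivAt (fun t => (c t).1.1) (ad x) 0) : x ∈ h.lieOf N :=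
  mem_lie_of_hasDerivAt (c := fun t => (c t).1)
    (h.isClosed_Gint.isClosedEmbedding_subtypeVal.isClosedMap _ N.isClosed_topologicalClosure)
    (fun t => mem_map_subtype.2 (hc t)) (by simp [h0]) hD

lemma LieData.ideal_of_selberg (h : LieData ad 𝔭) {Δ : Set (Gint ad)} (hS : Selberg Δ)
    (W : Submodule ℝ V) (hW : ∀ δ ∈ Δ, ∀ w ∈ W, δ.1.1 w ∈ W) (x : V) : ∀ w ∈ W, ad x w ∈ W := by
  let S : Submodule ℝ V :=
    { carrier := {x | ∀ w ∈ W, ad x w ∈ W}
      zero_mem' := fun w _ => by simp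
      add_mem' := fun {a b} ha hb w hw => by simpa using W.add_mem (ha w hw) (hb w hw)
      smul_mem' := fun c a ha w hw => by simpa using W.smul_mem c (ha w hw) }
  have : S = ⊤ := by
    refine h.gen S (fun y hy => ?_) fun a ha b hb w hw => ?_
    · obtain ⟨n, e, μ, he⟩ := h.diag y hy
      exact borel hS (ex ad y).2 e he W hW
    · rw [eq_sub_of_add_eq (h.jac a b w).symm]
      exact W.sub_mem (ha _ (hb w hw)) (hb _ (ha w hw))
  exact (this ▸ Submodule.mem_top : x ∈ S)

/-- projections attached to a splitting into ideals -/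
structure Proj (ad : V →ₗ[ℝ] V →L[ℝ] V) (P : V →L[ℝ] V) : Prop where
  idem : P * P = P
  comm : ∀ x, P * ad x = ad x * P
  ad_apply : ∀ x, ad (P x) = ad x * P

lemma Proj.compl {P : V →L[ℝ] V} (hP : Proj ad P) : Proj ad (1 - P) where
  idem := by rw [sub_mul, mul_sub, mul_sub, hP.idem]; simp
  comm x := by rw [sub_mul, mul_sub, hP.comm]; simp
  ad_apply x := by
    rw [mul_sub, ← hP.ad_apply]; simp

lemma Proj.comm_G {P : V →L[ℝ] V} (hP : Proj ad P) (g : Gint ad) : P * g.1.1 = g.1.1 * P := by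
  induction g using Gint_induction with
  | h1 x => exact (Commute.exp_right (hP.comm x)).eq
  | h2 => simp
  | h3 g g' a b =>
    simp only [Subgroup.coe_mul, Units.val_mul]
    rw [← mul_assoc, a, mul_assoc, b, mul_assoc]

lemma exp_mul_of_mul_eq_zero {B Q : V →L[ℝ] V} (h : B * Q = 0) : exp B * Q = Q := by
  ext v
  have : B (Q v) = (0 : ℝ) • Q v := by
    rw [← mul_apply_eq_comp, h]; simp
  simpa using exp_apply_eigen this

lemma Proj.mul_part {P : V →L[ℝ] V} (hP : Proj ad P) (g g' : Gint ad) :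
    (g.1.1 * P + (1 - P)) * (g'.1.1 * P + (1 - P)) = (g * g').1.1 * P + (1 - P) := by
  have h1 := hP.idem
  have h2 := hP.comm_G g'
  have h3 : P * (g'.1.1 * P) = g'.1.1 * P := by rw [← mul_assoc, h2, mul_assoc, h1]
  simp only [Subgroup.coe_mul, Units.val_mul, mul_add, add_mul, mul_sub, sub_mul, mul_assoc, h1,
    h3, one_mul, mul_one]
  abel

/-- the component of an inner automorphism, as a unit -/
noncomputable def Proj.part0 {P : V →L[ℝ] V} (hP : Proj ad P) : Gint ad →* (V →L[ℝ] V)ˣ where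
  toFun g :=
    { val := g.1.1 * P + (1 - P)
      inv := (g⁻¹).1.1 * P + (1 - P)
      val_inv := by rw [hP.mul_part]; simp
      inv_val := by rw [hP.mul_part]; simp }
  map_one' := Units.ext (by simp)
  map_mul' g g' := Units.ext (hP.mul_part g g').symm

lemma Proj.part0_ex {P : V →L[ℝ] V} (hP : Proj ad P) (x : V) :
    hP.part0 (ex ad x) = (ex ad (P x)).1 := by
  refine Units.ext ?_
  change exp (ad x) * P + (1 - P) = exp (ad (P x))
  have h1 : exp (ad (P x)) * (1 - P) = 1 - P :=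
    exp_mul_of_mul_eq_zero (by rw [hP.ad_apply, mul_assoc, mul_sub, hP.idem]; simp)
  have h2 : exp (ad ((1 - P) x)) * P = P :=
    exp_mul_of_mul_eq_zero (by rw [hP.compl.ad_apply, mul_assoc, sub_mul, hP.idem]; simp)
  have h3 : Commute (ad (P x)) (ad ((1 - P) x)) := by
    rw [hP.ad_apply, hP.compl.ad_apply]
    have c1 : Commute (ad x) P := (hP.comm x).symm
    have c2 : Commute (ad x) (1 - P) := (hP.compl.comm x).symm
    have c3 : Commute P (1 - P) := (Commute.one_right P).sub_right (Commute.refl P)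
    exact ((Commute.refl _).mul_right c2).mul_left (c1.symm.mul_right c3)
  have h4 : exp (ad x) = exp (ad (P x)) * exp (ad ((1 - P) x)) := by
    rw [← exp_add_comm h3, ← map_add]; simp
  rw [h4, mul_assoc, h2]
  conv_lhs => rw [← h1]
  rw [← mul_add]; simp

/-- the component of an inner automorphism -/
noncomputable def Proj.part {P : V →L[ℝ] V} (hP : Proj ad P) : Gint ad →* Gint ad :=
  hP.part0.codRestrict _ fun g => by
    induction g using Gint_induction with
    | h1 x => rw [hP.part0_ex]; exact Subtype.prop _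
    | h2 => simp
    | h3 g g' a b => rw [map_mul]; exact mul_mem a b

lemma Proj.part_val {P : V →L[ℝ] V} (hP : Proj ad P) (g : Gint ad) :
    (hP.part g).1.1 = g.1.1 * P + (1 - P) := rfl

lemma Proj.part_ex {P : V →L[ℝ] V} (hP : Proj ad P) (x : V) :
    hP.part (ex ad x) = ex ad (P x) := Subtype.ext (hP.part0_ex x)

lemma Proj.continuous_part {P : V →L[ℝ] V} (hP : Proj ad P) : Continuous hP.part := by
  refine Continuous.subtype_mk (Units.continuous_iff.2 ⟨?_, ?_⟩) _
  · exact ((Units.continuous_val.comp continuous_subtype_val).mul continuous_const).add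
      continuous_const
  · exact ((Units.continuous_val.comp (continuous_subtype_val.comp continuous_inv)).mul
      continuous_const).add continuous_const

lemma Proj.part_mul_part {P : V →L[ℝ] V} (hP : Proj ad P) (g : Gint ad) :
    hP.compl.part g * hP.part g = g := by
  refine Subtype.ext (Units.ext ?_)
  have h1 := hP.idem
  have h3 : P * (g.1.1 * P) = g.1.1 * P := by rw [← mul_assoc, hP.comm_G g, mul_assoc, h1]
  simp only [Subgroup.coe_mul, Units.val_mul, Proj.part_val, mul_add, add_mul, mul_sub, sub_mul,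
    mul_assoc, h1, h3, one_mul, mul_one]
  abel

lemma Proj.part_part {P : V →L[ℝ] V} (hP : Proj ad P) (g : Gint ad) :
    hP.compl.part (hP.part g) = 1 := by
  refine Subtype.ext (Units.ext ?_)
  have h1 := hP.idem
  simp only [Proj.part_val, add_mul, mul_sub, sub_mul,
    mul_assoc, h1, one_mul, mul_one, OneMemClass.coe_one, Units.val_one]
  abel

lemma LieData.exists_proj (h : LieData ad 𝔭) (I : Submodule ℝ V)
    (hI : ∀ x, ∀ y ∈ I, ad x y ∈ I) :
    ∃ P : V →L[ℝ] V, Proj ad P ∧ (∀ x, P x ∈ I) ∧ ∀ x ∈ I, P x = x := by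
  obtain ⟨J, hJ, hIJ⟩ := h.compl I hI
  set P : V →L[ℝ] V := LinearMap.toContinuousLinearMap (I.projection J hIJ) with hPdef
  have a1 : ∀ x, P x ∈ I := fun x => Subtype.prop _
  have a2 : ∀ x ∈ I, P x = x := fun x hx => Submodule.projection_apply_left hIJ ⟨x, hx⟩
  have a3 : ∀ x ∈ J, P x = 0 := fun x hx => (Submodule.projection_apply_eq_zero_iff hIJ).2 hx
  have a4 : ∀ x, x - P x ∈ J := fun x =>
    (Submodule.projection_apply_eq_zero_iff hIJ).1 (by
      change P (x - P x) = 0
      rw [map_sub, a2 _ (a1 x), sub_self])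
  have a5 : ∀ x ∈ I, ∀ y ∈ J, ad x y = 0 := fun x hx y hy =>
    (Submodule.disjoint_def.1 hIJ.disjoint) _ (by rw [h.anti]; exact I.neg_mem (hI _ _ hx))
      (hJ _ _ hy)
  refine ⟨P, ⟨?_, fun x => ?_, fun x => ?_⟩, a1, a2⟩
  · ext x; exact a2 _ (a1 x)
  · ext y
    change P (ad x y) = ad x (P y)
    have := a3 _ (hJ x _ (a4 y))
    rw [map_sub, map_sub, a2 _ (hI x _ (a1 y))] at this
    exact sub_eq_zero.1 this
  · ext y
    change ad (P x) y = ad x (P y)
    have b1 := a5 _ (a1 x) _ (a4 y)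
    have b2 := a5 _ (a1 y) _ (a4 x)
    rw [h.anti, neg_eq_zero, map_sub, sub_apply, sub_eq_zero] at b2
    rw [map_sub, sub_eq_zero] at b1
    rw [b1, b2]

lemma LieData.perfect (h : LieData ad 𝔭) {P : V →L[ℝ] V} (hP : Proj ad P) (S : Submodule ℝ V)
    (hS : ∀ x y, ad (P x) (P y) ∈ S) (y : V) : P y ∈ S := by
  have e : ∀ x y, ad (P x) (P y) = ad x (P y) := fun x y => by
    rw [hP.ad_apply, mul_apply_eq_comp, ← mul_apply_eq_comp P P, hP.idem]
  have e2 : ∀ x y, P (ad x y) = ad x (P y) := fun x y => congrArg (· y) (hP.comm x)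
  let I : Submodule ℝ V := Submodule.span ℝ {z | ∃ x y, z = ad x (P y)}
  have hIP : ∀ z ∈ I, P z = z := by
    intro z hz
    induction hz using Submodule.span_induction with
    | mem z hz =>
      obtain ⟨x, y, rfl⟩ := hz
      rw [e2, ← mul_apply_eq_comp P P, hP.idem]
    | zero => simp
    | add a b _ _ ha hb => rw [map_add, ha, hb]
    | smul c a _ ha => rw [map_smul, ha]
  have hI : ∀ x, ∀ z ∈ I, ad x z ∈ I := fun x z hz =>
    Submodule.subset_span ⟨x, z, by rw [hIP z hz]⟩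
  obtain ⟨J, hJ, hIJ⟩ := h.compl I hI
  obtain ⟨i, hi, j, hj, hij⟩ := Submodule.mem_sup.1
    (hIJ.sup_eq_top ▸ Submodule.mem_top : P y ∈ I ⊔ J)
  have hPj : P j = j := by
    rw [eq_sub_of_add_eq' hij, map_sub, hIP i hi, ← mul_apply_eq_comp P P, hP.idem]
  have hj0 : j = 0 := by
    refine h.inj j ?_
    ext x
    rw [h.anti, (Submodule.disjoint_def.1 hIJ.disjoint) _
      (Submodule.subset_span ⟨x, j, by rw [hPj]⟩) (hJ x j hj)]
    simp
  rw [← hij, hj0, add_zero]
  refine (Submodule.span_le.2 ?_ : I ≤ S) hi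
  rintro _ ⟨x, y, rfl⟩
  rw [← e]; exact hS x y

theorem LieData.splits (h : LieData ad 𝔭) (Δ : Subgroup (Gint ad)) (hS : Selberg (Δ : Set (Gint ad))) :
    ∃ a b, SplitData Δ a b := by
  have hid : ∀ x, ∀ w ∈ h.lieOf Δ, ad x w ∈ h.lieOf Δ := by
    refine h.ideal_of_selberg hS _ fun δ hδ w hw => h.mem_lieOf.2 fun t => ?_
    rw [← map_smul, ← h.conj_ex]
    have := Δ.le_topologicalClosure hδ
    exact mul_mem (mul_mem this (h.mem_lieOf.1 hw t)) (inv_mem this)
  obtain ⟨P, hP, hP1, hP2⟩ := h.exists_proj _ hid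
  set a := hP.compl.part with ha
  set b := hP.part with hb
  have hbmem : ∀ N : Subgroup (Gint ad), (∀ y, P y ∈ h.lieOf N) →
      ∀ g, b g ∈ N.topologicalClosure := by
    intro N hN g
    induction g using Gint_induction with
    | h1 x => rw [hb, hP.part_ex]; simpa using h.mem_lieOf.1 (hN x) 1
    | h2 => simp
    | h3 g g' a b => rw [map_mul]; exact mul_mem a b
  have hab : ∀ g, a g = 1 → b g = g := fun g hg => by
    have := hP.part_mul_part g
    rwa [← ha, hg, one_mul] at this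
  have hbex : ∀ x, b (ex ad (P x)) = ex ad (P x) := fun x => by
    rw [hb, hP.part_ex, hP2 _ (hP1 x)]
  have haa : ∀ g, a (a g) = a g := fun g => by
    have := congrArg a (hP.part_mul_part g)
    rwa [map_mul, hP.part_part, mul_one] at this
  have hdisc : ∀ᶠ q in 𝓝 (1 : Gint ad), q ∈ Δ.map a → q = 1 := by
    filter_upwards [h.nhds_lieOf Δ] with q hq ⟨δ, hδ, e⟩
    have h1 : q ∈ Δ.topologicalClosure := by
      rw [← e, eq_mul_inv_of_mul_eq (hP.part_mul_part δ)]
      exact mul_mem (Δ.le_topologicalClosure hδ) (inv_mem (hbmem Δ hP1 δ))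
    obtain ⟨x, hx, e2⟩ := hq h1
    rw [← e, ← haa, e, e2, ← hP2 x hx, ← hbex]
    exact hP.part_part _
  have hdense : ∀ g, b g ∈ closure {δ | δ ∈ Δ ∧ a δ = 1} := by
    intro g
    have h1 : ∀ᶠ q in 𝓝 (b g), a q ∈ Δ.map a → a q = 1 := by
      refine hP.compl.continuous_part.continuousAt.eventually
        (p := fun q => q ∈ Δ.map a → q = 1) ?_
      rw [hP.part_part]; exact hdisc
    have h2 : b g ∈ closure (Δ : Set (Gint ad)) := hbmem Δ hP1 g
    rw [mem_closure_iff_frequently] at h2 ⊢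
    exact (h2.and_eventually h1).mono fun q hq => ⟨hq.1, hq.2 ⟨q, hq.1, rfl⟩⟩
  refine ⟨a, b, hP.compl.continuous_part, hP.continuous_part, hP.part_mul_part, hP.part_part,
    fun K hK => ?_, fun N hN δ hδ hδa => ?_, fun g hg hc => ?_⟩
  · have : DiscreteTopology (Δ.map a) := by
      refine discreteTopology_of_isOpen_singleton_one (isOpen_iff_mem_nhds.2 ?_)
      rintro _ rfl
      filter_upwards [continuous_subtype_val.continuousAt.eventually
        (show ∀ᶠ q in 𝓝 ((1 : Δ.map a) : Gint ad), _ from hdisc)] with q hq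
      exact Subtype.ext (hq q.2)
    exact finite_inter_of_discrete (Δ.map a) hK
  · rw [← hab δ hδa]
    refine hbmem N (h.perfect hP _ fun y x => ?_) δ
    have hcomm : ∀ g g', b g * b g' * (b g)⁻¹ * (b g')⁻¹ ∈ N.topologicalClosure := by
      intro g g'
      have := map_mem_closure₂ (f := fun u v : Gint ad => u * v * u⁻¹ * v⁻¹) (u := (N : Set _))
        (by fun_prop) (hdense g) (hdense g') fun u hu v hv => hN u hu.1 v hv.1 hu.2 hv.2
      exact this
    have h1 : ∀ s : ℝ, exp (s • ad (P y)) (P x) - P x ∈ h.lieOf N := by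
      intro s
      refine h.mem_lieOf_of_hasDerivAt
        (c := fun t => ex ad (t • exp (s • ad (P y)) (P x)) * ex ad (t • -P x))
        (fun t => ?_) (Subtype.ext (by simp [ex, expU_zero])) ?_
      · have := hcomm (ex ad (P (s • y))) (ex ad (P (t • x)))
        rw [hbex, hbex, h.conj_ex] at this
        have e : ex ad (t • -P x) = (ex ad (P (t • x)))⁻¹ :=
          Subtype.ext (by simp [ex, expU_neg])
        rw [e]
        simpa [ex_val] using this
      · have := (hasDerivAt_exp_smul_zero (ad (exp (s • ad (P y)) (P x)))).mul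
          (hasDerivAt_exp_smul_zero (ad (-P x)))
        simp only [Subgroup.coe_mul, Units.val_mul, ex_val, map_smul]
        exact this.congr_deriv (by simp [sub_eq_add_neg])
    have h2 := ((hasDerivAt_exp_apply (ad (P y)) (P x) 0).sub_const (P x)).tendsto_slope_zero_right
    refine (h.lieOf N).closed_of_finiteDimensional.mem_of_tendsto (by simpa using h2)
      (Eventually.of_forall fun s => ?_)
    simpa using (h.lieOf N).smul_mem s⁻¹ (h1 s)
  · have h1 : ∀ g', g * b g' = b g' * g := fun g' =>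
      (isClosed_eq (by fun_prop) (by fun_prop) : IsClosed {u | g * u = u * g}).closure_subset_iff.2
        (fun u hu => hc u hu.1 hu.2) (hdense g')
    have h2 : ∀ x, g.1.1 (P x) = P x := by
      intro x
      have h3 : (fun t : ℝ => exp (t • ad (g.1.1 (P x)))) = fun t : ℝ => exp (t • ad (P x)) := by
        funext t
        have := h.conj_ex g (P (t • x))
        rw [← hbex, h1, mul_inv_cancel_right, hbex] at this
        simpa [ex_val] using (congrArg (fun u : Gint ad => u.1.1) this).symm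
      have h4 := hasDerivAt_exp_smul_zero (ad (g.1.1 (P x)))
      rw [h3] at h4
      have h5 := h4.unique (hasDerivAt_exp_smul_zero (ad (P x)))
      exact sub_eq_zero.1 (h.inj _ (by rw [map_sub, h5, sub_self]))
    rw [← hab g hg]
    refine Subtype.ext (Units.ext ?_)
    ext x
    simp [hb, Proj.part_val, h2]

end Pool.Agent.Lib.MP_d2fa5a_al
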