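import Pool.Agent.Lib.MP_d2fa5a_al.Defs
import Pool.Agent.Lib.MP_d2fa5a_al.LieData

/-! From Cartan involutions to the linear model of the identity component. -/

set_option autoImplicit false

open Set Filter Topology NormedSpace Module

namespace Pool.Agent.Lib.MP_d2fa5a_al

variable {𝔤 : Type} [LieRing 𝔤] [LieAlgebra ℝ 𝔤] {θ : 𝔤 ≃ₗ⁅ℝ⁆ 𝔤}

lemma IsNoncompactType.swap (h : IsNoncompactType 𝔤 θ) (x y : 𝔤) :
    killingForm ℝ 𝔤 (θ x) y = killingForm ℝ 𝔤 x (θ y) := by
  rw [← LieAlgebra.killingForm_of_equiv_apply θ, h.1]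

lemma IsNoncompactType.eq_zero (h : IsNoncompactType 𝔤 θ) {x : 𝔤}
    (hx : killingForm ℝ 𝔤 x (θ x) = 0) : x = 0 := by
  by_contra h0
  exact (h.2.1 x h0).ne hx

lemma IsNoncompactType.isKilling (h : IsNoncompactType 𝔤 θ) : LieAlgebra.IsKilling ℝ 𝔤 := by
  refine ⟨eq_bot_iff.2 fun x hx => h.eq_zero ?_⟩
  rw [LieModule.traceForm_comm]
  exact (LieIdeal.mem_killingCompl ℝ 𝔤 ⊤).1 hx _ (LieSubmodule.mem_top _)

variable [FiniteDimensional ℝ 𝔤]

lemma IsNoncompactType.diag (h : IsNoncompactType 𝔤 θ) {y : 𝔤} (hy : θ y = -y) :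
    ∃ (n : ℕ) (e : Basis (Fin n) ℝ 𝔤) (μ : Fin n → ℝ), ∀ i, ⁅y, e i⁆ = μ i • e i := by
  let c : InnerProductSpace.Core ℝ 𝔤 :=
    { inner := fun x y => -killingForm ℝ 𝔤 x (θ y)
      conj_inner_symm := fun x y => by
        rw [← h.swap, LieModule.traceForm_comm]; rfl
      re_inner_nonneg := fun x => by
        by_cases hx : x = 0
        · simp [hx]
        · simpa using (h.2.1 x hx).le
      add_left := fun x y z => by simp [add_comm]
      smul_left := fun x y r => by simp
      definite := fun x hx => h.eq_zero (neg_eq_zero.1 hx) }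
  letI : NormedAddCommGroup 𝔤 := c.toNormedAddCommGroup
  letI : InnerProductSpace ℝ 𝔤 := InnerProductSpace.ofCore c.toCore
  have hs : LinearMap.IsSymmetric (𝕜 := ℝ) (E := 𝔤) (LieAlgebra.ad ℝ 𝔤 y) := by
    intro x z
    change -killingForm ℝ 𝔤 ⁅y, x⁆ (θ z) = -killingForm ℝ 𝔤 x (θ ⁅y, z⁆)
    rw [LieEquiv.map_lie, hy, LieModule.traceForm_apply_lie_apply', neg_lie, map_neg]
  exact ⟨_, (hs.eigenvectorBasis rfl).toBasis, hs.eigenvalues rfl,
    fun i => hs.apply_eigenvectorBasis rfl i⟩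

lemma IsNoncompactType.gen (h : IsNoncompactType 𝔤 θ) (S : Submodule ℝ 𝔤)
    (h1 : ∀ y, θ y = -y → y ∈ S) (h2 : ∀ x ∈ S, ∀ y ∈ S, ⁅x, y⁆ ∈ S) : S = ⊤ := by
  have := h.isKilling
  let J : LieIdeal ℝ 𝔤 :=
    { carrier := {x | θ x = x ∧ ∀ y, θ y = -y → ⁅x, y⁆ = 0}
      zero_mem' := by simp
      add_mem' := fun {a b} ha hb => ⟨by rw [map_add, ha.1, hb.1], fun y hy => by
        rw [add_lie, ha.2 y hy, hb.2 y hy, add_zero]⟩
      smul_mem' := fun r a ha => ⟨by rw [map_smul, ha.1], fun y hy => by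
        rw [smul_lie, ha.2 y hy, smul_zero]⟩
      lie_mem := fun {w x} hx => by
        have a1 : ⁅x, w - θ w⁆ = 0 := hx.2 _ (by rw [map_sub, h.1, neg_sub])
        rw [lie_sub, sub_eq_zero] at a1
        refine ⟨by rw [LieEquiv.map_lie, hx.1, ← lie_skew, ← a1, lie_skew], fun y hy => ?_⟩
        have a2 : ⁅x, ⁅w + θ w, y⁆⁆ = 0 := hx.2 _ (by
          rw [LieEquiv.map_lie, map_add, h.1, hy, lie_neg, add_comm])
        rw [leibniz_lie, hx.2 y hy, lie_zero, add_zero, lie_add, ← a1, ← two_smul ℝ,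
          smul_lie] at a2
        rw [← lie_skew w x, neg_lie, (smul_eq_zero.1 a2).resolve_left two_ne_zero, neg_zero] }
  have hJ : J = ⊥ := h.2.2 J fun x hx => hx.1
  have h3 : (killingForm ℝ 𝔤).orthogonal S = ⊥ := by
    refine eq_bot_iff.2 fun x hx => ?_
    have hx' : ∀ y ∈ S, killingForm ℝ 𝔤 y x = 0 := hx
    have hθ : θ x = x := by
      have a1 : θ (x - θ x) = -(x - θ x) := by rw [map_sub, h.1, neg_sub]
      have a2 := hx' _ (h1 _ a1)
      have a3 : killingForm ℝ 𝔤 (x - θ x) (θ x) = 0 := by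
        rw [← h.swap, a1, map_neg, LinearMap.neg_apply, a2, neg_zero]
      refine (sub_eq_zero.1 (h.eq_zero (x := x - θ x) ?_)).symm
      rw [a1, map_neg, (killingForm ℝ 𝔤 (x - θ x)).map_sub, a2, a3]; simp
    have : x ∈ J := by
      refine ⟨hθ, fun y hy => h.eq_zero ?_⟩
      have a1 : θ ⁅x, y⁆ = -⁅x, y⁆ := by rw [LieEquiv.map_lie, hθ, hy, lie_neg]
      rw [a1, map_neg, LieModule.traceForm_apply_lie_apply, LieModule.traceForm_comm,
        hx' _ (h2 _ (h1 y hy) _ (h1 _ a1)), neg_zero]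
    rwa [hJ] at this
  rw [← LinearMap.BilinForm.orthogonal_orthogonal
    (LieAlgebra.IsKilling.killingForm_nondegenerate ℝ 𝔤) (LieModule.traceForm_isSymm ℝ 𝔤 𝔤).isRefl S,
    h3, LinearMap.BilinForm.orthogonal_bot]

variable {V : Type*} [NormedAddCommGroup V] [NormedSpace ℝ V] [CompleteSpace V]
  [FiniteDimensional ℝ V] (e : 𝔤 ≃ₗ[ℝ] V)

/-- transported adjoint action -/
noncomputable def adV : V →ₗ[ℝ] V →L[ℝ] V :=
  LinearMap.toContinuousLinearMap.toLinearMap ∘ₗ e.conj.toLinearMap ∘ₗ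
    LinearMap.mk₂ ℝ (fun x y : 𝔤 => ⁅x, y⁆) add_lie smul_lie lie_add lie_smul ∘ₗ
      e.symm.toLinearMap

lemma adV_apply (x y : V) : adV e x y = e ⁅e.symm x, e.symm y⁆ := rfl

lemma IsNoncompactType.lieData (h : IsNoncompactType 𝔤 θ) :
    LieData (adV e) (e '' {y | θ y = -y}) where
  anti x y := by rw [adV_apply, adV_apply, ← lie_skew, map_neg]
  jac x y z := by
    simp only [adV_apply, LinearEquiv.symm_apply_apply]
    rw [leibniz_lie, map_add]
  inner D hD := by
    have := h.isKilling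
    obtain ⟨x, hx⟩ := LieDerivation.IsKilling.exists_eq_ad (R := ℝ) (L := 𝔤)
      ⟨e.symm.conj D, fun a b => by
        have := hD (e a) (e b)
        simp only [adV_apply, LinearEquiv.symm_apply_apply] at this
        simp [LinearEquiv.conj_apply_apply, this, sub_eq_add_neg, add_comm]⟩
    refine ⟨e x, ?_⟩
    ext y
    have := LieDerivation.congr_fun hx (e.symm y)
    rw [LieDerivation.ad_apply_apply] at this
    change ⁅x, e.symm y⁆ = e.symm (D (e (e.symm y))) at this
    simp [adV_apply, this]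
  inj x hx := by
    have h1 : LieAlgebra.ad ℝ 𝔤 (e.symm x) = 0 := by
      ext y
      simpa [adV_apply] using congrArg (· (e y)) hx
    have := h.eq_zero (x := e.symm x) (by rw [killingForm_apply_apply, h1]; simp)
    simpa using this
  compl I hI := by
    have := h.isKilling
    let I' : LieIdeal ℝ 𝔤 :=
      { I.comap e.toLinearMap with
        lie_mem := fun {x y} hy => by simpa [adV_apply] using hI (e x) (e y) hy }
    refine ⟨(I'.killingCompl : Submodule ℝ 𝔤).map e.toLinearMap, ?_, ?_⟩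
    · rintro x _ ⟨y, hy, rfl⟩
      exact ⟨_, I'.killingCompl.lie_mem (x := e.symm x) hy, by simp [adV_apply]⟩
    · have h1 := (Submodule.orderIsoMapComap e).isCompl
        (LieSubmodule.isCompl_toSubmodule.2 I'.isCompl_killingCompl)
      have h2 : Submodule.orderIsoMapComap e I'.toSubmodule = I :=
        Submodule.map_comap_eq_of_surjective e.surjective I
      exact h2 ▸ h1
  diag := by
    rintro _ ⟨y, hy, rfl⟩
    obtain ⟨n, b, μ, hb⟩ := h.diag hy
    exact ⟨n, b.map e, μ, fun i => by simp [adV_apply, hb]⟩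
  gen S h1 h2 := by
    have := h.gen (S.comap e.toLinearMap) (fun y hy => h1 ⟨y, hy, rfl⟩)
      fun x hx y hy => by simpa [adV_apply] using h2 _ hx _ hy
    rw [← Submodule.map_comap_eq_of_surjective (f := e.toLinearMap) e.surjective S, this]
    simp

/-- underlying Lie algebra automorphism -/
def toL (g : AutLie 𝔤) : 𝔤 ≃ₗ⁅ℝ⁆ 𝔤 := g

lemma isInducing_toL :
    IsInducing fun (g : AutLie 𝔤) (c : 𝔤 × Module.Dual ℝ 𝔤) => c.2 (toL g c.1) := ⟨rfl⟩

/-- linear model of the automorphism group -/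
noncomputable def modelV : AutLie 𝔤 →* (V →L[ℝ] V)ˣ :=
  MonoidHom.toHomUnits
    { toFun := fun g => LinearMap.toContinuousLinearMap (e.conj (toL g).toLinearEquiv.toLinearMap)
      map_one' := by ext x; exact e.apply_symm_apply x
      map_mul' := fun g h => by
        ext x
        change e (toL g (toL h (e.symm x))) = e (toL g (e.symm (e (toL h (e.symm x)))))
        rw [e.symm_apply_apply] }

lemma modelV_apply (g : AutLie 𝔤) (x : V) : (modelV e g).1 x = e (toL g (e.symm x)) := rfl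

lemma modelV_mem (g : AutLie 𝔤) : modelV e g ∈ Aut (adV e) := fun x y => by
  simp [modelV_apply, adV_apply, LieEquiv.map_lie]

lemma modelV_surj {u : (V →L[ℝ] V)ˣ} (hu : u ∈ Aut (adV e)) : ∃ g, modelV e g = u := by
  let f : 𝔤 ≃ₗ[ℝ] 𝔤 := e ≪≫ₗ (ContinuousLinearEquiv.ofUnit u).toLinearEquiv ≪≫ₗ e.symm
  refine ⟨({ f with map_lie' := fun {x y} => ?_ } : 𝔤 ≃ₗ⁅ℝ⁆ 𝔤), Units.ext ?_⟩
  · have := hu (e x) (e y)
    simp only [adV_apply, LinearEquiv.symm_apply_apply] at this
    change e.symm (u.1 (e ⁅x, y⁆)) = ⁅e.symm (u.1 (e x)), e.symm (u.1 (e y))⁆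
    rw [this, e.symm_apply_apply]
  · ext x
    change e (e.symm (u.1 (e (e.symm x)))) = _
    simp

lemma modelV_injective : Function.Injective (modelV e) := fun g h hgh =>
  LieEquiv.ext fun x => by
    change toL g x = toL h x
    simpa [modelV_apply] using congrArg (fun u : (V →L[ℝ] V)ˣ => u.1 (e x)) hgh

lemma isInducing_modelV : IsInducing (modelV e) := by
  refine IsInducing.of_comp (g := fun (u : (V →L[ℝ] V)ˣ) (c : 𝔤 × Module.Dual ℝ 𝔤) =>
    c.2 (e.symm (u.1 (e c.1)))) ?_ ?_ ?_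
  · refine Units.isOpenEmbedding_val.isInducing.continuous_iff.2 (continuous_clm_apply.2 fun y => ?_)
    let b := Module.finBasis ℝ V
    have := b.equivFunL.symm.continuous.comp (continuous_pi fun i =>
      (continuous_apply (e.symm y, b.coord i ∘ₗ e.toLinearMap)).comp isInducing_toL.continuous)
    refine this.congr fun g => ?_
    exact b.equivFunL.symm_apply_apply (e (toL g (e.symm y)))
  · exact continuous_pi fun c => (c.2 ∘ₗ e.symm.toLinearMap).continuous_of_finiteDimensional.comp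
      (Units.continuous_val.clm_apply continuous_const)
  · have : ((fun (u : (V →L[ℝ] V)ˣ) (c : 𝔤 × Module.Dual ℝ 𝔤) =>
        c.2 (e.symm (u.1 (e c.1)))) ∘ modelV e) =
        fun (g : AutLie 𝔤) (c : 𝔤 × Module.Dual ℝ 𝔤) => c.2 (toL g c.1) := by
      ext g c; simp [modelV_apply]
    rw [this]; exact isInducing_toL

lemma IsNoncompactType.map_AutLie0 (h : IsNoncompactType 𝔤 θ) :
    (AutLie0 𝔤).map (modelV e) = Gint (adV e) := by
  have hd := h.lieData e
  refine le_antisymm ?_ ?_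
  · rw [Subgroup.map_le_iff_le_comap, AutLie0, Subgroup.closure_le]
    refine IsClopen.connectedComponent_subset ⟨hd.isClosed_Gint.preimage
      (isInducing_modelV e).continuous, ?_⟩ (Subgroup.one_mem _)
    exact hd.isOpen_Gint.preimage ((isInducing_modelV e).continuous.subtype_mk (modelV_mem e))
  · rw [Gint, Subgroup.closure_le]
    rintro _ ⟨x, rfl⟩
    choose g hg using fun t : ℝ => modelV_surj e (hd.Gint_le (ex (adV e) (t • x)).2)
    have hc : Continuous g := (isInducing_modelV e).continuous_iff.2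
      ((continuous_subtype_val.comp (continuous_ex.comp
        (continuous_id.smul continuous_const))).congr fun t => (hg t).symm)
    have h0 : g 0 = 1 := modelV_injective e (by rw [hg, map_one]; simp [ex, expU_zero])
    refine ⟨g 1, Subgroup.subset_closure ((isPreconnected_range hc).subset_connectedComponent
      ⟨0, h0⟩ ⟨1, rfl⟩), by rw [hg]; simp [ex]⟩

theorem IsNoncompactType.exists_model (h : IsNoncompactType 𝔤 θ) :
    ∃ (G : Type) (_ : Group G) (_ : TopologicalSpace G) (_ : IsTopologicalGroup G) (_ : T2Space G)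
      (_ : LocallyCompactSpace G) (_ : SecondCountableTopology G),
      (∀ Δ : Subgroup G, Selberg (Δ : Set G) → ∃ a b, SplitData Δ a b) ∧
        Nonempty (AutLie0 𝔤 ≃ₜ* G) := by
  let e := (Module.finBasis ℝ 𝔤).equivFun
  have hd := h.lieData e
  have h1 : LocallyCompactSpace ((Fin (finrank ℝ 𝔤) → ℝ) →L[ℝ] (Fin (finrank ℝ 𝔤) → ℝ))ˣ :=
    Units.isOpenEmbedding_val.locallyCompactSpace
  have h2 : SecondCountableTopology ((Fin (finrank ℝ 𝔤) → ℝ) →L[ℝ] (Fin (finrank ℝ 𝔤) → ℝ))ˣ :=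
    Units.isOpenEmbedding_val.isInducing.secondCountableTopology
  let F : AutLie0 𝔤 →* Gint (adV e) := ((modelV e).comp (AutLie0 𝔤).subtype).codRestrict _
    fun g => h.map_AutLie0 e ▸ ⟨g, g.2, rfl⟩
  have hF : Function.Bijective F := by
    refine ⟨fun a b hab => Subtype.ext (modelV_injective e (congrArg Subtype.val hab)), fun u => ?_⟩
    obtain ⟨g, hg, e'⟩ : u.1 ∈ (AutLie0 𝔤).map (modelV e) := by
      rw [h.map_AutLie0 e]; exact u.2
    exact ⟨⟨g, hg⟩, Subtype.ext e'⟩
  have hF2 : IsInducing F := IsInducing.subtypeVal.of_comp_iff.1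
    ((isInducing_modelV e).comp IsInducing.subtypeVal)
  exact ⟨Gint (adV e), inferInstance, inferInstance, inferInstance, inferInstance,
    hd.isClosed_Gint.isClosedEmbedding_subtypeVal.locallyCompactSpace,
    IsInducing.subtypeVal.secondCountableTopology, hd.splits,
    ⟨⟨MulEquiv.ofBijective F hF, hF2.continuous,
      ((MulEquiv.ofBijective F hF).toEquiv.toHomeomorphOfIsInducing hF2).symm.continuous⟩⟩⟩

end Pool.Agent.Lib.MP_d2fa5a_al
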