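import Mathlib

/-! Group actions on locally finite graphs with cut vertices. -/

set_option autoImplicit false

open Set

namespace Pool.Agent.Lib.MP_d2fa5a_al

variable {W : Type*} {Y : SimpleGraph W}

/-- `y` is reachable from `x` in at most `n` steps -/
def Near (Y : SimpleGraph W) (n : ℕ) (x y : W) : Prop := ∃ p : Y.Walk x y, p.length ≤ n

lemma Near.refl (x : W) : Near Y 0 x x := ⟨SimpleGraph.Walk.nil, le_rfl⟩
lemma Near.mono {n m : ℕ} {x y : W} (h : Near Y n x y) (hnm : n ≤ m) : Near Y m x y :=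
  let ⟨p, hp⟩ := h; ⟨p, hp.trans hnm⟩
lemma Near.symm {n : ℕ} {x y : W} (h : Near Y n x y) : Near Y n y x :=
  let ⟨p, hp⟩ := h; ⟨p.reverse, by simpa using hp⟩
lemma Near.trans {n m : ℕ} {x y z : W} (h : Near Y n x y) (h' : Near Y m y z) :
    Near Y (n + m) x z :=
  let ⟨p, hp⟩ := h; let ⟨q, hq⟩ := h'; ⟨p.append q, by simp; omega⟩
lemma Near.of_adj {x y : W} (h : Y.Adj x y) : Near Y 1 x y := ⟨h.toWalk, by simp⟩
lemma exists_near (hc : Y.Preconnected) (x y : W) : ∃ n, Near Y n x y :=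
  let ⟨p⟩ := hc x y; ⟨p.length, p, le_rfl⟩

lemma finite_near (hlf : ∀ x, (Y.neighborSet x).Finite) (n : ℕ) (x : W) :
    {y | Near Y n x y}.Finite := by
  induction n generalizing x with
  | zero =>
    refine (finite_singleton x).subset ?_
    rintro y ⟨p, hp⟩
    exact (SimpleGraph.Walk.eq_of_length_eq_zero (Nat.le_zero.1 hp)).symm
  | succ n ih =>
    refine ((finite_singleton x).union ((hlf x).biUnion fun z _ => ih z)).subset ?_
    rintro y ⟨p, hp⟩
    cases p with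
    | nil => exact Or.inl rfl
    | cons h q =>
      right
      simp only [mem_iUnion]
      exact ⟨_, h, q, by simpa using hp⟩

lemma exists_near_finite (hc : Y.Preconnected) {ι : Type*} {s : Set ι} (hs : s.Finite)
    (a b : ι → W) : ∃ n, ∀ i ∈ s, Near Y n (a i) (b i) := by
  choose n hn using fun i => exists_near hc (a i) (b i)
  obtain ⟨m, hm⟩ := (hs.image n).bddAbove
  exact ⟨m, fun i hi => (hn i).mono (hm ⟨i, hi, rfl⟩)⟩

/-- `A` misses `w` and can be left only through `w` -/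
def Branch (Y : SimpleGraph W) (w : W) (A : Set W) : Prop :=
  w ∉ A ∧ ∀ x ∈ A, ∀ y, Y.Adj x y → y ∈ A ∨ y = w

lemma Branch.compl {w : W} {A : Set W} (h : Branch Y w A) : Branch Y w (Aᶜ \ {w}) := by
  refine ⟨fun hw => hw.2 rfl, fun x hx y hxy => ?_⟩
  by_cases hy : y = w
  · exact Or.inr hy
  · left
    refine ⟨fun hyA => ?_, hy⟩
    rcases h.2 y hyA x hxy.symm with h' | h'
    · exact hx.1 h'
    · exact hx.2 h'

lemma Branch.mem_of_walk {w : W} {A : Set W} (h : Branch Y w A) {x y : W} (p : Y.Walk x y)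
    (hx : x ∈ A) (hp : ∀ z, Near Y p.length x z → z ≠ w) : y ∈ A := by
  induction p with
  | nil => exact hx
  | @cons u v t huv q ih =>
    have hv : v ≠ w := hp v ((Near.of_adj huv).mono (by simp))
    refine ih ((h.2 u hx v huv).resolve_right hv) fun z hz => hp z ?_
    simpa [add_comm] using (Near.of_adj huv).trans hz

lemma Branch.mem_of_near {w : W} {A : Set W} (h : Branch Y w A) {x y : W} {n : ℕ}
    (hxy : Near Y n x y) (hx : x ∈ A) (hp : ¬ Near Y n x w) : y ∈ A := by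
  obtain ⟨p, hpn⟩ := hxy
  exact h.mem_of_walk p hx fun z hz hzw => hp (hzw ▸ hz.mono hpn)

section Action

variable {Γ : Type*} [Group Γ] [MulAction Γ W]

/-- the action preserves adjacency -/
def ActsOn (Γ : Type*) [Group Γ] [MulAction Γ W] (Y : SimpleGraph W) : Prop :=
  ∀ (γ : Γ) x y, Y.Adj x y → Y.Adj (γ • x) (γ • y)

lemma Near.smul (ha : ActsOn Γ Y) (γ : Γ) {n : ℕ} {x y : W} (h : Near Y n x y) :
    Near Y n (γ • x) (γ • y) := by
  obtain ⟨p, hp⟩ := h
  let f : Y →g Y := ⟨fun x => γ • x, fun h => ha γ _ _ h⟩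
  exact ⟨p.map f, by simpa using hp⟩

lemma Branch.smul (ha : ActsOn Γ Y) (γ : Γ) {w : W} {A : Set W} (h : Branch Y w A) :
    Branch Y (γ • w) {x | γ⁻¹ • x ∈ A} := by
  refine ⟨by simpa using h.1, fun x hx y hxy => ?_⟩
  rcases h.2 _ hx _ (ha γ⁻¹ _ _ hxy) with h' | h'
  · exact Or.inl h'
  · right; rw [← h', smul_inv_smul]

/-- a power of an element fixing a vertex fixes any other given vertex -/
lemma exists_pow_fix (ha : ActsOn Γ Y) (hc : Y.Preconnected)
    (hlf : ∀ x, (Y.neighborSet x).Finite) {γ : Γ} {x : W} (hx : γ • x = x) (v : W) :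
    ∃ k : ℕ, 0 < k ∧ γ ^ k • v = v := by
  obtain ⟨n, hn⟩ := exists_near hc x v
  have hpow : ∀ k : ℕ, γ ^ k • x = x := by
    intro k
    induction k with
    | zero => simp
    | succ k ih => rw [pow_succ, mul_smul, hx, ih]
  have hmaps : MapsTo (fun k : ℕ => γ ^ k • v) univ {y | Near Y n x y} := by
    intro k _
    have := hn.smul ha (γ ^ k)
    rwa [hpow] at this
  obtain ⟨i, -, j, -, hij, he⟩ := infinite_univ.exists_lt_map_eq_of_mapsTo hmaps
    (finite_near hlf n x)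
  refine ⟨j - i, by omega, ?_⟩
  have : γ ^ j = γ ^ i * γ ^ (j - i) := by rw [← pow_add]; congr 1; omega
  have he' : γ ^ i • v = γ ^ j • v := he
  rw [this, mul_smul] at he'
  exact (smul_left_cancel _ he').symm

/-- data of an equivariant height function -/
structure Height (Γ : Type*) [Group Γ] [MulAction Γ W] (Y : SimpleGraph W) (φ : Γ → ℤ)
    (f : W → ℤ) (B : Set W) : Prop where
  add : ∀ a b, φ (a * b) = φ a + φ b
  equi : ∀ (γ : Γ) x, f (γ • x) = φ γ + f x
  fin : B.Finite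
  cover : ∀ x, ∃ γ : Γ, ∃ b ∈ B, x = γ • b ∧ f b = 0
  onto : ∃ γ, φ γ = 1

lemma Height.neg {φ : Γ → ℤ} {f : W → ℤ} {B : Set W} (h : Height Γ Y φ f B) :
    Height Γ Y (fun γ => -φ γ) (fun x => -f x) B where
  add a b := by rw [h.add]; ring
  equi γ x := by rw [h.equi]; ring
  fin := h.fin
  cover x := by
    obtain ⟨γ, b, hb, h1, h2⟩ := h.cover x
    exact ⟨γ, b, hb, h1, by simp [h2]⟩
  onto := by
    obtain ⟨γ, hγ⟩ := h.onto
    have h1 : φ 1 = 0 := by have := h.add 1 1; simp at this; exact this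
    have h2 := h.add γ γ⁻¹
    rw [mul_inv_cancel, h1] at h2
    exact ⟨γ⁻¹, by linarith⟩

lemma Height.one {φ : Γ → ℤ} {f : W → ℤ} {B : Set W} (h : Height Γ Y φ f B) : φ 1 = 0 := by
  have := h.add 1 1; simp at this; exact this

lemma Height.inv {φ : Γ → ℤ} {f : W → ℤ} {B : Set W} (h : Height Γ Y φ f B) (γ : Γ) :
    φ γ⁻¹ = -φ γ := by
  have h2 := h.add γ γ⁻¹
  rw [mul_inv_cancel, h.one] at h2
  linarith

lemma Height.pow {φ : Γ → ℤ} {f : W → ℤ} {B : Set W} (h : Height Γ Y φ f B) (γ : Γ) (k : ℕ) :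
    φ (γ ^ k) = k * φ γ := by
  induction k with
  | zero => simp [h.one]
  | succ k ih => rw [pow_succ, h.add, ih]; push_cast; ring

lemma Height.lip {φ : Γ → ℤ} {f : W → ℤ} {B : Set W} (h : Height Γ Y φ f B) (ha : ActsOn Γ Y)
    (hlf : ∀ x, (Y.neighborSet x).Finite) :
    ∃ M : ℕ, ∀ (n : ℕ) x y, Near Y n x y → f y ≤ f x + M * n := by
  have hfin : (⋃ b ∈ B, Y.neighborSet b).Finite := h.fin.biUnion fun b _ => hlf b
  obtain ⟨M, hM⟩ := (hfin.image f).bddAbove
  refine ⟨M.toNat, fun n x y ⟨p, hp⟩ => ?_⟩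
  have hstep : ∀ x y, Y.Adj x y → f y ≤ f x + M.toNat := by
    intro x y hxy
    obtain ⟨γ, b, hb, rfl, h0⟩ := h.cover x
    have h1 : Y.Adj b (γ⁻¹ • y) := by simpa using ha γ⁻¹ _ _ hxy
    have h2 : f (γ⁻¹ • y) ≤ M := hM ⟨_, mem_biUnion hb h1, rfl⟩
    rw [h.equi, h.inv] at h2
    rw [h.equi, h0]
    have := Int.self_le_toNat M
    linarith
  have key : ∀ {x y} (p : Y.Walk x y), f y ≤ f x + M.toNat * p.length := by
    intro x y p
    induction p with
    | nil => simp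
    | cons huv q ih =>
      have := hstep _ _ huv
      simp only [SimpleGraph.Walk.length_cons]
      push_cast
      linarith
  have h1 := key p
  have h2 : (M.toNat : ℤ) * p.length ≤ M.toNat * n :=
    mul_le_mul_of_nonneg_left (by exact_mod_cast hp) (by positivity)
  linarith

lemma Height.one_side {φ : Γ → ℤ} {f : W → ℤ} {B : Set W} (h : Height Γ Y φ f B)
    (ha : ActsOn Γ Y) (hc : Y.Preconnected) (hlf : ∀ x, (Y.neighborSet x).Finite)
    {T : Set Γ} (hT : T.Finite) (hker : ∀ γ, φ γ = 0 → γ ∈ Subgroup.closure T)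
    (hT0 : ∀ t ∈ T, φ t = 0) {w : W} {A : Set W} (hA : Branch Y w A) :
    (∃ c, ∀ x ∈ A, c ≤ f x) ∨ (∃ c, ∀ x, x ∉ A → c ≤ f x) := by
  obtain ⟨M, hM⟩ := h.lip ha hlf
  obtain ⟨g, hg⟩ := h.onto
  obtain ⟨-, v, hvB, -, hv0⟩ := h.cover w
  obtain ⟨D₁, hD₁⟩ := exists_near_finite hc h.fin (fun b => b) (fun b => g • b)
  obtain ⟨D₂, hD₂⟩ := exists_near_finite hc h.fin (fun b => b) (fun _ => v)
  obtain ⟨D₃, hD₃⟩ := exists_near_finite hc hT (fun _ => v) (fun t => t • v)
  set D := D₁ + D₂ + D₃ with hD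
  -- main case: `f w` is large
  have main : ∀ (w : W) (A : Set W), Branch Y w A → (M : ℤ) * D < f w →
      (∀ x ∈ A, 0 < f x) ∨ (∀ x ∈ Aᶜ \ {w}, 0 < f x) := by
    intro w A hA hw
    have move : ∀ (A : Set W), Branch Y w A → ∀ x y, Near Y D x y → x ∈ A → f x ≤ 0 → y ∈ A := by
      intro A hA x y hxy hx hfx
      refine hA.mem_of_near hxy hx fun hn => ?_
      have := hM _ _ _ hn
      linarith
    have reach : ∀ (A : Set W), Branch Y w A → ∀ k : ℕ, ∀ x ∈ A, f x = -k →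
        ∃ n : Γ, φ n = 0 ∧ n • v ∈ A := by
      intro A hA k
      induction k with
      | zero =>
        intro x hx hfx
        obtain ⟨γ, b, hb, rfl, h0⟩ := h.cover x
        rw [h.equi, h0] at hfx
        refine ⟨γ, by simpa using hfx, move A hA _ _
          (((hD₂ b hb).smul ha γ).mono (by omega)) hx ?_⟩
        rw [h.equi, h0]; simpa using hfx.le
      | succ k ih =>
        intro x hx hfx
        obtain ⟨γ, b, hb, rfl, h0⟩ := h.cover x
        refine ih (γ • g • b) (move A hA _ _ (((hD₁ b hb).smul ha γ).mono (by omega)) hx ?_) ?_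
        · rw [hfx]; omega
        · rw [h.equi, h0] at hfx
          rw [h.equi, h.equi, h0, hg]
          push_cast at hfx
          linarith
    have closed : ∀ (A : Set W), Branch Y w A → ∀ n ∈ Subgroup.closure T,
        φ n = 0 ∧ ∀ m : Γ, φ m = 0 → (m • v ∈ A ↔ (m * n) • v ∈ A) := by
      intro A hA n hn
      induction hn using Subgroup.closure_induction with
      | mem t ht =>
        refine ⟨hT0 t ht, fun m hm => ⟨fun hmA => ?_, fun hmA => ?_⟩⟩
        · rw [mul_smul]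
          exact move A hA _ _ (((hD₃ t ht).smul ha m).mono (by omega)) hmA
            (by rw [h.equi, hm, hv0]; simp)
        · rw [mul_smul] at hmA
          exact move A hA _ _ (((hD₃ t ht).smul ha m).mono (by omega)).symm hmA
            (by rw [h.equi, h.equi, hm, hv0, hT0 t ht]; simp)
      | one => exact ⟨h.one, fun m _ => by simp⟩
      | mul a b _ _ iha ihb =>
        refine ⟨by rw [h.add, iha.1, ihb.1]; simp, fun m hm => ?_⟩
        rw [iha.2 m hm, ← mul_assoc, ihb.2 (m * a) (by rw [h.add, hm, iha.1]; simp)]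
      | inv a _ iha =>
        refine ⟨by rw [h.inv, iha.1]; simp, fun m hm => ?_⟩
        rw [iha.2 (m * a⁻¹) (by rw [h.add, h.inv, hm, iha.1]; simp)]
        simp
    by_contra hcon
    push Not at hcon
    obtain ⟨⟨x, hx, hfx⟩, ⟨y, hy, hfy⟩⟩ := hcon
    obtain ⟨n₁, h₁, hn₁⟩ := reach A hA (-f x).toNat x hx (by omega)
    obtain ⟨n₂, h₂, hn₂⟩ := reach _ hA.compl (-f y).toNat y hy (by omega)
    have := (closed A hA (n₁⁻¹ * n₂) (hker _ (by rw [h.add, h.inv, h₁, h₂]; simp))).2 n₁ h₁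
    rw [mul_inv_cancel_left] at this
    exact hn₂.1 (this.1 hn₁)
  set k : ℕ := ((M : ℤ) * D - f w).toNat + 1 with hk
  have hbig : (M : ℤ) * D < f (g ^ k • w) := by
    rw [h.equi, h.pow, hg]; omega
  rcases main _ _ (hA.smul ha (g ^ k)) hbig with h1 | h1
  · left
    refine ⟨-k, fun x hx => ?_⟩
    have := h1 (g ^ k • x) (by simpa using hx)
    rw [h.equi, h.pow, hg] at this
    linarith
  · right
    refine ⟨min (-k) (f w), fun x hx => ?_⟩
    by_cases hxw : x = w
    · rw [hxw]; exact min_le_right _ _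
    · have := h1 (g ^ k • x) ⟨by simpa using hx, by simpa using hxw⟩
      rw [h.equi, h.pow, hg] at this
      exact (min_le_left _ _).trans (by linarith)

lemma Height.unbounded {φ : Γ → ℤ} {f : W → ℤ} {B : Set W} (h : Height Γ Y φ f B)
    (ha : ActsOn Γ Y) (hc : Y.Preconnected) {w : W} {A : Set W} (hA : Branch Y w A)
    (hdeep : ∀ n, ∃ z ∈ A, ¬ Near Y n z w) (h1 : ∃ c, ∀ x ∈ A, c ≤ f x)
    (h2 : ∃ c, ∀ x ∈ A, c ≤ -f x) : False := by
  obtain ⟨c₁, h1⟩ := h1
  obtain ⟨c₂, h2⟩ := h2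
  obtain ⟨g, hg⟩ := h.onto
  set m : ℕ := (-c₂ - c₁).toNat + 1 with hm
  obtain ⟨D, hD⟩ := exists_near_finite hc h.fin (fun b => b) (fun b => g ^ m • b)
  obtain ⟨z, hz, hzn⟩ := hdeep D
  obtain ⟨γ, b, hb, rfl, h0⟩ := h.cover z
  have hz' := hA.mem_of_near ((hD b hb).smul ha γ) hz hzn
  have a1 := h1 _ hz
  have a2 := h2 _ hz'
  rw [h.equi, h0] at a1
  rw [h.equi, h.equi, h.pow, hg, h0] at a2
  omega

/-- three pairwise disjoint deep branches -/
def ThreeBranches (Y : SimpleGraph W) : Prop :=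
  ∃ (w : Fin 3 → W) (O : Fin 3 → Set W), (∀ i, Branch Y (w i) (O i)) ∧
    (∀ i n, ∃ z ∈ O i, ¬ Near Y n z (w i)) ∧ ∀ i j, i ≠ j → ∀ x ∈ O j, x ∉ O i

theorem exists_stab_ne_zero (ha : ActsOn Γ Y) (hc : Y.Preconnected)
    (hlf : ∀ x, (Y.neighborSet x).Finite) (h3 : ThreeBranches Y) {B : Set W} (hB : B.Finite)
    (hcov : ∀ x, ∃ γ : Γ, γ⁻¹ • x ∈ B) {φ : Γ → ℤ} (hadd : ∀ a b, φ (a * b) = φ a + φ b)
    (honto : ∃ γ, φ γ = 1) {T : Set Γ} (hT : T.Finite)
    (hker : ∀ γ, φ γ = 0 → γ ∈ Subgroup.closure T) (hT0 : ∀ t ∈ T, φ t = 0) (v : W) :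
    ∃ γ : Γ, γ • v = v ∧ φ γ ≠ 0 := by
  by_contra hcon
  push Not at hcon
  have h1 : φ 1 = 0 := by have := hadd 1 1; simp at this; exact this
  have hpow : ∀ γ (k : ℕ), φ (γ ^ k) = k * φ γ := by
    intro γ k
    induction k with
    | zero => simp [h1]
    | succ k ih => rw [pow_succ, hadd, ih]; push_cast; ring
  have hinv : ∀ γ, φ γ⁻¹ = -φ γ := by
    intro γ
    have h2 := hadd γ γ⁻¹
    rw [mul_inv_cancel, h1] at h2
    linarith
  have hstab : ∀ (x : W) (γ : Γ), γ • x = x → φ γ = 0 := by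
    intro x γ hγ
    obtain ⟨k, hk, hkv⟩ := exists_pow_fix ha hc hlf hγ v
    have := hcon _ hkv
    rw [hpow] at this
    rcases mul_eq_zero.1 this with h | h
    · exact absurd h (by exact_mod_cast hk.ne')
    · exact h
  -- orbit representatives
  let r : W → W := fun x => Quotient.out (Quotient.mk (MulAction.orbitRel Γ W) x)
  have hr : ∀ x, ∃ γ : Γ, γ • r x = x := by
    intro x
    have : (MulAction.orbitRel Γ W) x (r x) :=
      Quotient.exact (Quotient.out_eq (Quotient.mk (MulAction.orbitRel Γ W) x)).symm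
    exact this
  have hrs : ∀ (γ : Γ) x, r (γ • x) = r x := by
    intro γ x
    have : Quotient.mk (MulAction.orbitRel Γ W) (γ • x) = Quotient.mk _ x :=
      Quotient.sound ⟨γ, rfl⟩
    simp only [r, this]
  choose c hc' using hr
  have hf : ∀ (x : W) (γ : Γ), γ • r x = x → φ (c x) = φ γ := by
    intro x γ hγ
    have := hstab (r x) (γ⁻¹ * c x) (by rw [mul_smul, hc', inv_smul_eq_iff, hγ])
    rw [hadd, hinv] at this
    linarith
  have H : Height Γ Y φ (fun x => φ (c x)) (r '' B) :=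
    { add := hadd
      equi := fun γ x => by
        rw [hf (γ • x) (γ * c x) (by rw [hrs, mul_smul, hc']), hadd]
      fin := hB.image r
      cover := fun x => by
        obtain ⟨γ, hγ⟩ := hcov x
        refine ⟨c x, r x, ⟨_, hγ, hrs _ _⟩, (hc' x).symm, ?_⟩
        have hrr : r (r x) = r x := by
          conv_rhs => rw [← hc' x, hrs]
        rw [hf (r x) 1 (by rw [one_smul, hrr]), h1]
      onto := honto }
  obtain ⟨w, O, hO, hdeep, hdisj⟩ := h3
  have up := fun i => H.one_side ha hc hlf hT hker hT0 (hO i)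
  have down := fun i => H.neg.one_side ha hc hlf hT (fun γ hγ => hker γ (by simpa using hγ))
    (fun t ht => by simp [hT0 t ht]) (hO i)
  have unb := fun i => H.unbounded ha hc (hO i) (hdeep i)
  have sub : ∀ (g : W → ℤ) i j, i ≠ j → (∃ c, ∀ x, x ∉ O i → c ≤ g x) → ∃ c, ∀ x ∈ O j, c ≤ g x :=
    fun g i j hij ⟨c, hc⟩ => ⟨c, fun x hx => hc x (hdisj i j hij x hx)⟩
  have two : ∀ i j, i ≠ j → (∃ c', ∀ x ∈ O i, c' ≤ φ (c x)) → (∃ c', ∀ x ∈ O j, c' ≤ φ (c x)) →
      False := by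
    intro i j hij hi hj
    rcases down i with h | h
    · exact unb i hi h
    · exact unb j hj (sub _ i j hij h)
  rcases up 0 with h0 | h0
  · rcases up 1 with h1 | h1
    · exact two 0 1 (by decide) h0 h1
    · exact two 0 2 (by decide) h0 (sub _ 1 2 (by decide) h1)
  · exact two 1 2 (by decide) (sub _ 0 1 (by decide) h0) (sub _ 0 2 (by decide) h0)

end Action

end Pool.Agent.Lib.MP_d2fa5a_al
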