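import Pool.Agent.Lib.MP_d2fa5a_al.Defs
import Pool.Agent.Lib.MP_d2fa5a_al.Graph

/-! The Cayley graph of a right-angled Artin group on a disconnected graph. -/

set_option autoImplicit false

open Set Monoid Monoid.CoprodI

namespace Pool.Agent.Lib.MP_d2fa5a_al

section Words

variable {ι : Type*} {M : ι → Type*} [∀ i, Group (M i)]

/-- index of the last letter of a reduced word -/
def lastIdx (w : Word M) : Option ι := w.toList.getLast?.map Sigma.fst

lemma lastIdx_eq_none {w : Word M} (h : lastIdx w = none) : w = Word.empty := by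
  ext1
  simpa [lastIdx, Word.empty] using h

variable [DecidableEq ι] [∀ i, DecidableEq (M i)]

lemma lastIdx_rcons {i : ι} (p : Word.Pair M i) :
    lastIdx (Word.rcons p) = none ∨
      lastIdx (Word.rcons p) = (if p.tail.toList = [] then some i else lastIdx p.tail) := by
  unfold Word.rcons
  split_ifs with h1 h2 h2
  · left; simp [lastIdx, h2]
  · right; rfl
  · right; simp [lastIdx, Word.cons, h2]
  · right
    simp only [lastIdx, Word.cons]
    rw [List.getLast?_cons_of_ne_nil h2]

lemma lastIdx_smul {i : ι} (m : M i) (w : Word M) (h1 : lastIdx w ≠ none)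
    (h2 : lastIdx (of m • w) ≠ none) : lastIdx (of m • w) = lastIdx w := by
  have e1 : w = Word.rcons (Word.equivPair i w) := by
    rw [← Word.equivPair_symm, Equiv.symm_apply_apply]
  have a := (lastIdx_rcons (Word.equivPair i w)).resolve_left (by rw [← e1]; exact h1)
  rw [← e1] at a
  rw [Word.of_smul_def] at h2 ⊢
  rw [(lastIdx_rcons _).resolve_left h2, a]

lemma lastIdx_of {i : ι} {m : M i} (hm : m ≠ 1) :
    lastIdx (of m • (Word.empty : Word M)) = some i := by
  rw [← Word.cons_eq_smul (h1 := by simp [Word.fstIdx, Word.empty]) (h2 := hm)]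
  simp [lastIdx, Word.cons, Word.empty]

end Words

variable {V : Type} {L : SimpleGraph V}

/-- the standard generators -/
def gen (L : SimpleGraph V) (v : V) : RAAG L := PresentedGroup.of v

lemma gen_comm {u v : V} (h : L.Adj u v) : gen L u * gen L v = gen L v * gen L u := by
  have : (PresentedGroup.mk _ (FreeGroup.of u * FreeGroup.of v * (FreeGroup.of u)⁻¹ *
      (FreeGroup.of v)⁻¹) : RAAG L) = 1 := PresentedGroup.one_of_mem ⟨u, v, h, rfl⟩
  have h2 : gen L u * gen L v * (gen L u)⁻¹ * (gen L v)⁻¹ = 1 := this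
  rw [mul_inv_eq_one, mul_inv_eq_iff_eq_mul] at h2
  exact h2

/-- universal property -/
def raagLift {G : Type*} [Group G] (f : V → G) (h : ∀ u v, L.Adj u v → f u * f v = f v * f u) :
    RAAG L →* G :=
  PresentedGroup.toGroup (f := f) (by
    rintro r ⟨u, v, huv, rfl⟩
    simp [h u v huv])

lemma raagLift_gen {G : Type*} [Group G] (f : V → G)
    (h : ∀ u v, L.Adj u v → f u * f v = f v * f u) (v : V) : raagLift f h (gen L v) = f v :=
  PresentedGroup.toGroup.of _

lemma cayley_adj (x y : RAAG L) :
    (cayley L).Adj x y ↔ x ≠ y ∧ ∃ v, x * gen L v = y ∨ x = y * gen L v := by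
  unfold cayley
  rw [SimpleGraph.mulCayley_adj']
  simp [gen]

/-- total exponent -/
noncomputable def expo (x : RAAG L) : ℤ :=
  Multiplicative.toAdd (raagLift (L := L) (fun _ => Multiplicative.ofAdd (1 : ℤ))
    (fun _ _ _ => rfl) x)

lemma expo_mul (x y : RAAG L) : expo (x * y) = expo x + expo y := by simp [expo]
lemma expo_zpow (v : V) (k : ℤ) : expo (gen L v ^ k) = k := by
  simp [expo, raagLift_gen]
lemma expo_gen (v : V) : expo (gen L v) = 1 := by simpa using expo_zpow v 1

lemma gen_zpow_ne_one (v : V) {k : ℤ} (hk : k ≠ 0) : gen L v ^ k ≠ 1 := by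
  intro h
  have := expo_zpow (L := L) v k
  rw [h] at this
  simp [expo] at this
  exact hk this.symm

lemma adj_mul_gen (x : RAAG L) (v : V) : (cayley L).Adj x (x * gen L v) := by
  rw [cayley_adj]
  refine ⟨fun h => ?_, v, Or.inl rfl⟩
  have := congrArg expo h
  rw [expo_mul, expo_gen] at this
  omega

lemma expo_near {n : ℕ} {x y : RAAG L} (h : Near (cayley L) n x y) : |expo x - expo y| ≤ n := by
  obtain ⟨p, hp⟩ := h
  have key : ∀ {x y} (p : (cayley L).Walk x y), |expo x - expo y| ≤ p.length := by
    intro x y p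
    induction p with
    | nil => simp
    | @cons a b c h q ih =>
      obtain ⟨-, v, h | h⟩ := (cayley_adj _ _).1 h
      · have := congrArg expo h
        rw [expo_mul, expo_gen] at this
        simp only [SimpleGraph.Walk.length_cons]
        push_cast
        rw [abs_le] at ih ⊢
        omega
      · have := congrArg expo h
        rw [expo_mul, expo_gen] at this
        simp only [SimpleGraph.Walk.length_cons]
        push_cast
        rw [abs_le] at ih ⊢
        omega
  exact (key p).trans (by exact_mod_cast hp)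

lemma cayley_preconnected : (cayley L).Preconnected := by
  let H : Subgroup (RAAG L) :=
    { carrier := {g | ∀ x, (cayley L).Reachable x (x * g)}
      one_mem' := fun x => by simp
      mul_mem' := fun {a b} ha hb x => by
        rw [← mul_assoc]; exact (ha x).trans (hb _)
      inv_mem' := fun {a} ha x => by
        have := ha (x * a⁻¹)
        rw [inv_mul_cancel_right] at this
        exact this.symm }
  intro x y
  have : x⁻¹ * y ∈ H :=
    PresentedGroup.generated_by _ H (fun v x => (adj_mul_gen x v).reachable) _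
  simpa using this x

lemma cayley_locFin [Finite V] (x : RAAG L) : ((cayley L).neighborSet x).Finite := by
  refine ((finite_range fun v => x * gen L v).union
    (finite_range fun v => x * (gen L v)⁻¹)).subset ?_
  intro y hy
  obtain ⟨-, v, h | h⟩ := (cayley_adj _ _).1 hy
  · exact Or.inl ⟨v, h⟩
  · exact Or.inr ⟨v, by simp [h]⟩

lemma actsOn_left : ActsOn (RAAG L) (cayley L) := by
  intro g x y h
  rw [cayley_adj] at h ⊢
  obtain ⟨h1, v, h2⟩ := h
  refine ⟨by simpa using h1, v, ?_⟩
  rcases h2 with h2 | h2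
  · left; rw [← h2]; simp [mul_assoc]
  · right; rw [h2]; simp [mul_assoc]

lemma exists_sides {c : V → Bool} (hc : ∀ u v, L.Adj u v → c u = c v) :
    ∃ O : RAAG L → Bool → Set (RAAG L), (∀ w i, Branch (cayley L) w (O w i)) ∧
      (∀ w, ∀ x ∈ O w true, x ∉ O w false) ∧
      ∀ w v (k : ℤ), k ≠ 0 → w * gen L v ^ k ∈ O w (c v) := by
  classical
  let M : Bool → Type := fun _ => RAAG L
  let Φ : RAAG L →* CoprodI M := raagLift (fun v => of (M := M) (i := c v) (gen L v)) (by
    intro u v huv
    have h1 := gen_comm huv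
    have h2 := hc u v huv
    have : ∀ i j : Bool, i = j → of (M := M) (i := i) (gen L u) * of (M := M) (i := j) (gen L v)
        = of (M := M) (i := j) (gen L v) * of (M := M) (i := i) (gen L u) := by
      rintro i j rfl
      rw [← map_mul, ← map_mul]
      exact congrArg _ h1
    exact this _ _ h2)
  have hΦ : ∀ v, Φ (gen L v) = of (M := M) (i := c v) (gen L v) := fun v => raagLift_gen _ _ v
  have hinj : ∀ g, Φ g = 1 → g = 1 := by
    let fold : CoprodI M →* RAAG L := CoprodI.lift fun _ => MonoidHom.id (RAAG L)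
    have : fold.comp Φ = MonoidHom.id _ := by
      apply PresentedGroup.ext
      intro v
      exact (congrArg fold (hΦ v)).trans (CoprodI.lift_of _ _)
    intro g hg
    have h2 : fold (Φ g) = g := DFunLike.congr_fun this g
    rw [hg, map_one] at h2
    exact h2.symm
  let side : RAAG L → Option Bool := fun g => lastIdx (Φ g⁻¹ • (Word.empty : Word M))
  have side_none : ∀ g, side g = none → g = 1 := by
    intro g hg
    have h1 := congrArg Word.prod (lastIdx_eq_none hg)
    rw [Word.prod_smul, Word.prod_empty, mul_one] at h1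
    exact inv_eq_one.1 (hinj _ h1)
  have side_one : side 1 = none := by simp [side, lastIdx, Word.empty]
  have side_step : ∀ g v (k : ℤ), side g ≠ none → side (g * gen L v ^ k) ≠ none →
      side (g * gen L v ^ k) = side g := by
    intro g v k h1 h2
    have : Φ (g * gen L v ^ k)⁻¹ • (Word.empty : Word M)
        = of (M := M) (i := c v) (gen L v ^ (-k)) • Φ g⁻¹ • (Word.empty : Word M) := by
      rw [mul_inv_rev, map_mul, mul_smul, ← zpow_neg, map_zpow, hΦ, map_zpow]
    simp only [side] at h1 h2 ⊢
    rw [this] at h2 ⊢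
    exact lastIdx_smul _ _ h1 h2
  refine ⟨fun w i => {x | side (w⁻¹ * x) = some i}, fun w i => ⟨by simp [side_one], ?_⟩, ?_, ?_⟩
  · intro x hx y hxy
    by_cases hy : side (w⁻¹ * y) = none
    · right
      have := side_none _ hy
      rw [inv_mul_eq_one] at this
      exact this.symm
    left
    have hx' : side (w⁻¹ * x) = some i := hx
    obtain ⟨-, v, h | h⟩ := (cayley_adj _ _).1 hxy
    · have e : w⁻¹ * y = w⁻¹ * x * gen L v ^ (1 : ℤ) := by rw [← h]; simp [mul_assoc]
      show side (w⁻¹ * y) = some i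
      rw [e] at hy ⊢
      rw [side_step _ _ _ (by rw [hx']; simp) hy, hx']
    · have e : w⁻¹ * y = w⁻¹ * x * gen L v ^ (-1 : ℤ) := by rw [h]; simp [mul_assoc]
      show side (w⁻¹ * y) = some i
      rw [e] at hy ⊢
      rw [side_step _ _ _ (by rw [hx']; simp) hy, hx']
  · intro w x h1 h2
    have h1' : side (w⁻¹ * x) = some true := h1
    have h2' : side (w⁻¹ * x) = some false := h2
    rw [h1'] at h2'
    simp at h2'
  · intro w v k hk
    show side (w⁻¹ * (w * gen L v ^ k)) = some (c v)
    rw [inv_mul_cancel_left]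
    simp only [side]
    rw [← zpow_neg, map_zpow, hΦ, ← map_zpow]
    exact lastIdx_of (gen_zpow_ne_one v (neg_ne_zero.2 hk))

lemma Branch.subset {W : Type*} {Y : SimpleGraph W} (hc : Y.Preconnected) {w w' : W}
    {A A' : Set W} (hA : Branch Y w A) (hA' : Branch Y w' A') (h1 : w ∈ A') (h2 : w' ∉ A) :
    A ⊆ A' := by
  have key : ∀ x t (p : Y.Walk x t), t = w → (x ∈ A ∨ x = w) → x ∈ A' := by
    intro x t p
    induction p with
    | nil => rintro rfl _; exact h1
    | @cons a b c hab q ih =>
      intro ht ha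
      rcases ha with ha | ha
      · rcases hA'.2 b (ih ht (hA.2 a ha b hab)) a hab.symm with h | h
        · exact h
        · exact absurd (h ▸ ha) h2
      · rw [ha]; exact h1
  intro x hx
  obtain ⟨p⟩ := hc x w
  exact key x w p rfl (Or.inl hx)

lemma exists_coloring (hL : ¬ L.Preconnected) :
    ∃ (c : V → Bool) (a b : V), (∀ u v, L.Adj u v → c u = c v) ∧ c a = true ∧ c b = false := by
  classical
  obtain ⟨a, ha⟩ := not_forall.1 hL
  obtain ⟨b, hb⟩ := not_forall.1 ha
  refine ⟨fun v => decide (L.Reachable a v), a, b, fun u v huv => ?_, by simp, by simpa using hb⟩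
  rw [decide_eq_decide]
  exact ⟨fun h => h.trans huv.reachable, fun h => h.trans huv.symm.reachable⟩

lemma far_pow (w : RAAG L) (v : V) (y : RAAG L) (n : ℕ) (ε : ℤ) (hε : ε = 1 ∨ ε = -1) :
    ∃ k : ℕ, 0 < k ∧ ¬ Near (cayley L) n (w * gen L v ^ (ε * k)) y := by
  refine ⟨n + 1 + (expo w - expo y).natAbs, by omega, fun h => ?_⟩
  have := expo_near h
  rw [expo_mul, expo_zpow, abs_le] at this
  rcases hε with rfl | rfl <;> omega

theorem threeBranches (hL : ¬ L.Preconnected) : ThreeBranches (cayley L) := by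
  obtain ⟨c, a, b, hc, ha, hb⟩ := exists_coloring hL
  obtain ⟨O, hO, hdisj, hmem⟩ := exists_sides hc
  refine ⟨fun i => gen L a ^ (i : ℤ), fun i => O (gen L a ^ (i : ℤ)) false, fun i => hO _ _,
    fun i n => ?_, fun i j hij x hx hxi => ?_⟩
  · obtain ⟨k, hk, hn⟩ := far_pow (gen L a ^ (i : ℤ)) b (gen L a ^ (i : ℤ)) n 1 (Or.inl rfl)
    exact ⟨_, hb ▸ hmem _ b _ (by omega), hn⟩
  · have key : ∀ i j : Fin 3, i ≠ j → gen L a ^ (j : ℤ) ∈ O (gen L a ^ (i : ℤ)) true := by
      intro i j hij
      have := hmem (gen L a ^ (i : ℤ)) a ((j : ℤ) - i) (by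
        intro h; apply hij; ext; omega)
      rw [← zpow_add, ha] at this
      simpa using this
    have := Branch.subset cayley_preconnected (hO (gen L a ^ (j : ℤ)) false)
      (hO (gen L a ^ (i : ℤ)) true) (key i j hij) (hdisj _ _ (key j i hij.symm)) hx
    exact hdisj _ _ this hxi

theorem infinite_raag (hL : ¬ L.Preconnected) : Infinite (RAAG L) := by
  obtain ⟨c, a, -⟩ := exists_coloring hL
  exact Infinite.of_injective (fun k : ℤ => gen L a ^ k) fun i j h => by
    simpa [expo_zpow] using congrArg expo h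

/-- an automorphism of bounded displacement is trivial -/
theorem rigid (hL : ¬ L.Preconnected) {Γ : Type*} [Group Γ] [MulAction Γ (RAAG L)]
    (hact : ActsOn Γ (cayley L)) (γ : Γ) {D : ℕ} (hD : ∀ x, Near (cayley L) D x (γ • x))
    (x : RAAG L) : γ • x = x := by
  by_contra hne
  obtain ⟨c, a, b, hc, ha, hb⟩ := exists_coloring hL
  obtain ⟨O, hO, hdisj, hmem⟩ := exists_sides hc
  have key : ∀ v, γ⁻¹ • x ∈ O x (c v) := by
    intro v
    obtain ⟨ε, hε, havoid⟩ : ∃ ε : ℤ, (ε = 1 ∨ ε = -1) ∧
        ∀ j : ℕ, x * gen L v ^ (ε * j) ≠ γ • x := by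
      by_contra hcon
      push Not at hcon
      obtain ⟨i, hi⟩ := hcon 1 (Or.inl rfl)
      obtain ⟨j, hj⟩ := hcon (-1) (Or.inr rfl)
      have h := congrArg expo (hi.trans hj.symm)
      rw [expo_mul, expo_mul, expo_zpow, expo_zpow] at h
      have : i = 0 := by omega
      subst this
      exact hne (by simpa using hi.symm)
    obtain ⟨k, hk, hn⟩ := far_pow x v (γ • x) (D + D) ε hε
    have hB := (hO x (c v)).smul hact γ
    have h1 : γ • (x * gen L v ^ (ε * k)) ∈ {y | γ⁻¹ • y ∈ O x (c v)} := by
      simpa using hmem x v (ε * k) (by rcases hε with rfl | rfl <;> omega)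
    have h2 := hB.mem_of_near (hD _).symm h1 fun h => hn ((hD _).trans h)
    have h3 : ∀ j : ℕ, x * gen L v ^ (ε * j) ∈ {y | γ⁻¹ • y ∈ O x (c v)} →
        x ∈ {y | γ⁻¹ • y ∈ O x (c v)} := by
      intro j
      induction j with
      | zero => simp
      | succ j ih =>
        intro h
        refine ih ((hB.2 _ h _ ?_).resolve_right (havoid j))
        rcases hε with rfl | rfl
        · have : x * gen L v ^ ((1 : ℤ) * (j + 1 : ℕ)) = x * gen L v ^ ((1 : ℤ) * j) * gen L v := by
            push_cast; rw [one_mul, one_mul, zpow_add_one, mul_assoc]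
          rw [this]; exact (adj_mul_gen _ _).symm
        · have : x * gen L v ^ ((-1 : ℤ) * j) = x * gen L v ^ ((-1 : ℤ) * (j + 1 : ℕ)) * gen L v := by
            rw [mul_assoc, ← zpow_add_one]; congr 2; push_cast; ring
          rw [this]; exact adj_mul_gen _ _
    exact h3 k h2
  exact hdisj x _ (ha ▸ key a) (hb ▸ key b)

end Pool.Agent.Lib.MP_d2fa5a_al
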