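import Pool.Agent.Lib.MP_d2fa5a_al.Main
import Pool.Agent.Lib.MP_d2fa5a_al.Raag
import Pool.Agent.Lib.MP_d2fa5a_al.Cartan

/-! From uniform lattices in `H × S_L` to the abstract setting. -/

set_option autoImplicit false

open Set Filter Topology MulAction
open scoped Pointwise

namespace Pool.Agent.Lib.MP_d2fa5a_al

variable {V : Type} {L : SimpleGraph V}

/-- the underlying graph automorphism -/
def toG (g : SL L) : cayley L ≃g cayley L := g

instance : MulAction (SL L) (RAAG L) where
  smul g x := toG g x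
  one_smul _ := rfl
  mul_smul _ _ _ := rfl

lemma SL.ext {g h : SL L} (e : ∀ x : RAAG L, g • x = h • x) : g = h := RelIso.ext e

lemma actsOn_SL : ActsOn (SL L) (cayley L) := fun g _ _ h => (toG g).map_rel_iff.2 h

lemma isOpen_SL (x y : RAAG L) : IsOpen {g : SL L | g • x = y} :=
  TopologicalSpace.isOpen_generateFrom_of_mem ⟨x, y, rfl⟩

/-- left translations -/
def leftSL (x : RAAG L) : SL L :=
  (⟨Equiv.mulLeft x, fun {a b} => ⟨fun h => by simpa using actsOn_left x⁻¹ _ _ h,
    actsOn_left x a b⟩⟩ : cayley L ≃g cayley L)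

lemma leftSL_smul (x y : RAAG L) : leftSL x • y = x * y := rfl

section Top

/-- the discrete topology on the vertices -/
@[reducible] def discTop : TopologicalSpace (RAAG L) := ⊥

attribute [local instance] discTop

local instance : DiscreteTopology (RAAG L) := ⟨rfl⟩

lemma isInducing_SL : IsInducing fun (g : SL L) (x : RAAG L) => g • x := by
  refine ⟨le_antisymm (continuous_iff_le_induced.1 (continuous_pi fun x =>
    continuous_discrete_rng.2 fun y => isOpen_SL x y)) (le_generateFrom ?_)⟩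
  rintro _ ⟨x, y, rfl⟩
  exact isOpen_induced_iff.2 ⟨_, (isOpen_discrete {y}).preimage (continuous_apply x), rfl⟩

lemma continuous_SL (x : RAAG L) : Continuous fun g : SL L => g • x :=
  (continuous_apply x).comp isInducing_SL.continuous

instance : IsTopologicalGroup (SL L) where
  continuous_mul := isInducing_SL.continuous_iff.2 (continuous_pi fun x =>
    continuous_iff_continuousAt.2 fun z => by
      refine (((continuous_SL (z.2 • x)).comp continuous_fst).continuousAt).congr ?_
      filter_upwards [((isOpen_SL x (z.2 • x)).preimage continuous_snd).mem_nhds rfl] with w hw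
      exact (congrArg (w.1 • ·) hw).symm)
  continuous_inv := isInducing_SL.continuous_iff.2 (continuous_pi fun x =>
    continuous_discrete_rng.2 fun y => by
      have : (fun g : SL L => g⁻¹ • x) ⁻¹' {y} = {g | g • y = x} := by
        ext g; exact inv_smul_eq_iff.trans eq_comm
      exact this ▸ isOpen_SL y x)

instance : T2Space (SL L) :=
  (IsEmbedding.mk isInducing_SL fun _ _ h => SL.ext (congrFun h)).t2Space

lemma isCompact_SL [Finite V] (x y : RAAG L) : IsCompact {g : SL L | g • x = y} := by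
  let F : SL L → (RAAG L → RAAG L) × (RAAG L → RAAG L) := fun g => (fun z => g • z, fun z => g⁻¹ • z)
  have hF : IsInducing F := IsInducing.of_comp
    (isInducing_SL.continuous.prodMk (isInducing_SL.continuous.comp continuous_inv))
    continuous_fst isInducing_SL
  rw [hF.isCompact_iff]
  choose d hd using fun a b : RAAG L => exists_near cayley_preconnected a b
  refine ((isCompact_univ_pi fun z => (finite_near cayley_locFin (d x z) y).isCompact).prod
    (isCompact_univ_pi fun z => (finite_near cayley_locFin (d y z) x).isCompact)).of_isClosed_subset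
    ?_ ?_
  · have : F '' {g : SL L | g • x = y} = {f | f.1 x = y} ∩ ⋂ a, ⋂ b,
        (fun f => (f.1 a, f.1 b, f.2 b)) ⁻¹' {t | (t.1 = b ↔ t.2.2 = a) ∧
          ((cayley L).Adj t.1 t.2.1 ↔ (cayley L).Adj a b)} := by
      ext f
      simp only [mem_inter_iff, mem_iInter, mem_ofPred_eq, mem_preimage]
      constructor
      · rintro ⟨g, hg, rfl⟩
        exact ⟨hg, fun a b => ⟨(inv_smul_eq_iff.trans eq_comm).symm, (toG g).map_rel_iff⟩⟩
      · rintro ⟨h1, h2⟩
        exact ⟨(⟨⟨f.1, f.2, fun a => (h2 a _).1.1 rfl, fun b => (h2 _ b).1.2 rfl⟩,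
          fun {a b} => (h2 a b).2⟩ : cayley L ≃g cayley L), h1, rfl⟩
    rw [this]
    exact (isClosed_eq (by fun_prop) continuous_const).inter (isClosed_iInter fun a =>
      isClosed_iInter fun b => (isClosed_discrete _).preimage (by fun_prop))
  · rintro _ ⟨g, hg, rfl⟩
    exact ⟨fun z _ => hg ▸ (hd x z).smul actsOn_SL g,
      fun z _ => (inv_smul_eq_iff.2 hg.symm : g⁻¹ • y = x) ▸ (hd y z).smul actsOn_SL g⁻¹⟩

end Top

theorem Reducible.prod {Γ : Type} [Group Γ] (Γ₁ : Subgroup Γ) [Γ₁.FiniteIndex]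
    (h : Reducible Γ₁) : ∃ Γ' : Subgroup Γ, Γ'.FiniteIndex ∧
      ∃ (A B : Type) (_ : Group A) (_ : Group B), Infinite A ∧ Infinite B ∧
        Nonempty (Γ' ≃* A × B) := by
  obtain ⟨A, B, hA, hB, hc, hd, hi⟩ := h
  let F : A × B →* Γ₁ := A.subtype.noncommCoprod B.subtype fun a b => hc a a.2 b b.2
  have hF : Function.Injective F := (MonoidHom.noncommCoprod_injective _ _ _).2
    ⟨A.subtype_injective, B.subtype_injective, by simpa [disjoint_iff] using hd⟩
  refine ⟨(Γ₁.subtype.comp F).range, ⟨?_⟩, A, B, inferInstance, inferInstance, hA, hB,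
    ⟨(MonoidHom.ofInjective (f := Γ₁.subtype.comp F) (Γ₁.subtype_injective.comp hF)).symm⟩⟩
  rw [MonoidHom.range_comp, Subgroup.index_map_subtype, MonoidHom.noncommCoprod_range,
    Subgroup.range_subtype, Subgroup.range_subtype]
  exact mul_ne_zero hi.index_ne_zero Subgroup.FiniteIndex.index_ne_zero

theorem reducible_of_fibred [Finite V] (hL : ¬ L.Preconnected) {n : ℕ} {G : Type} [Group G]
    [TopologicalSpace G] [IsTopologicalGroup G] [T2Space G] [LocallyCompactSpace G]
    [SecondCountableTopology G]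
    (hG : ∀ Δ : Subgroup G, Selberg (Δ : Set G) → ∃ a b, SplitData Δ a b)
    {H : Type} [Group H] [TopologicalSpace H] [IsTopologicalGroup H] (H' : Subgroup H)
    (ho : IsOpen (H' : Set H)) [H'.FiniteIndex] (e : H' ≃ₜ* IsomE n × G)
    (Γ : Subgroup (H × SL L)) [DiscreteTopology Γ] [CompactSpace ((H × SL L) ⧸ Γ)]
    (φ : Γ →* Multiplicative ℤ) (hφ : Function.Surjective φ) (hker : φ.ker.FG) :
    ∃ Γ' : Subgroup Γ, Γ'.FiniteIndex ∧ ∃ (A B : Type) (_ : Group A) (_ : Group B),
      Infinite A ∧ Infinite B ∧ Nonempty (Γ' ≃* A × B) := by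
  let Γ₁ : Subgroup Γ := H'.comap ((MonoidHom.fst _ _).comp Γ.subtype)
  have : Γ₁.FiniteIndex := ⟨by
    rw [Subgroup.index_comap]; exact Subgroup.FiniteIndex.index_ne_zero (H := H'.subgroupOf _)⟩
  refine Reducible.prod Γ₁ ?_
  let p₀ : Γ₁ →* H' := (((MonoidHom.fst _ _).comp Γ.subtype).comp Γ₁.subtype).codRestrict H'
    fun γ => γ.2
  let p : Γ₁ →* IsomE n × G := e.toMulEquiv.toMonoidHom.comp p₀
  letI : MulAction Γ₁ (RAAG L) :=
    MulAction.compHom _ (((MonoidHom.snd _ _).comp Γ.subtype).comp Γ₁.subtype)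
  have hsm : ∀ (γ : Γ₁) (x : RAAG L), γ • x = γ.1.1.2 • x := fun _ _ => rfl
  have hact : ActsOn Γ₁ (cayley L) := fun γ => actsOn_SL γ.1.1.2
  have : T2Space H' := e.toHomeomorph.isEmbedding.t2Space
  have : LocallyCompactSpace H' := e.toHomeomorph.isClosedEmbedding.locallyCompactSpace
  have : T2Space H := IsTopologicalGroup.t2Space_iff_one_closed.2 (by
    have := (H'.isClosed_of_isOpen ho).isClosedEmbedding_subtypeVal.isClosedMap {1}
      isClosed_singleton
    rwa [image_singleton] at this)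
  have := infinite_raag hL
  refine Setting.reducible (p := p) (Y := cayley L)
    ⟨hact, cayley_preconnected, cayley_locFin, fun γ h1 h2 => ?_, fun K hK x y => ?_, ?_⟩
    (threeBranches hL) (fun γ D hD => rigid hL hact γ hD) hG (φ.comp Γ₁.subtype) ?_ ?_
  · exact Subtype.ext (Subtype.ext (Prod.ext
      (congrArg Subtype.val (e.injective (h1.trans (map_one e).symm))) (SL.ext h2)))
  · have h1 := finite_inter_of_discrete Γ
      ((hK.image (continuous_subtype_val.comp e.symm.continuous)).prod (isCompact_SL x y))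
    refine (h1.preimage (f := fun γ : Γ₁ => γ.1.1)
      (Subtype.val_injective.comp Subtype.val_injective).injOn).subset fun γ hγ => ?_
    exact ⟨⟨⟨_, hγ.1, congrArg Subtype.val (e.symm_apply_apply (p₀ γ))⟩, hγ.2⟩, γ.1.2⟩
  · have hcl : IsClosed ((QuotientGroup.mk : H × SL L → (H × SL L) ⧸ Γ) '' {u | u.1 ∈ H'}) := by
      rw [← (QuotientGroup.isQuotientMap_mk Γ).isClosed_preimage, ← isOpen_compl_iff,
        isOpen_iff_mem_nhds]
      intro x hx
      filter_upwards [(ho.preimage (by fun_prop : Continuous fun y : H × SL L =>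
        (y * x⁻¹).1)).mem_nhds (by simp)] with y hy ⟨u, hu, h⟩
      refine hx ⟨(y * x⁻¹)⁻¹ * u, H'.mul_mem (H'.inv_mem hy) hu, ?_⟩
      rw [QuotientGroup.eq] at h ⊢
      simpa [mul_assoc] using h
    choose N hN hN' using fun h : H' => exists_compact_mem_nhds h
    obtain ⟨t, ht⟩ := hcl.isCompact.elim_finite_subcover
      (fun i : H' × RAAG L => (QuotientGroup.mk : H × SL L → (H × SL L) ⧸ Γ) ''
        ((Subtype.val '' interior (N i.1)) ×ˢ {g | g • i.2 = 1}))
      (fun i => QuotientGroup.isOpenMap_coe _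
        ((ho.isOpenMap_subtype_val _ isOpen_interior).prod (isOpen_SL _ _))) (by
        rintro _ ⟨u, hu, rfl⟩
        exact mem_iUnion.2 ⟨(⟨u.1, hu⟩, u.2⁻¹ • 1), u,
          ⟨⟨_, mem_interior_iff_mem_nhds.2 (hN' _), rfl⟩, smul_inv_smul _ _⟩, rfl⟩)
    refine ⟨_, t.isCompact_biUnion fun i _ => ((hN i.1).image e.continuous).inv, _,
      t.finite_toSet.image Prod.snd, fun h x => ?_⟩
    obtain ⟨i, hi, ⟨_, g⟩, ⟨⟨u, hu, rfl⟩, hg⟩, h1⟩ := mem_iUnion₂.1
      (ht ⟨((e.symm h : H), leftSL x)⁻¹, inv_mem (e.symm h).2, rfl⟩)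
    rw [eq_comm, QuotientGroup.eq, inv_inv] at h1
    refine ⟨⟨⟨_, h1⟩, mul_mem (e.symm h).2 u.2⟩, mem_biUnion hi ⟨u, interior_subset hu, ?_⟩,
      i, hi, ?_⟩
    · change e u = ((e (e.symm h * u))⁻¹ * h)⁻¹
      simp
    · rw [eq_inv_smul_iff]
      change (leftSL x * g) • i.2 = x
      rw [mul_smul, show g • i.2 = 1 from hg, leftSL_smul, mul_one]
  · obtain ⟨g, hg⟩ := hφ (Multiplicative.ofAdd 1)
    obtain ⟨k, hk, -, h⟩ := Subgroup.exists_pow_mem_of_index_ne_zero
      (Subgroup.FiniteIndex.index_ne_zero (H := Γ₁)) g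
    refine ⟨⟨_, h⟩, fun h1 => hk.ne' ?_⟩
    have h2 : φ (g ^ k) = 1 := h1
    rw [map_pow, hg] at h2
    simpa using congrArg Multiplicative.toAdd h2
  · have := (Group.fg_iff_subgroup_fg _).2 hker
    have := Subgroup.fg_of_index_ne_zero (Γ₁.subgroupOf φ.ker)
    refine (Group.fg_iff_subgroup_fg _).1 (Group.fg_of_surjective (G := Γ₁.subgroupOf φ.ker)
      (f := ((φ.ker.subtype.comp (Subgroup.subtype _)).codRestrict Γ₁ fun γ => γ.2).codRestrict _
        fun γ => γ.1.2) fun γ => ⟨⟨⟨γ.1.1, γ.2⟩, γ.1.2⟩, rfl⟩)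

end Pool.Agent.Lib.MP_d2fa5a_al
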