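import Mathlib

/-! The closed subgroup theorem of von Neumann and Cartan for linear groups. -/

set_option autoImplicit false

open Set Filter Topology NormedSpace Asymptotics

namespace Pool.Agent.Lib.MP_d2fa5a_al

variable {𝔸 : Type*} [NormedRing 𝔸] [NormedAlgebra ℝ 𝔸] [CompleteSpace 𝔸]

lemma exp_add_comm {x y : 𝔸} (h : Commute x y) : exp (x + y) = exp x * exp y := by
  let +nondep : NormedAlgebra ℚ 𝔸 := .restrictScalars ℚ ℝ 𝔸
  exact exp_add_of_commute h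

lemma continuous_exp' : Continuous (exp : 𝔸 → 𝔸) := by
  let +nondep : NormedAlgebra ℚ 𝔸 := .restrictScalars ℚ ℝ 𝔸
  exact exp_continuous

lemma exp_conj_units (y : 𝔸ˣ) (x : 𝔸) : exp (y * x * ↑y⁻¹ : 𝔸) = y * exp x * ↑y⁻¹ := by
  let +nondep : NormedAlgebra ℚ 𝔸 := .restrictScalars ℚ ℝ 𝔸
  exact exp_units_conj y x

/-- the exponential as a unit -/
noncomputable def expU (x : 𝔸) : 𝔸ˣ where
  val := exp x
  inv := exp (-x)
  val_inv := by rw [← exp_add_comm (Commute.refl x).neg_right]; simp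
  inv_val := by rw [← exp_add_comm (Commute.refl x).neg_left]; simp

@[simp] lemma val_expU (x : 𝔸) : (expU x : 𝔸) = exp x := rfl
lemma expU_neg (x : 𝔸) : expU (-x) = (expU x)⁻¹ := Units.ext rfl
lemma expU_zero : expU (0 : 𝔸) = 1 := Units.ext (by simp)
lemma expU_add {x y : 𝔸} (h : Commute x y) : expU (x + y) = expU x * expU y :=
  Units.ext (exp_add_comm h)
lemma expU_nsmul (n : ℕ) (x : 𝔸) : expU (n • x) = expU x ^ n := by
  induction n with
  | zero => simp [expU_zero]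
  | succ n ih => rw [succ_nsmul, pow_succ, expU_add ((Commute.refl x).smul_left n), ih]
lemma expU_conj (y : 𝔸ˣ) (x : 𝔸) : expU (y * x * ↑y⁻¹ : 𝔸) = y * expU x * y⁻¹ :=
  Units.ext (exp_conj_units y x)
lemma continuous_expU : Continuous (expU : 𝔸 → 𝔸ˣ) :=
  Units.continuous_iff.2 ⟨continuous_exp', continuous_exp'.comp continuous_neg⟩

theorem mem_lie_of_tendsto {Q : Subgroup 𝔸ˣ} (hQ : IsClosed (Q : Set 𝔸ˣ)) {ι : Type*}
    {l : Filter ι} [l.NeBot] {q : ι → 𝔸ˣ} {t : ι → ℝ} {D : 𝔸} (hq : ∀ᶠ i in l, q i ∈ Q)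
    (ht : ∀ᶠ i in l, 0 < t i) (ht0 : Tendsto t l (𝓝 0))
    (hD : Tendsto (fun i => (t i)⁻¹ • ((q i : 𝔸) - 1)) l (𝓝 D)) (s : ℝ) : expU (s • D) ∈ Q := by
  have hexp : HasStrictFDerivAt (exp : 𝔸 → 𝔸)
      (ContinuousLinearEquiv.refl ℝ 𝔸 : 𝔸 →L[ℝ] 𝔸) 0 := hasStrictFDerivAt_exp_zero
  set lg := hexp.localInverse _ _ _ with hlg
  have h1 : HasFDerivAt lg ((ContinuousLinearEquiv.refl ℝ 𝔸).symm : 𝔸 →L[ℝ] 𝔸) 1 := by
    have := hexp.to_localInverse.hasFDerivAt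
    rwa [exp_zero] at this
  have h2 : ∀ᶠ y in 𝓝 (1 : 𝔸), exp (lg y) = y := by
    have := hexp.eventually_right_inverse
    rwa [exp_zero] at this
  have h3 : lg 1 = 0 := by
    have := hexp.localInverse_apply_image
    rwa [exp_zero] at this
  have hsub : ∀ᶠ i in l, (q i : 𝔸) - 1 = t i • ((t i)⁻¹ • ((q i : 𝔸) - 1)) := by
    filter_upwards [ht] with i hi
    rw [smul_smul, mul_inv_cancel₀ hi.ne', one_smul]
  have hq1 : Tendsto (fun i => (q i : 𝔸)) l (𝓝 1) := by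
    rw [← tendsto_sub_nhds_zero_iff]
    have := ht0.smul hD
    rw [zero_smul] at this
    exact this.congr' (EventuallyEq.symm hsub)
  have hO : (fun i => (q i : 𝔸) - 1) =O[l] t := by
    refine IsBigO.congr' ?_ (EventuallyEq.symm hsub) EventuallyEq.rfl
    have := (isBigO_refl t l).smul (hD.isBigO_one ℝ)
    simpa using this
  have hL : Tendsto (fun i => (t i)⁻¹ • lg (q i)) l (𝓝 D) := by
    have h4 := (h1.isLittleO.comp_tendsto hq1).trans_isBigO hO
    have h5 := h4.tendsto_inv_smul_nhds_zero.add hD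
    rw [zero_add] at h5
    refine h5.congr fun i => ?_
    simp [h3, smul_sub]
  have key : ∀ s : ℝ, 0 ≤ s → expU (s • D) ∈ Q := by
    intro s hs
    set m : ι → ℕ := fun i => ⌊s / t i⌋₊ with hm
    have hmt : Tendsto (fun i => (m i : ℝ) * t i) l (𝓝 s) := by
      have hlow : Tendsto (fun i => s - t i) l (𝓝 s) := by simpa using ht0.const_sub s
      refine tendsto_of_tendsto_of_tendsto_of_le_of_le' hlow tendsto_const_nhds ?_ ?_
      · filter_upwards [ht] with i hi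
        have := Nat.lt_floor_add_one (s / t i)
        rw [div_lt_iff₀ hi] at this
        simp only [hm]; linarith
      · filter_upwards [ht] with i hi
        have := Nat.floor_le (div_nonneg hs hi.le)
        rwa [le_div_iff₀ hi] at this
    have h6 := (continuous_expU.tendsto _).comp (hmt.smul hL)
    refine hQ.mem_of_tendsto h6 ?_
    filter_upwards [hq, ht, hq1.eventually h2] with i hqi hti hi
    have e1 : ((m i : ℝ) * t i) • (t i)⁻¹ • lg (q i) = m i • lg (q i) := by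
      rw [smul_smul, mul_assoc, mul_inv_cancel₀ hti.ne', mul_one, Nat.cast_smul_eq_nsmul]
    have e2 : expU (lg (q i)) = q i := Units.ext hi
    simp only [Function.comp, e1, expU_nsmul, e2]
    exact Q.pow_mem hqi _
  rcases le_total 0 s with h | h
  · exact key s h
  · have := Q.inv_mem (key (-s) (by linarith))
    rwa [← expU_neg, neg_smul, neg_neg] at this

theorem mem_lie_of_hasDerivAt {Q : Subgroup 𝔸ˣ} (hQ : IsClosed (Q : Set 𝔸ˣ)) {c : ℝ → 𝔸ˣ}
    {D : 𝔸} (hc : ∀ t, c t ∈ Q) (h0 : c 0 = 1) (hD : HasDerivAt (fun t => (c t : 𝔸)) D 0)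
    (s : ℝ) : expU (s • D) ∈ Q := by
  refine mem_lie_of_tendsto (l := 𝓝[>] (0 : ℝ)) (q := c) (t := id) hQ (Eventually.of_forall hc)
    self_mem_nhdsWithin (tendsto_id'.2 nhdsWithin_le_nhds) ?_ s
  simpa [h0] using hD.tendsto_slope_zero_right

lemma hasDerivAt_exp_smul_zero (D : 𝔸) : HasDerivAt (fun t : ℝ => exp (t • D)) D 0 := by
  simpa using hasDerivAt_exp_smul_const D (0 : ℝ)

/-- the Lie algebra of a closed linear group, as a subspace -/
def lieSub (Q : Subgroup 𝔸ˣ) (hQ : IsClosed (Q : Set 𝔸ˣ)) : Submodule ℝ 𝔸 where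
  carrier := {D | ∀ t : ℝ, expU (t • D) ∈ Q}
  zero_mem' t := by simp [expU_zero, Q.one_mem]
  smul_mem' c D h t := by rw [smul_smul]; exact h _
  add_mem' {D D'} h h' := by
    refine mem_lie_of_hasDerivAt hQ (c := fun t => expU (t • D) * expU (t • D'))
      (fun t => Q.mul_mem (h t) (h' t)) (by simp [expU_zero]) ?_
    have := (hasDerivAt_exp_smul_zero D).mul (hasDerivAt_exp_smul_zero D')
    exact this.congr_deriv (by simp)

lemma mem_lieSub {Q : Subgroup 𝔸ˣ} {hQ : IsClosed (Q : Set 𝔸ˣ)} {D : 𝔸} :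
    D ∈ lieSub Q hQ ↔ ∀ t : ℝ, expU (t • D) ∈ Q := Iff.rfl

theorem exists_nhds_exp [FiniteDimensional ℝ 𝔸] (Q : Subgroup 𝔸ˣ) (hQ : IsClosed (Q : Set 𝔸ˣ)) :
    ∀ᶠ q in 𝓝 (1 : 𝔸ˣ), q ∈ Q → ∃ D ∈ lieSub Q hQ, q = expU D := by
  obtain ⟨𝔠, h𝔠⟩ := (lieSub Q hQ).exists_isCompl
  set π₁ : 𝔸 →L[ℝ] 𝔸 := LinearMap.toContinuousLinearMap
    ((lieSub Q hQ).subtype ∘ₗ (lieSub Q hQ).projectionOnto 𝔠 h𝔠) with hπ₁
  set π₂ : 𝔸 →L[ℝ] 𝔸 := LinearMap.toContinuousLinearMap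
    (𝔠.subtype ∘ₗ 𝔠.projectionOnto _ h𝔠.symm) with hπ₂
  have hsum : ∀ x, π₁ x + π₂ x = x := fun x => Submodule.projection_add_projection_eq_self h𝔠 x
  have m₁ : ∀ x, π₁ x ∈ lieSub Q hQ := fun x => Subtype.prop _
  have m₂ : ∀ x, π₂ x ∈ 𝔠 := fun x => Subtype.prop _
  have e₁ : HasStrictFDerivAt (fun x => exp (π₁ x)) ((1 : 𝔸 →L[ℝ] 𝔸).comp π₁) 0 :=
    HasStrictFDerivAt.comp 0 (by rw [map_zero]; exact hasStrictFDerivAt_exp_zero)
      π₁.hasStrictFDerivAt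
  have e₂ : HasStrictFDerivAt (fun x => exp (π₂ x)) ((1 : 𝔸 →L[ℝ] 𝔸).comp π₂) 0 :=
    HasStrictFDerivAt.comp 0 (by rw [map_zero]; exact hasStrictFDerivAt_exp_zero)
      π₂.hasStrictFDerivAt
  have hΨ : HasStrictFDerivAt (fun x => exp (π₁ x) * exp (π₂ x))
      (ContinuousLinearEquiv.refl ℝ 𝔸 : 𝔸 →L[ℝ] 𝔸) 0 := by
    refine (e₁.mul' e₂).congr_fderiv ?_
    ext x
    simpa [add_comm] using hsum x
  set lg := hΨ.localInverse _ _ _ with hlg
  have h2 : ∀ᶠ y in 𝓝 (1 : 𝔸), exp (π₁ (lg y)) * exp (π₂ (lg y)) = y := by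
    simpa using hΨ.eventually_right_inverse
  have h3 : Tendsto lg (𝓝 1) (𝓝 0) := by simpa using hΨ.localInverse_tendsto
  by_contra hcon
  rw [Filter.not_eventually] at hcon
  have hne := Filter.frequently_iff_neBot.1 hcon
  set U := Ultrafilter.of (𝓝 (1 : 𝔸ˣ) ⊓ 𝓟 {q | ¬ (q ∈ Q → ∃ D ∈ lieSub Q hQ, q = expU D)})
    with hU
  have hUle := Ultrafilter.of_le (𝓝 (1 : 𝔸ˣ) ⊓ 𝓟 {q | ¬ (q ∈ Q → ∃ D ∈ lieSub Q hQ, q = expU D)})
  rw [← hU, le_inf_iff, le_principal_iff] at hUle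
  have hval : Tendsto (fun q : 𝔸ˣ => (q : 𝔸)) U (𝓝 1) :=
    (Units.continuous_val.tendsto 1).mono_left hUle.1
  set Z : 𝔸ˣ → 𝔸 := fun q => π₂ (lg q) with hZ
  have hZ0 : Tendsto Z U (𝓝 0) := by
    have := (π₂.continuous.tendsto 0).comp (h3.comp hval)
    rw [map_zero] at this
    exact this
  have hgood : ∀ᶠ q in U, Z q ≠ 0 ∧ expU (Z q) ∈ Q := by
    filter_upwards [hUle.2, hval.eventually h2] with q hq hq2
    simp only [Classical.not_imp] at hq
    have e : expU (π₁ (lg q)) * expU (Z q) = q := Units.ext hq2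
    constructor
    · intro h0
      rw [h0, expU_zero, mul_one] at e
      exact hq.2 ⟨_, m₁ _, e.symm⟩
    · rw [eq_inv_mul_of_mul_eq e]
      exact Q.mul_mem (Q.inv_mem (by simpa using m₁ (lg q) 1)) hq.1
  have hcomp : IsCompact (Metric.sphere (0 : 𝔸) 1 ∩ 𝔠) := by
    have := FiniteDimensional.proper_real 𝔸
    exact (isCompact_sphere _ _).inter_right 𝔠.closed_of_finiteDimensional
  obtain ⟨z, hz, hzU⟩ := hcomp.ultrafilter_le_nhds (U.map fun q => ‖Z q‖⁻¹ • Z q) (by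
    rw [Ultrafilter.coe_map, le_principal_iff, mem_map]
    filter_upwards [hgood] with q hq
    exact ⟨by simp [norm_smul, hq.1], 𝔠.smul_mem _ (m₂ _)⟩)
  have hzt : Tendsto (fun q => ‖Z q‖⁻¹ • Z q) U (𝓝 z) := hzU
  have hmem : z ∈ lieSub Q hQ := by
    refine mem_lie_of_tendsto (l := U) (q := fun q => expU (Z q)) (t := fun q => ‖Z q‖) hQ
      (hgood.mono fun q h => h.2) (hgood.mono fun q h => norm_pos_iff.2 h.1)
      (by simpa using hZ0.norm) ?_
    have h4 := ((hasFDerivAt_exp_zero (𝕂 := ℝ) (𝔸 := 𝔸)).isLittleO.comp_tendsto hZ0).norm_right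
    have h5 : (fun q => exp (Z q) - 1 - Z q) =o[U] fun q => ‖Z q‖ := by
      simpa [Function.comp_def] using h4
    have h6 := h5.tendsto_inv_smul_nhds_zero.add hzt
    rw [zero_add] at h6
    refine h6.congr fun q => ?_
    simp [smul_sub]
  have : z = 0 := (Submodule.disjoint_def.1 h𝔠.disjoint) z hmem hz.2
  simpa [this] using hz.1

end Pool.Agent.Lib.MP_d2fa5a_al
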