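import Pool.Agent.Lib.MP_d2fa5a_al.CubeDefs

/-! Basic facts on the cube complex: Lipschitz functions, monomials, normal forms. -/

set_option autoImplicit false
set_option linter.unusedSectionVars false

open Set

namespace Pool.Agent.Lib.MP_d2fa5a_al

variable {V : Type} [Fintype V] {L : SimpleGraph V}

theorem dist_le_chain {p q : CubePt L} {a : ℝ} (h : Chain p q a) : dist p q ≤ a :=
  csInf_le ⟨0, fun _ h => h.nonneg⟩ h

theorem dist_le_move {p q : CubePt L} (h : SameCube p q) : dist p q ≤ dist p.t q.t := by
  simpa using dist_le_chain (Chain.move h (Chain.refl q))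

theorem dist_glue {p q : CubePt L} (h : Glue p q) : dist p q = 0 :=
  le_antisymm (dist_le_chain (Chain.glue (Or.inl h) (Chain.refl q))) dist_nonneg

theorem lip {E : Type*} [PseudoMetricSpace E] (f : CubePt L → E)
    (h1 : ∀ p q, SameCube p q → dist (f p) (f q) ≤ dist p.t q.t)
    (h2 : ∀ p q, Glue p q → f p = f q) (p q : CubePt L) : dist (f p) (f q) ≤ dist p q := by
  refine le_csInf (exists_chain p q) fun a ha => ?_
  change Chain p q a at ha
  induction ha with
  | refl => simp
  | move h _ ih => exact (dist_triangle _ _ _).trans (add_le_add (h1 _ _ h) ih)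
  | glue h _ ih =>
    rcases h with h | h
    · rw [h2 _ _ h]; exact ih
    · rw [← h2 _ _ h]; exact ih

/-- exponent of the generator `v` -/
noncomputable def vex (v : V) (x : RAAG L) : ℤ := by
  classical
  exact Multiplicative.toAdd (raagLift (L := L)
    (fun u => Multiplicative.ofAdd (if u = v then (1 : ℤ) else 0)) (fun _ _ _ => mul_comm _ _) x)

theorem vex_mul (v : V) (x y : RAAG L) : vex v (x * y) = vex v x + vex v y := by simp [vex]

theorem vex_one (v : V) : vex v (1 : RAAG L) = 0 := by simp [vex]

theorem vex_inv (v : V) (x : RAAG L) : vex v x⁻¹ = -vex v x := by simp [vex]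

open Classical in
theorem vex_gen (v u : V) : vex v (gen L u) = if u = v then 1 else 0 := by
  simp [vex, raagLift_gen]

/-- product of the generators of a finite set -/
noncomputable def mono (L : SimpleGraph V) (S : Finset V) : RAAG L := (S.toList.map (gen L)).prod

theorem mono_empty : mono L ∅ = 1 := by simp [mono]

open Classical in
theorem vex_mono (v : V) (S : Finset V) : vex v (mono L S) = if v ∈ S then 1 else 0 := by
  have h : ∀ l : List V, vex v (l.map (gen L)).prod = (l.map fun u => if u = v then 1 else 0).sum := by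
    intro l
    induction l with
    | nil => simp [vex_one]
    | cons a l ih => simp only [List.map_cons, List.prod_cons, List.sum_cons, vex_mul, vex_gen, ih]
  rw [mono, h, Finset.sum_map_toList]
  simp

theorem mono_inj {S T : Finset V} (h : mono L S = mono L T) : S = T := by
  ext v
  have := congrArg (vex v) h
  rw [vex_mono, vex_mono] at this
  by_cases h1 : v ∈ S <;> by_cases h2 : v ∈ T <;> simp_all

theorem commute_gen {s : Set V} (hs : L.IsClique s) {u v : V} (hu : u ∈ s) (hv : v ∈ s) :
    Commute (gen L u) (gen L v) := by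
  by_cases h : u = v
  · rw [h]
  · exact gen_comm (hs hu hv h)

theorem commute_mono {s : Set V} (hs : L.IsClique s) {v : V} (hv : v ∈ s) {S : Finset V}
    (hS : ↑S ⊆ s) : Commute (gen L v) (mono L S) :=
  Commute.list_prod_right _ _ fun x hx => by
    obtain ⟨u, hu, rfl⟩ := List.mem_map.1 hx
    exact commute_gen hs hv (hS (Finset.mem_toList.1 hu))

theorem mono_insert [DecidableEq V] {s : Set V} (hs : L.IsClique s) {v : V} (hv : v ∈ s)
    {S : Finset V} (hS : ↑S ⊆ s) (hvS : v ∉ S) : mono L (insert v S) = gen L v * mono L S := by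
  have h := ((Finset.toList_insert hvS).map (gen L)).symm.prod_eq' (by
    rw [List.pairwise_map]
    refine List.pairwise_of_forall_mem_list fun a ha b hb => commute_gen hs ?_ ?_
    · rcases List.mem_cons.1 ha with rfl | ha
      exacts [hv, hS (Finset.mem_toList.1 ha)]
    · rcases List.mem_cons.1 hb with rfl | hb
      exacts [hv, hS (Finset.mem_toList.1 hb)])
  rw [mono, ← h]
  rfl

theorem mono_insert' [DecidableEq V] {s : Set V} (hs : L.IsClique s) {v : V} (hv : v ∈ s)
    {S : Finset V} (hS : ↑S ⊆ s) (hvS : v ∉ S) : mono L (insert v S) = mono L S * gen L v := by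
  rw [mono_insert hs hv hS hvS, (commute_mono hs hv hS).eq]

open Classical in
/-- indicator vector -/
noncomputable def ind (S : Finset V) : EuclideanSpace ℝ V :=
  WithLp.toLp 2 fun v => if v ∈ S then 1 else 0

open Classical in
theorem ind_apply (S : Finset V) (v : V) : ind S v = if v ∈ S then 1 else 0 := rfl

theorem ind_empty : ind (∅ : Finset V) = 0 := by
  ext v; simp [ind_apply]

theorem CubePt.ext' {p q : CubePt L} (h1 : p.g = q.g) (h2 : p.t = q.t) : p = q := by
  cases p; cases q; cases h1; cases h2; rfl

/-- the same base vertex with other coordinates of smaller support -/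
def CubePt.re (p : CubePt L) (s : EuclideanSpace ℝ V) (h1 : ∀ v, s v ∈ Icc (0 : ℝ) 1)
    (h2 : ∀ v, s v ≠ 0 → p.t v ≠ 0) : CubePt L := ⟨p.g, s, h1, p.clique.subset h2⟩

theorem shift (p : CubePt L) (S : Finset V) (hS : ∀ v ∈ S, p.t v = 1) :
    ∃ q : CubePt L, q.g = p.g * mono L S ∧ q.t = p.t - ind S ∧ dist p q = 0 := by
  classical
  induction S using Finset.induction_on with
  | empty => exact ⟨p, by simp [mono_empty], by simp [ind_empty], dist_self p⟩
  | insert v S hv ih =>
    obtain ⟨q, h1, h2, h3⟩ := ih fun u hu => hS u (Finset.mem_insert_of_mem hu)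
    have hv1 := hS v (Finset.mem_insert_self _ _)
    have hc : ∀ u, (p.t - ind (insert v S)) u = if u ∈ insert v S then 0 else p.t u := fun u => by
      rw [PiLp.sub_apply, ind_apply]
      split_ifs with h
      · rw [hS u h, sub_self]
      · rw [sub_zero]
    let r : CubePt L := ⟨q.g * gen L v, p.t - ind (insert v S), fun u => by
      rw [hc]; split_ifs
      exacts [⟨le_rfl, zero_le_one⟩, p.mem u], p.clique.subset fun u hu => by
        have h : (p.t - ind (insert v S)) u ≠ 0 := hu
        rw [hc] at h
        split_ifs at h with h'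
        exacts [absurd rfl h, h]⟩
    have hg : Glue q r := ⟨v, rfl, by simp [h2, ind_apply, hv, hv1], by simp [r, ind_apply, hv1],
      fun u hu => by simp [r, h2, ind_apply, hu]⟩
    refine ⟨r, ?_, rfl, le_antisymm ?_ dist_nonneg⟩
    · change q.g * gen L v = _
      rw [h1, mono_insert' p.clique (show p.t v ≠ 0 by rw [hv1]; exact one_ne_zero)
        (fun u hu => show p.t u ≠ 0 by
          rw [hS u (Finset.mem_insert_of_mem hu)]; exact one_ne_zero) hv, mul_assoc]
    · have := dist_triangle p q r
      rwa [h3, dist_glue hg, add_zero] at this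

/-- normal form: all coordinates are smaller than one -/
def Nf (p : CubePt L) : Prop := ∀ v, p.t v < 1

theorem exists_nf (p : CubePt L) : ∃ q : CubePt L, Nf q ∧ dist p q = 0 := by
  classical
  obtain ⟨q, -, h2, h3⟩ := shift p (Finset.univ.filter fun v => p.t v = 1) (by simp)
  refine ⟨q, fun v => ?_, h3⟩
  rw [h2, PiLp.sub_apply, ind_apply]
  split_ifs with h
  · have : p.t v = 1 := by simpa using h
    rw [this]; norm_num
  · have : p.t v ≠ 1 := by simpa using h
    rw [sub_zero]; exact lt_of_le_of_ne (p.mem v).2 this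

theorem nf_vtx (g : RAAG L) : Nf (vtx g) := fun _ => zero_lt_one

/-- a corner of the cube of `p` -/
noncomputable def corner (p : CubePt L) (S : Finset V) (hS : ∀ v ∈ S, p.t v ≠ 0) : CubePt L :=
  p.re (ind S) (fun v => by rw [ind_apply]; split_ifs <;> simp) fun v hv => by
    rw [ind_apply] at hv
    split_ifs at hv with h
    exacts [hS v h, absurd rfl hv]

theorem dist_corner (p : CubePt L) (S : Finset V) (hS : ∀ v ∈ S, p.t v ≠ 0) :
    dist (corner p S hS) (vtx (p.g * mono L S)) = 0 := by
  obtain ⟨q, h1, h2, h3⟩ := shift (corner p S hS) S fun v hv => by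
    simp [corner, CubePt.re, ind_apply, hv]
  rwa [show q = vtx (p.g * mono L S) from CubePt.ext' h1 (h2.trans (sub_self _))] at h3

theorem sameCube_re (p : CubePt L) (s s' : EuclideanSpace ℝ V) (h1 h2 h1' h2') :
    SameCube (p.re s h1 h2) (p.re s' h1' h2') :=
  ⟨rfl, p.clique.subset (union_subset h2 h2')⟩

theorem dist_vtx_le (p : CubePt L) (S : Finset V) (hS : ∀ v ∈ S, p.t v ≠ 0) :
    dist p (vtx (p.g * mono L S)) ≤ dist p.t (ind S) := by
  have h1 := dist_triangle p (corner p S hS) (vtx (p.g * mono L S))
  rw [dist_corner, add_zero] at h1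
  exact h1.trans (dist_le_move (sameCube_re p p.t _ p.mem (fun _ h => h) _ _))

end Pool.Agent.Lib.MP_d2fa5a_al
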