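import Pool.Agent.Lib.MP_d2fa5a_al.Cube1

/-! Truncated distances to vertices, hyperplane coordinates and local rigidity. -/

set_option autoImplicit false
set_option linter.unusedSectionVars false

open Set

namespace Pool.Agent.Lib.MP_d2fa5a_al

variable {V : Type} [Fintype V] {L : SimpleGraph V}

/-- a function between the sup norm and the Euclidean norm -/
structure Gauge (ρ : EuclideanSpace ℝ V → ℝ) : Prop where
  lip : ∀ x y, |ρ x - ρ y| ≤ dist x y
  coord : ∀ x v, |x v| ≤ ρ x

theorem gauge_norm : Gauge fun x : EuclideanSpace ℝ V => ‖x‖ :=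
  ⟨fun x y => (abs_norm_sub_norm_le x y).trans (dist_eq_norm x y).ge,
    fun x v => PiLp.norm_apply_le x v⟩

/-- the sup norm -/
noncomputable def sn (x : EuclideanSpace ℝ V) : ℝ := ‖x.ofLp‖

theorem gauge_sn : Gauge (sn (V := V)) :=
  ⟨fun x y => (abs_norm_sub_norm_le x.ofLp y.ofLp).trans
    ((pi_norm_le_iff_of_nonneg dist_nonneg).2 fun v => by
      rw [dist_eq_norm]; exact PiLp.norm_apply_le (x - y) v),
    fun x v => norm_le_pi_norm x.ofLp v⟩

variable {ρ : EuclideanSpace ℝ V → ℝ}

theorem Gauge.supp (hρ : Gauge ρ) {t : EuclideanSpace ℝ V} {S : Finset V} (h : ρ (t - ind S) < 1)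
    (v : V) : (v ∈ S → t v ≠ 0) ∧ (v ∉ S → t v ≠ 1) := by
  have h1 := (hρ.coord (t - ind S) v).trans_lt h
  rw [PiLp.sub_apply, ind_apply] at h1
  constructor <;> intro h2 h3 <;> simp [h2, h3] at h1

open Classical in
/-- truncated distance to the vertex `w` -/
noncomputable def tD (ρ : EuclideanSpace ℝ V → ℝ) (w : RAAG L) (p : CubePt L) : ℝ :=
  if h : ∃ S, p.g * mono L S = w then min 1 (ρ (p.t - ind h.choose)) else 1

theorem tD_eq {w : RAAG L} {p : CubePt L} {S : Finset V} (h : p.g * mono L S = w) :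
    tD ρ w p = min 1 (ρ (p.t - ind S)) := by
  have h1 : ∃ S, p.g * mono L S = w := ⟨S, h⟩
  rw [tD, dif_pos h1, mono_inj (mul_left_cancel (h1.choose_spec.trans h.symm))]

theorem tD_le_one (w : RAAG L) (p : CubePt L) : tD ρ w p ≤ 1 := by
  unfold tD
  split_ifs
  exacts [min_le_left _ _, le_rfl]

theorem tD_lt {w : RAAG L} {p : CubePt L} (h : tD ρ w p < 1) :
    ∃ S, p.g * mono L S = w ∧ tD ρ w p = ρ (p.t - ind S) := by
  by_cases h1 : ∃ S, p.g * mono L S = w
  · obtain ⟨S, hS⟩ := h1
    rw [tD_eq hS] at h ⊢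
    exact ⟨S, hS, min_eq_right ((min_lt_iff.1 h).resolve_left (lt_irrefl _)).le⟩
  · rw [tD, dif_neg h1] at h
    exact absurd h (lt_irrefl _)

theorem tD_move (hρ : Gauge ρ) (w : RAAG L) {p q : CubePt L} (h : p.g = q.g) :
    |tD ρ w p - tD ρ w q| ≤ dist p.t q.t := by
  by_cases h1 : ∃ S, p.g * mono L S = w
  · obtain ⟨S, hS⟩ := h1
    rw [tD_eq hS, tD_eq (h ▸ hS)]
    refine (abs_min_sub_min_le_max _ _ _ _).trans (max_le (by simp) ?_)
    simpa using hρ.lip (p.t - ind S) (q.t - ind S)
  · rw [tD, tD, dif_neg h1, dif_neg (h ▸ h1)]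
    simp

theorem tD_glue (hρ : Gauge ρ) (w : RAAG L) {p q : CubePt L} (h : Glue p q) :
    tD ρ w p = tD ρ w q := by
  classical
  obtain ⟨v, h1, h2, h3, h4⟩ := h
  have hv : p.t v ≠ 0 := by rw [h2]; exact one_ne_zero
  have key : ∀ S : Finset V, v ∉ S → (∀ u ∈ S, p.t u ≠ 0) →
      p.g * mono L (insert v S) = q.g * mono L S ∧ p.t - ind (insert v S) = q.t - ind S :=
    fun S hS hS' => ⟨by rw [mono_insert p.clique hv hS' hS, h1, mul_assoc], by
      ext u
      by_cases hu : u = v
      · simp [hu, ind_apply, h2, h3, hS]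
      · simp [hu, ind_apply, h4 u hu]⟩
  rcases (tD_le_one (ρ := ρ) w p).lt_or_eq with a | a
  · obtain ⟨S, b, c⟩ := tD_lt a
    rw [c] at a
    have d : v ∈ S := by_contra fun d => (hρ.supp a v).2 d h2
    obtain ⟨e, f⟩ := key (S.erase v) (Finset.notMem_erase v S) fun u hu =>
      (hρ.supp a u).1 (Finset.mem_of_mem_erase hu)
    rw [Finset.insert_erase d] at e f
    rw [tD_eq b, tD_eq (e.symm.trans b), f]
  rcases (tD_le_one (ρ := ρ) w q).lt_or_eq with a' | a'
  · obtain ⟨S, b, c⟩ := tD_lt a'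
    rw [c] at a'
    have d : v ∉ S := fun d => (hρ.supp a' v).1 d h3
    obtain ⟨e, f⟩ := key S d fun u hu => by
      rw [← h4 u (ne_of_mem_of_not_mem hu d)]; exact (hρ.supp a' u).1 hu
    rw [tD_eq b, tD_eq (e.trans b), f]
  rw [a, a']

theorem tD_lip (hρ : Gauge ρ) (w : RAAG L) (p q : CubePt L) :
    |tD ρ w p - tD ρ w q| ≤ dist p q :=
  lip (tD ρ w) (fun _ _ h => tD_move hρ w h.1) (fun _ _ h => tD_glue hρ w h) p q

/-- the subgroup generated by the neighbours of `v` -/
def lk (L : SimpleGraph V) (v : V) : Subgroup (RAAG L) :=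
  Subgroup.closure (gen L '' L.neighborSet v)

theorem gen_mem_lk {v u : V} (h : L.Adj v u) : gen L u ∈ lk L v :=
  Subgroup.subset_closure ⟨u, h, rfl⟩

theorem vex_lk {v : V} {x : RAAG L} (h : x ∈ lk L v) : vex v x = 0 := by
  induction h using Subgroup.closure_induction with
  | mem x hx =>
    obtain ⟨u, hu, rfl⟩ := hx
    rw [vex_gen, if_neg (L.ne_of_adj hu).symm]
  | one => exact vex_one v
  | mul x y _ _ h1 h2 => rw [vex_mul, h1, h2, add_zero]
  | inv x _ h => rw [vex_inv, h, neg_zero]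

open Classical in
theorem exists_beta (v : V) : ∃ β : RAAG L → ℤ, β 1 = 0 ∧
    ∀ h u, β (h * gen L u) = β h + if u = v ∧ h ∈ lk L v then 1 else 0 := by
  let c : V → RAAG L → ℤ := fun u h => if u = v ∧ h ∈ lk L v then 1 else 0
  let T : V → Equiv.Perm (RAAG L × ℤ) := fun u =>
    ⟨fun x => (x.1 * gen L u, x.2 + c u x.1),
      fun x => (x.1 * (gen L u)⁻¹, x.2 - c u (x.1 * (gen L u)⁻¹)), fun x => by simp,
      fun x => by simp⟩
  have hc : ∀ u u', L.Adj u u' → ∀ h, c u (h * gen L u') = c u h := fun u u' huu h => by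
    by_cases hu : u = v
    · subst hu
      simp only [c, true_and, (lk L u).mul_mem_cancel_right (gen_mem_lk huu)]
    · simp [c, hu]
  let Φ : RAAG L →* (Equiv.Perm (RAAG L × ℤ))ᵐᵒᵖ := raagLift (fun u => MulOpposite.op (T u))
    fun u u' huu => by
      rw [← MulOpposite.op_mul, ← MulOpposite.op_mul]
      congr 1
      ext x
      · simp [T, mul_assoc, gen_comm huu]
      · simp only [T, Equiv.Perm.mul_apply, Equiv.coe_fn_mk, hc u u' huu, hc u' u huu.symm]
        ring
  have hΦ : ∀ u, Φ (gen L u) = MulOpposite.op (T u) := fun u => raagLift_gen _ _ u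
  let H : Subgroup (RAAG L) :=
    { carrier := {g | ∀ x, ((Φ g).unop x).1 = x.1 * g}
      one_mem' := fun x => by simp
      mul_mem' := fun {a b} ha hb x => by
        rw [map_mul, MulOpposite.unop_mul, Equiv.Perm.mul_apply, hb, ha, mul_assoc]
      inv_mem' := fun {a} ha x => by
        have := ha ((Φ a⁻¹).unop x)
        rw [← Equiv.Perm.mul_apply, ← MulOpposite.unop_mul, ← map_mul, inv_mul_cancel] at this
        simp only [map_one, MulOpposite.unop_one, Equiv.Perm.coe_one, id_eq] at this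
        rw [this, mul_inv_cancel_right] }
  have hH : ∀ g, g ∈ H := PresentedGroup.generated_by _ H fun u x => by
    change ((Φ (gen L u)).unop x).1 = x.1 * gen L u
    rw [hΦ]; rfl
  refine ⟨fun h => ((Φ h).unop (1, 0)).2, by simp, fun h u => ?_⟩
  have h1 : ((Φ h).unop (1, 0)).1 = h := (hH h _).trans (one_mul h)
  simp only [map_mul, MulOpposite.unop_mul, Equiv.Perm.mul_apply, hΦ, MulOpposite.unop_op]
  change _ + c u _ = _
  rw [h1]

/-- signed number of crossings of the hyperplane dual to the edge from `1` to `v` -/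
noncomputable def beta (L : SimpleGraph V) (v : V) : RAAG L → ℤ := (exists_beta v).choose

theorem beta_one (v : V) : beta L v 1 = 0 := (exists_beta v).choose_spec.1

open Classical in
theorem beta_mul (v : V) (h : RAAG L) (u : V) :
    beta L v (h * gen L u) = beta L v h + if u = v ∧ h ∈ lk L v then 1 else 0 :=
  (exists_beta v).choose_spec.2 h u

open Classical in
/-- coordinates along one hyperplane of each type -/
noncomputable def hR (b : V → RAAG L) (p : CubePt L) : EuclideanSpace ℝ V :=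
  WithLp.toLp 2 fun v => beta L v ((b v)⁻¹ * p.g) + if (b v)⁻¹ * p.g ∈ lk L v then p.t v else 0

open Classical in
theorem hR_apply (b : V → RAAG L) (p : CubePt L) (v : V) : hR b p v =
    beta L v ((b v)⁻¹ * p.g) + if (b v)⁻¹ * p.g ∈ lk L v then p.t v else 0 := rfl

theorem hR_lip (b : V → RAAG L) (p q : CubePt L) : dist (hR b p) (hR b q) ≤ dist p q := by
  refine lip (hR b) (fun p q h => ?_) (fun p q h => ?_) p q
  · rw [EuclideanSpace.dist_eq, EuclideanSpace.dist_eq]
    refine Real.sqrt_le_sqrt (Finset.sum_le_sum fun v _ => ?_)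
    rw [hR_apply, hR_apply, h.1]
    split_ifs
    · simp
    · rw [dist_self, zero_pow two_ne_zero]
      positivity
  · obtain ⟨v, h1, h2, h3, h4⟩ := h
    ext u
    rw [hR_apply, hR_apply, h1, ← mul_assoc, beta_mul]
    by_cases hu : u = v
    · subst hu
      rw [h2, h3]
      by_cases h5 : (b u)⁻¹ * p.g ∈ lk L u <;> simp [h5]
    · rw [h4 u hu, if_neg (c := v = u ∧ _) fun h => hu h.1.symm, add_zero]
      by_cases h5 : p.t u = 0
      · simp [h5]
      · have h6 : L.Adj u v := p.clique h5 (show p.t v ≠ 0 by rw [h2]; exact one_ne_zero) hu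
        have h7 : (b u)⁻¹ * p.g * gen L v ∈ lk L u ↔ (b u)⁻¹ * p.g ∈ lk L u :=
          (lk L u).mul_mem_cancel_right (gen_mem_lk h6)
        by_cases h8 : (b u)⁻¹ * p.g ∈ lk L u
        · rw [if_pos h8, if_pos (h7.2 h8)]
        · rw [if_neg h8, if_neg (mt h7.1 h8)]

theorem hull {t δ : EuclideanSpace ℝ V} (ht : ∀ v, t v ∈ Icc (0 : ℝ) 1)
    (h : ∀ S : Finset V, (∀ v ∈ S, t v ≠ 0) → ‖δ + (t - ind S)‖ ≤ ‖t - ind S‖) : δ = 0 := by
  classical
  have h1 := h (Finset.univ.filter fun v => t v ≠ 0 ∧ δ v < 0) fun v hv =>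
    (Finset.mem_filter.1 hv).2.1
  set S := Finset.univ.filter fun v => t v ≠ 0 ∧ δ v < 0 with hS
  have h2 := pow_le_pow_left₀ (norm_nonneg _) h1 2
  rw [norm_add_sq_real] at h2
  have h3 : 0 ≤ inner ℝ δ (t - ind S) := by
    rw [PiLp.inner_apply]
    refine Finset.sum_nonneg fun v _ => ?_
    rw [PiLp.sub_apply, ind_apply]
    simp only [RCLike.inner_apply, conj_trivial]
    obtain ⟨a, b⟩ := ht v
    split_ifs with h4
    · exact mul_nonneg_of_nonpos_of_nonpos (by linarith) (Finset.mem_filter.1 h4).2.2.le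
    · by_cases h5 : t v = 0
      · simp [h5]
      · have : 0 ≤ δ v := not_lt.1 fun h6 => h4 (Finset.mem_filter.2 ⟨Finset.mem_univ _, h5, h6⟩)
        exact mul_nonneg (by linarith) this
  exact norm_eq_zero.1 (pow_eq_zero_iff two_ne_zero |>.1 (le_antisymm (by linarith) (by positivity)))

theorem int_eq_zero {n : ℤ} {a b : ℝ} (ha : 0 ≤ a) (ha' : a < 1) (hb : 0 ≤ b) (hb' : b < 1)
    (h : n + a = b) : n = 0 := by
  have h1 : (n : ℝ) < 1 := by linarith
  have h2 : (-1 : ℝ) < n := by linarith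
  have h3 : n < 1 := by exact_mod_cast h1
  have h4 : -1 < n := by exact_mod_cast h2
  omega

theorem rigid_pt {p z : CubePt L} (hp : Nf p) (hz : Nf z) (hd : dist p z < 1 / 2)
    (h : ∀ S : Finset V, (∀ v ∈ S, p.t v ≠ 0) →
      dist z (vtx (p.g * mono L S)) ≤ dist p.t (ind S)) : z = p := by
  classical
  let b : V → RAAG L := fun v => if p.t v = 0 then z.g else p.g
  have h1 : hR b z - hR b p = 0 := hull p.mem fun S hS => by
    have e : p.t - ind S = hR b p - hR b (corner p S hS) := by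
      ext v
      rw [PiLp.sub_apply, PiLp.sub_apply, hR_apply, hR_apply]
      change _ = _ - (beta L v ((b v)⁻¹ * p.g) + if (b v)⁻¹ * p.g ∈ lk L v then ind S v else 0)
      by_cases hv : p.t v = 0
      · have : v ∉ S := fun h => hS v h hv
        simp [hv, ind_apply, this]
      · simp [b, hv]
    rw [← dist_eq_norm p.t]
    refine le_trans ?_ (h S hS)
    rw [e, sub_add_sub_cancel, ← dist_eq_norm]
    refine (hR_lip _ _ _).trans ((dist_triangle_right _ _ (vtx (p.g * mono L S))).trans ?_)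
    rw [dist_corner, add_zero]
  have h2 : ∀ v, z.t v = p.t v ∧ (p.t v ≠ 0 → p.g⁻¹ * z.g ∈ lk L v) := fun v => by
    have e : hR b z v = hR b p v := by
      have := congrArg (fun x : EuclideanSpace ℝ V => x v) h1
      simpa [sub_eq_zero] using this
    rw [hR_apply, hR_apply] at e
    by_cases hv : p.t v = 0
    · simp only [b, hv, if_true, inv_mul_cancel, beta_one, one_mem, ite_self, add_zero] at e
      have e2 := int_eq_zero (n := beta L v (z.g⁻¹ * p.g)) le_rfl zero_lt_one (z.mem v).1 (hz v)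
        (by simpa using e.symm)
      exact ⟨by simpa [e2, hv] using e, fun h => absurd hv h⟩
    · simp only [b, hv, if_false, inv_mul_cancel, beta_one, one_mem, if_true, Int.cast_zero,
        zero_add] at e
      by_cases h3 : p.g⁻¹ * z.g ∈ lk L v
      · rw [if_pos h3] at e
        have e2 := int_eq_zero (z.mem v).1 (hz v) (p.mem v).1 (hp v) e
        exact ⟨by simpa [e2] using e, fun _ => h3⟩
      · rw [if_neg h3] at e
        have e2 := int_eq_zero le_rfl zero_lt_one (p.mem v).1 (hp v) e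
        exact absurd (by simpa [e2] using e.symm) hv
  set S0 := Finset.univ.filter fun v => 1 / 2 < p.t v with hS0
  have h3 : tD sn (p.g * mono L S0) p ≤ 1 / 2 := by
    rw [tD_eq rfl]
    refine (min_le_right _ _).trans ((pi_norm_le_iff_of_nonneg (by norm_num)).2 fun v => ?_)
    change |p.t v - ind S0 v| ≤ 1 / 2
    obtain ⟨a, c⟩ := p.mem v
    rw [ind_apply, abs_le]
    split_ifs with h4
    · have : 1 / 2 < p.t v := by simpa [hS0] using h4
      constructor <;> linarith
    · have : p.t v ≤ 1 / 2 := by simpa [hS0] using h4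
      constructor <;> linarith
  have h4 : tD sn (p.g * mono L S0) z < 1 := by
    have := (abs_le.1 (tD_lip gauge_sn (p.g * mono L S0) p z)).1
    linarith
  obtain ⟨S, h5, h6⟩ := tD_lt h4
  rw [h6] at h4
  have h7 : S = S0 := by
    ext v
    by_cases hv : p.t v = 0
    · refine iff_of_false (fun h => (gauge_sn.supp h4 v).1 h ((h2 v).1.trans hv)) ?_
      simp [hS0, hv]
    · have e := vex_lk ((h2 v).2 hv)
      have e2 : p.g⁻¹ * z.g = mono L S0 * (mono L S)⁻¹ := by
        rw [eq_mul_inv_iff_mul_eq, mul_assoc, h5, inv_mul_cancel_left]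
      rw [e2, vex_mul, vex_inv, vex_mono, vex_mono] at e
      by_cases a : v ∈ S <;> by_cases c : v ∈ S0 <;> simp [a, c] at e ⊢
  rw [h7] at h5
  exact CubePt.ext' (mul_right_cancel h5) (by ext v; exact (h2 v).1)

theorem nf_unique {p z : CubePt L} (hp : Nf p) (hz : Nf z) (hd : dist p z = 0) : z = p :=
  rigid_pt hp hz (by rw [hd]; norm_num) fun S hS => by
    have := dist_triangle_left z (vtx (p.g * mono L S)) p
    rw [hd, zero_add] at this
    exact this.trans (dist_vtx_le p S hS)

end Pool.Agent.Lib.MP_d2fa5a_al
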