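import Pool.Agent.Lib.MP_d2fa5a_al.Cube2

/-! Cut points of the cube complex: isometries preserve the vertices. -/

set_option autoImplicit false
set_option linter.unusedSectionVars false

open Set SeparationQuotient unitInterval

namespace Pool.Agent.Lib.MP_d2fa5a_al

variable {V : Type} [Fintype V] {L : SimpleGraph V}

theorem mk_eq_iff {p q : CubePt L} : (mk p : Salvetti L) = mk q ↔ dist p q = 0 := by
  rw [← dist_mk, dist_eq_zero]

theorem exists_nf' (y : Salvetti L) : ∃ q : CubePt L, Nf q ∧ mk q = y := by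
  obtain ⟨p, rfl⟩ := surjective_mk y
  obtain ⟨q, h1, h2⟩ := exists_nf p
  exact ⟨q, h1, (mk_eq_iff.2 h2).symm⟩

/-- the normal form of a point -/
noncomputable def nf (y : Salvetti L) : CubePt L := (exists_nf' y).choose

theorem nf_nf (y : Salvetti L) : Nf (nf y) := (exists_nf' y).choose_spec.1

theorem mk_nf (y : Salvetti L) : mk (nf y) = y := (exists_nf' y).choose_spec.2

theorem dist_nf (y z : Salvetti L) : dist (nf y) (nf z) = dist y z := by
  rw [← dist_mk, mk_nf, mk_nf]

theorem nf_eq {p : CubePt L} (hp : Nf p) {y : Salvetti L} (h : mk p = y) : nf y = p :=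
  nf_unique hp (nf_nf y) (mk_eq_iff.1 (h.trans (mk_nf y).symm))

/-- the vertices -/
noncomputable def vert (w : RAAG L) : Salvetti L := mk (vtx w)

theorem nf_vert (w : RAAG L) : nf (vert w) = vtx w := nf_eq (nf_vtx w) rfl

theorem vert_inj {a b : RAAG L} (h : vert a = vert b) : a = b := by
  have := congrArg (fun y => (nf y).g) h
  simpa only [nf_vert, vtx] using this

theorem mk_corner (p : CubePt L) (S : Finset V) (hS : ∀ v ∈ S, p.t v ≠ 0) :
    mk (corner p S hS) = vert (p.g * mono L S) := mk_eq_iff.2 (dist_corner p S hS)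

/-- a straight segment in a cube -/
noncomputable def seg {p q : CubePt L} (h : SameCube p q) (a : I) : CubePt L :=
  ⟨p.g, (1 - a : ℝ) • p.t + (a : ℝ) • q.t, fun v => by
    simpa using (convex_Icc (0 : ℝ) 1) (p.mem v) (q.mem v) (one_minus_nonneg a) a.2.1 (by ring),
    h.2.subset fun v hv => by
      by_contra h1
      simp only [mem_union, mem_ofPred_eq, not_or, not_not] at h1
      exact hv (by simp [h1.1, h1.2])⟩

theorem seg_t {p q : CubePt L} (h : SameCube p q) (a : I) (v : V) :
    (seg h a).t v = (1 - a) * p.t v + a * q.t v := rfl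

theorem seg_zero {p q : CubePt L} (h : SameCube p q) : seg h 0 = p :=
  CubePt.ext' rfl (by simp [seg])

theorem seg_one {p q : CubePt L} (h : SameCube p q) : seg h 1 = q :=
  CubePt.ext' h.1 (by simp [seg])

theorem dist_seg {p q : CubePt L} (h : SameCube p q) (a b : I) :
    dist (seg h a) (seg h b) ≤ dist p.t q.t * dist a b := by
  have key : ∀ a : I, {v | (seg h a).t v ≠ 0} ⊆ {v | p.t v ≠ 0} ∪ {v | q.t v ≠ 0} := fun a v hv => by
    by_contra h1
    simp only [mem_union, mem_ofPred_eq, not_or, not_not] at h1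
    exact hv (by simp [seg_t, h1.1, h1.2])
  refine (dist_le_move (p := seg h a) (q := seg h b)
    ⟨rfl, h.2.subset (union_subset (key a) (key b))⟩).trans (le_of_eq ?_)
  have : (seg h a).t - (seg h b).t = ((b : ℝ) - a) • (p.t - q.t) := by
    ext v; simp [seg_t]; ring
  rw [dist_eq_norm, this, norm_smul, dist_eq_norm, mul_comm, dist_comm]
  rfl

theorem continuous_seg {p q : CubePt L} (h : SameCube p q) :
    Continuous fun a => (mk (seg h a) : Salvetti L) :=
  continuous_mk.comp
    (LipschitzWith.of_dist_le_mul (K := nndist p.t q.t) fun a b => dist_seg h a b).continuous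

theorem nf_seg {p q : CubePt L} (h : SameCube p q) (hp : Nf p) {a : I} (ha : a ≠ 1) :
    Nf (seg h a) := fun v => by
  have h1 : (a : ℝ) < 1 := lt_of_le_of_ne a.2.2 fun e => ha (Subtype.ext e)
  rw [seg_t]
  nlinarith [hp v, (q.mem v).2, a.2.1]

/-- the complement of `x` has at least `n` pieces -/
def Pieces (x : Salvetti L) (n : ℕ) : Prop :=
  ∃ f : Salvetti L → Fin n, ContinuousOn f {x}ᶜ ∧ ∀ i, ∃ y, y ≠ x ∧ f y = i

theorem Pieces.map {x : Salvetti L} {n : ℕ} (h : Pieces x n) (φ : Salvetti L ≃ᵢ Salvetti L) :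
    Pieces (φ x) n := by
  obtain ⟨f, h1, h2⟩ := h
  refine ⟨f ∘ φ.symm, h1.comp φ.symm.continuous.continuousOn fun y hy e => hy ?_, fun i => ?_⟩
  · exact φ.symm_apply_eq.1 e
  · obtain ⟨y, a, b⟩ := h2 i
    exact ⟨φ y, fun e => a (φ.injective e), by simpa using b⟩

section NonVertex

variable {x : Salvetti L} {n : ℕ} {f : Salvetti L → Fin n}

theorem seg_const (hf : ContinuousOn f {x}ᶜ) {p q : CubePt L} (h : SameCube p q)
    (hx : ∀ a, mk (seg h a) ≠ x) : f (mk p) = f (mk q) := by
  have := (isPreconnected_range (continuous_seg h)).constant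
    (hf.mono (range_subset_iff.2 hx)) ⟨0, rfl⟩ ⟨1, rfl⟩
  simpa only [seg_zero, seg_one] using this

theorem vert_ne {v : V} (hv : (nf x).t v ≠ 0) (w : RAAG L) : vert w ≠ x := by
  rintro rfl
  rw [nf_vert] at hv
  exact hv rfl

theorem exists_vert_eq (hf : ContinuousOn f {x}ᶜ) {v : V} (hv : (nf x).t v ≠ 0) {y : Salvetti L}
    (hy : y ≠ x) : ∃ w, f y = f (vert w) := by
  classical
  set q := nf y with hq
  have hA : SameCube q (vtx q.g) := ⟨rfl, by simpa [vtx] using q.clique⟩
  set S := Finset.univ.filter fun u => q.t u ≠ 0 with hS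
  have hS' : ∀ u ∈ S, q.t u ≠ 0 := fun u hu => (Finset.mem_filter.1 hu).2
  have hB : SameCube q (corner q S hS') := sameCube_re q q.t _ q.mem (fun _ h => h) _ _
  by_cases h1 : ∀ a, mk (seg hA a) ≠ x
  · exact ⟨_, by rw [← mk_nf y]; exact seg_const hf hA h1⟩
  by_cases h2 : ∀ a, mk (seg hB a) ≠ x
  · exact ⟨_, by rw [← mk_nf y, ← mk_corner q S hS']; exact seg_const hf hB h2⟩
  push Not at h1 h2
  obtain ⟨a, ha⟩ := h1
  obtain ⟨b, hb⟩ := h2
  have ha1 : a ≠ 1 := by rintro rfl; rw [seg_one] at ha; exact vert_ne hv _ ha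
  have hb1 : b ≠ 1 := by rintro rfl; rw [seg_one, mk_corner] at hb; exact vert_ne hv _ hb
  have e1 := nf_eq (nf_seg hA (nf_nf y) ha1) ha
  have e2 := nf_eq (nf_seg hB (nf_nf y) hb1) hb
  refine absurd ?_ hy
  rw [← mk_nf y, ← mk_nf x]
  refine congrArg mk (CubePt.ext' (by rw [e1]; rfl) ?_)
  ext u
  have c1 : (nf x).t u = (1 - a) * q.t u + a * 0 := by rw [e1]; rfl
  have c2 : (nf x).t u = (1 - b) * q.t u + b * ind S u := by rw [e2]; rfl
  change q.t u = _
  by_cases h : q.t u = 0
  · rw [c1, h]; simp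
  · rw [ind_apply, if_pos (by simpa [hS] using h)] at c2
    nlinarith [(q.mem u).1, (q.mem u).2, a.2.1, b.2.1]

theorem edge_const (hf : ContinuousOn f {x}ᶜ) {v : V} (hv : (nf x).t v ≠ 0) (w : RAAG L) (u : V)
    (h : ¬(w = (nf x).g ∧ u = v)) : f (vert w) = f (vert (w * gen L u)) := by
  classical
  let e : CubePt L := ⟨w, ind {u}, fun s => by rw [ind_apply]; split_ifs <;> simp,
    fun a ha b hb hab => by
      have h1 : a = u := by simpa [ind_apply] using ha
      have h2 : b = u := by simpa [ind_apply] using hb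
      exact absurd (h1.trans h2.symm) hab⟩
  have he : mk e = vert (w * gen L u) := mk_eq_iff.2 (dist_glue ⟨u, rfl, by simp [e, ind_apply],
    rfl, fun s hs => by simp [e, vtx, ind_apply, hs]⟩)
  have hA : SameCube (vtx w) e := ⟨rfl, by simpa [vtx] using e.clique⟩
  rw [← he]
  refine seg_const hf hA fun a ha => ?_
  have ha1 : a ≠ 1 := by rintro rfl; rw [seg_one, he] at ha; exact vert_ne hv _ ha
  have e1 := nf_eq (nf_seg hA (nf_vtx w) ha1) ha
  refine h ⟨by rw [e1]; rfl, by_contra fun hu => hv ?_⟩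
  rw [e1, seg_t]
  simp [vtx, e, ind_apply, Ne.symm hu]

theorem two_values (hf : ContinuousOn f {x}ᶜ) {v : V} (hv : (nf x).t v ≠ 0) {y : Salvetti L}
    (hy : y ≠ x) : f y = f (vert (nf x).g) ∨ f y = f (vert ((nf x).g * gen L v)) := by
  obtain ⟨w, hw⟩ := exists_vert_eq hf hv hy
  rw [hw]
  have h := (SimpleGraph.reachable_iff_reflTransGen _ _).1 (cayley_preconnected (nf x).g w)
  clear hw
  induction h with
  | refl => exact Or.inl rfl
  | @tail a b _ hab ih =>
    obtain ⟨-, u, rfl | rfl⟩ := (cayley_adj _ _).1 hab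
    · by_cases h : a = (nf x).g ∧ u = v
      · rw [h.1, h.2]; exact Or.inr rfl
      · rw [← edge_const hf hv a u h]; exact ih
    · by_cases h : b = (nf x).g ∧ u = v
      · rw [h.1]; exact Or.inl rfl
      · rw [edge_const hf hv b u h]; exact ih

theorem not_pieces_three {v : V} (hv : (nf x).t v ≠ 0) : ¬Pieces x 3 := by
  rintro ⟨f, hf, h⟩
  have key : ∀ i, i = f (vert (nf x).g) ∨ i = f (vert ((nf x).g * gen L v)) := fun i => by
    obtain ⟨y, a, rfl⟩ := h i
    exact two_values hf hv a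
  have h0 := key 0
  have h1 := key 1
  have h2 := key 2
  omega

theorem not_pieces_two {v u : V} (hv : (nf x).t v ≠ 0) (huv : L.Adj u v) : ¬Pieces x 2 := by
  rintro ⟨f, hf, h⟩
  have ne : ∀ s : V, (nf x).g * gen L s ≠ (nf x).g := fun s => (adj_mul_gen _ s).ne'
  have e : f (vert (nf x).g) = f (vert ((nf x).g * gen L v)) := by
    rw [edge_const hf hv _ u fun h => huv.ne h.2, edge_const hf hv _ v fun h => ne u h.1,
      edge_const hf hv ((nf x).g * gen L v) u fun h => huv.ne h.2, mul_assoc, mul_assoc,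
      gen_comm huv]
  have key : ∀ i, i = f (vert (nf x).g) := fun i => by
    obtain ⟨y, a, rfl⟩ := h i
    exact (two_values hf hv a).elim id fun h => h.trans e.symm
  have h0 := key 0
  have h1 := key 1
  omega

end NonVertex

theorem cube_colour {n : ℕ} {w : RAAG L} {c : RAAG L → Fin n}
    (hc : ∀ a b, (cayley L).Adj a b → a ≠ w → b ≠ w → c a = c b) (g : RAAG L) {s : Set V}
    (hs : L.IsClique s) (k : ℕ) : ∀ S T : Finset V, ↑S ⊆ s → ↑T ⊆ s →
      Nat.card {v // ¬(v ∈ S ↔ v ∈ T)} = k → g * mono L S ≠ w → g * mono L T ≠ w →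
      c (g * mono L S) = c (g * mono L T) := by
  classical
  have flip : ∀ (S T : Finset V) (u : V), ↑S ⊆ s → ↑T ⊆ s → ¬(u ∈ S ↔ u ∈ T) → ∃ S' : Finset V,
      ↑S' ⊆ s ∧ (cayley L).Adj (g * mono L S) (g * mono L S') ∧
        ∀ v, v ∈ S' ↔ if v = u then v ∈ T else v ∈ S := fun S T u hS hT hu => by
    by_cases h : u ∈ S
    · refine ⟨S.erase u, (Finset.coe_subset.2 (Finset.erase_subset _ _)).trans hS, ?_, fun v => ?_⟩
      · conv_lhs => rw [← Finset.insert_erase h, mono_insert' hs (hS h)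
          ((Finset.coe_subset.2 (Finset.erase_subset _ _)).trans hS) (Finset.notMem_erase _ _),
          ← mul_assoc]
        exact (adj_mul_gen _ _).symm
      · split_ifs with e
        · subst e; simpa [h] using hu
        · simp [e]
    · have h' : u ∈ T := by_contra fun h' => hu (iff_of_false h h')
      refine ⟨insert u S, by rw [Finset.coe_insert]; exact insert_subset (hT h') hS, ?_, fun v => ?_⟩
      · rw [mono_insert' hs (hT h') hS h, ← mul_assoc]
        exact adj_mul_gen _ _
      · split_ifs with e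
        · subst e; simp [h']
        · simp [e]
  induction k with
  | zero =>
    intro S T _ _ h _ _
    have : S = T := Finset.ext fun v => by_contra fun hv =>
      (Nat.card_pos_iff.2 ⟨⟨⟨v, hv⟩⟩, inferInstance⟩).ne' h
    rw [this]
  | succ k ih =>
    intro S T hS hT h h1 h2
    have step : ∀ u, ¬(u ∈ S ↔ u ∈ T) → ∀ S' : Finset V,
        (∀ v, v ∈ S' ↔ if v = u then v ∈ T else v ∈ S) →
        Nat.card {v // ¬(v ∈ S' ↔ v ∈ T)} = k := fun u hu S' hS' => by
      rw [Nat.card_eq_fintype_card, Fintype.card_subtype] at h ⊢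
      have : (Finset.univ.filter fun v => ¬(v ∈ S' ↔ v ∈ T)) =
          (Finset.univ.filter fun v => ¬(v ∈ S ↔ v ∈ T)).erase u := by
        ext v
        by_cases e : v = u <;> simp [hS', e]
      rw [this, Finset.card_erase_of_mem (by simpa using hu), h]
      rfl
    obtain ⟨⟨u, hu⟩⟩ := (Nat.card_pos_iff.1 ((Nat.succ_pos k).trans_eq h.symm)).1
    obtain ⟨S1, a1, b1, c1⟩ := flip S T u hS hT hu
    by_cases e1 : g * mono L S1 = w
    · have : ∃ u', ¬(u' ∈ S1 ↔ u' ∈ T) := by
        by_contra hn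
        push Not at hn
        exact h2 (Finset.ext hn ▸ e1)
      obtain ⟨u', hu'⟩ := this
      have huu : u' ≠ u := by rintro rfl; exact hu' (by simpa using c1 u')
      have hu2 : ¬(u' ∈ S ↔ u' ∈ T) := by simpa [c1, huu] using hu'
      obtain ⟨S2, a2, b2, c2⟩ := flip S T u' hS hT hu2
      have e2 : g * mono L S2 ≠ w := fun e2 => by
        have := mono_inj (mul_left_cancel (e1.trans e2.symm))
        have d1 := c1 u
        have d2 := c2 u
        rw [if_pos rfl, this] at d1
        rw [if_neg huu.symm] at d2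
        exact hu (d2.symm.trans d1)
      exact (hc _ _ b2 h1 e2).trans (ih S2 T a2 hT (step u' hu2 S2 c2) e2 h2)
    · exact (hc _ _ b1 h1 e1).trans (ih S1 T a1 hT (step u hu S1 c1) e1 h2)

theorem continuous_tD (a : RAAG L) : Continuous fun y : Salvetti L => tD sn a (nf y) :=
  (LipschitzWith.of_dist_le_mul (K := 1) fun y z => by
    simpa [dist_nf, Real.dist_eq] using tD_lip gauge_sn a (nf y) (nf z)).continuous

theorem tD_corner {p : CubePt L} (hp : Nf p) (S : Finset V) (hS : ∀ v ∈ S, p.t v ≠ 0) :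
    tD sn (p.g * mono L S) p < 1 := by
  rw [tD_eq rfl]
  refine (min_le_right _ _).trans_lt ((pi_norm_lt_iff zero_lt_one).2 fun v => ?_)
  change |p.t v - ind S v| < 1
  have := hp v
  have := (p.mem v).1
  rw [ind_apply, abs_lt]
  split_ifs with h
  · have := lt_of_le_of_ne this (hS v h).symm
    constructor <;> linarith
  · constructor <;> linarith

theorem pieces_vert {n : ℕ} {w : RAAG L} {c : RAAG L → Fin n}
    (hc : ∀ a b, (cayley L).Adj a b → a ≠ w → b ≠ w → c a = c b)
    (hs : ∀ i, ∃ a, a ≠ w ∧ c a = i) : Pieces (vert w) n := by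
  classical
  have h1 : ∀ y : Salvetti L, ∃ a, y ≠ vert w → a ≠ w ∧ tD sn a (nf y) < 1 := fun y => by
    by_cases e : (nf y).g = w
    · set S := Finset.univ.filter fun u => (nf y).t u ≠ 0 with hS
      refine ⟨_, fun hy => ⟨fun h => hy ?_,
        tD_corner (nf_nf y) S fun u hu => (Finset.mem_filter.1 hu).2⟩⟩
      have : S = ∅ := mono_inj (L := L) (by
        rw [mono_empty]; exact mul_left_cancel (h.trans (e.symm.trans (mul_one _).symm)))
      rw [← mk_nf y]
      refine congrArg mk (CubePt.ext' e ?_)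
      ext u
      by_contra hu
      exact Finset.notMem_empty u (this ▸ Finset.mem_filter.2 ⟨Finset.mem_univ _, hu⟩)
    · refine ⟨(nf y).g, fun _ => ⟨e, ?_⟩⟩
      simpa [mono_empty] using tD_corner (nf_nf y) ∅ (by simp)
  choose A hA using h1
  have h2 : ∀ y a, y ≠ vert w → a ≠ w → tD sn a (nf y) < 1 → c (A y) = c a := fun y a hy ha h => by
    obtain ⟨b1, b2⟩ := hA y hy
    obtain ⟨S, d1, d2⟩ := tD_lt b2
    obtain ⟨T, e1, e2⟩ := tD_lt h
    rw [← d1, ← e1]
    exact cube_colour hc _ (nf y).clique _ S T (fun v => (gauge_sn.supp (d2 ▸ b2) v).1)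
      (fun v => (gauge_sn.supp (e2 ▸ h) v).1) rfl (d1 ▸ b1) (e1 ▸ ha)
  refine ⟨fun y => c (A y), fun y hy => ?_, fun i => ?_⟩
  · refine (continuousWithinAt_const (b := c (A y))).congr_of_eventuallyEq ?_ rfl
    filter_upwards [self_mem_nhdsWithin, mem_nhdsWithin_of_mem_nhds
      ((isOpen_lt (continuous_tD (A y)) continuous_const).mem_nhds (hA y hy).2)] with z h1 h3
    exact h2 z _ h1 (hA y hy).1 h3
  · obtain ⟨a, ha, rfl⟩ := hs i
    have : vert a ≠ vert w := fun h => ha (vert_inj h)
    refine ⟨vert a, this, h2 _ _ this ha ?_⟩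
    rw [nf_vert]
    simpa [mono_empty, vtx] using tD_corner (nf_vtx a) ∅ (by simp)

end Pool.Agent.Lib.MP_d2fa5a_al
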