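import Pool.Agent.Lib.MP_d2fa5a_al.Cube3
import Pool.Agent.Lib.MP_d2fa5a_al.Bridge

/-! The isometry group of the cube complex embeds cocompactly into the automorphism group of the
Cayley graph. -/

set_option autoImplicit false
set_option linter.unusedSectionVars false

open Set SeparationQuotient unitInterval Topology Filter

namespace Pool.Agent.Lib.MP_d2fa5a_al

variable {V : Type} [Fintype V] {L : SimpleGraph V}

theorem pieces_two (hL : ¬ L.Preconnected) (w : RAAG L) : Pieces (vert w) 2 := by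
  classical
  obtain ⟨c, a, b, hc, ha, hb⟩ := exists_coloring hL
  obtain ⟨O, hO, hdisj, hmem⟩ := exists_sides hc
  refine pieces_vert (c := fun x => if x ∈ O w true then 0 else 1) (fun x y hxy hx hy => ?_) ?_
  · have : x ∈ O w true ↔ y ∈ O w true := ⟨fun h => ((hO w true).2 x h y hxy).resolve_right hy,
      fun h => ((hO w true).2 y h x hxy.symm).resolve_right hx⟩
    simp only [this]
  · refine Fin.forall_fin_two.2 ⟨⟨w * gen L a, (adj_mul_gen _ _).ne', if_pos ?_⟩,
      ⟨w * gen L b, (adj_mul_gen _ _).ne', if_neg fun h => hdisj w _ h ?_⟩⟩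
    · simpa [ha] using hmem w a 1 one_ne_zero
    · simpa [hb] using hmem w b 1 one_ne_zero

theorem pieces_three {a b : V} (hab : b ≠ a) (ha : ∀ u, ¬L.Adj u a) (w : RAAG L) :
    Pieces (vert w) 3 := by
  classical
  have hlk : ∀ h : RAAG L, h ∈ lk L a ↔ h = 1 := fun h => by
    have : L.neighborSet a = ∅ := eq_empty_of_forall_notMem fun u hu => ha u (L.adj_symm hu)
    rw [lk, this, image_empty, Subgroup.closure_empty, Subgroup.mem_bot]
  have hb : ∀ z x u, beta L a (z⁻¹ * (x * gen L u)) =
      beta L a (z⁻¹ * x) + if u = a ∧ x = z then 1 else 0 := fun z x u => by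
    rw [← mul_assoc, beta_mul]
    simp only [hlk, inv_mul_eq_one, eq_comm (a := z)]
  set z := w * (gen L a)⁻¹ with hz
  have hzw : z * gen L a = w := inv_mul_cancel_right _ _
  have hne : w ≠ z := fun h => (adj_mul_gen z a).ne (h.symm.trans hzw.symm)
  have h1 : beta L a (z⁻¹ * w) = 1 := by
    rw [← hzw, hb, inv_mul_cancel, beta_one, if_pos ⟨rfl, rfl⟩, zero_add]
  let c : RAAG L → Fin 3 := fun x =>
    if beta L a (w⁻¹ * x) ≠ 0 then 0 else if beta L a (z⁻¹ * x) ≠ 1 then 1 else 2
  have key : ∀ x u, x ≠ w → x * gen L u ≠ w → c x = c (x * gen L u) := fun x u hx hy => by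
    simp only [c]
    rw [hb, hb, if_neg (c := u = a ∧ x = w) fun h => hx h.2,
      if_neg (c := u = a ∧ x = z) fun h => hy (by rw [h.1, h.2, hzw]), add_zero, add_zero]
  refine pieces_vert (c := c) (fun x y hxy hx hy => ?_) fun i => ?_
  · obtain ⟨-, u, rfl | rfl⟩ := (cayley_adj _ _).1 hxy
    exacts [key _ _ hx hy, (key _ _ hy hx).symm]
  · have h2 : beta L a (w⁻¹ * z) = 0 := by
      have := hb w z a
      rw [hzw, inv_mul_cancel, beta_one, if_neg fun h => hne h.2.symm, add_zero] at this
      exact this.symm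
    fin_cases i
    · refine ⟨w * gen L a, (adj_mul_gen _ _).ne', if_pos ?_⟩
      rw [hb, inv_mul_cancel, beta_one, if_pos ⟨rfl, rfl⟩]
      norm_num
    · refine ⟨z, hne.symm, ?_⟩
      simp [c, h2, beta_one]
    · refine ⟨w * gen L b, (adj_mul_gen _ _).ne', ?_⟩
      simp only [c]
      rw [hb, hb, h1, inv_mul_cancel, beta_one]
      simp [hab]

theorem exists_vert_image (hL : ¬ L.Preconnected) (φ : Salvetti L ≃ᵢ Salvetti L) (w : RAAG L) :
    ∃ w', vert w' = φ (vert w) := by
  by_cases h : ∀ v, (nf (φ (vert w))).t v = 0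
  · refine ⟨(nf (φ (vert w))).g, ?_⟩
    conv_rhs => rw [← mk_nf (φ (vert w))]
    exact congrArg mk (CubePt.ext' rfl (by ext v; exact (h v).symm))
  push Not at h
  obtain ⟨v, hv⟩ := h
  by_cases h1 : ∃ a, ∀ u, ¬L.Adj u a
  · obtain ⟨a, ha⟩ := h1
    obtain ⟨c, b1, b2, -, e1, e2⟩ := exists_coloring hL
    have : ∃ b, b ≠ a := by
      by_contra hn
      push Not at hn
      rw [hn b1] at e1
      rw [hn b2, e1] at e2
      exact absurd e2 (by simp)
    obtain ⟨b, hb⟩ := this
    exact absurd ((pieces_three hb ha w).map φ) (not_pieces_three hv)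
  · push Not at h1
    obtain ⟨u, hu⟩ := h1 v
    exact absurd ((pieces_two hL w).map φ) (not_pieces_two hv hu)

theorem tD_vtx {ρ : EuclideanSpace ℝ V → ℝ} (hρ : Gauge ρ) {a b : RAAG L} (h : a ≠ b) :
    tD ρ a (vtx b) = 1 := by
  refine (tD_le_one _ _).eq_of_not_lt fun h1 => h ?_
  obtain ⟨S, h2, h3⟩ := tD_lt h1
  have : S = ∅ := Finset.eq_empty_of_forall_notMem fun v hv => (hρ.supp (h3 ▸ h1) v).1 hv rfl
  rw [← h2, this, mono_empty, mul_one]
  rfl

theorem tD_self (a : RAAG L) : tD (fun x => ‖x‖) a (vtx a) = 0 := by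
  rw [tD_eq (S := ∅) (by rw [mono_empty, mul_one]; rfl), ind_empty]
  simp [vtx]

theorem one_le_dist_vert {a b : RAAG L} (h : a ≠ b) : 1 ≤ dist (vert a) (vert b) := by
  have := tD_lip gauge_norm a (vtx a) (vtx b)
  rw [tD_self, tD_vtx gauge_norm h] at this
  simpa [vert, dist_mk] using this

theorem dist_vert_le {a b : RAAG L} (h : (cayley L).Adj a b) : dist (vert a) (vert b) ≤ 1 := by
  classical
  have key : ∀ (w : RAAG L) (u : V), dist (vert w) (vert (w * gen L u)) ≤ 1 := fun w u => by
    let e : CubePt L := ⟨w, EuclideanSpace.single u 1, fun s => by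
      by_cases h : s = u <;> simp [h], fun a ha b hb hab => by
        have h1 : a = u := by simpa using ha
        have h2 : b = u := by simpa using hb
        exact absurd (h1.trans h2.symm) hab⟩
    have he : mk e = vert (w * gen L u) := mk_eq_iff.2 (dist_glue ⟨u, rfl, by simp [e],
      rfl, fun s hs => by simp [e, vtx, hs]⟩)
    rw [← he, vert, dist_mk]
    refine (dist_le_move (p := vtx w) (q := e) ⟨rfl, by simpa [vtx] using e.clique⟩).trans ?_
    simp [vtx, e]
  obtain ⟨-, u, rfl | rfl⟩ := (cayley_adj _ _).1 h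
  · exact key _ _
  · rw [dist_comm]; exact key _ _

theorem far_corners {g : RAAG L} {s : Set V} (hs : L.IsClique s) {S T : Finset V} (hS : ↑S ⊆ s)
    (hT : ↑T ⊆ s) (h1 : g * mono L S ≠ g * mono L T)
    (h2 : ¬(cayley L).Adj (g * mono L S) (g * mono L T)) : 7 / 5 ≤ dist (ind S) (ind T) := by
  classical
  have a1 : ∃ u, ¬(u ∈ S ↔ u ∈ T) := by
    by_contra hn
    push Not at hn
    exact h1 (by rw [Finset.ext hn])
  obtain ⟨u, hu⟩ := a1
  have a2 : ∃ v, v ≠ u ∧ ¬(v ∈ S ↔ v ∈ T) := by
    by_contra hn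
    push Not at hn
    refine h2 ?_
    by_cases h : u ∈ S
    · have h' : u ∉ T := fun h' => hu (iff_of_true h h')
      have : S = insert u T := Finset.ext fun v => by
        by_cases e : v = u
        · simp [e, h]
        · simp [e, hn v e]
      rw [this, mono_insert' hs (hS h) hT h', ← mul_assoc]
      exact (adj_mul_gen _ _).symm
    · have h' : u ∈ T := by_contra fun h' => hu (iff_of_false h h')
      have : T = insert u S := Finset.ext fun v => by
        by_cases e : v = u
        · simp [e, h']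
        · simp [e, hn v e]
      rw [this, mono_insert' hs (hT h') hS h, ← mul_assoc]
      exact adj_mul_gen _ _
  obtain ⟨v, hvu, hv⟩ := a2
  have a3 : ∀ x, ¬(x ∈ S ↔ x ∈ T) → dist (ind S x) (ind T x) ^ 2 = 1 := fun x hx => by
    rw [ind_apply, ind_apply]
    by_cases b1 : x ∈ S <;> by_cases b2 : x ∈ T <;> simp_all
  rw [EuclideanSpace.dist_eq]
  refine Real.le_sqrt_of_sq_le (le_trans ?_ (Finset.sum_le_sum_of_subset_of_nonneg
    (Finset.subset_univ {v, u}) fun _ _ _ => by positivity))
  rw [Finset.sum_pair hvu, a3 v hv, a3 u hu]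
  norm_num

theorem adj_of_dist {a b : RAAG L} (h : a ≠ b) (hd : dist (vert a) (vert b) ≤ 1) :
    (cayley L).Adj a b := by
  by_contra hn
  let f : CubePt L → ℝ := fun p =>
    min (tD (fun x => ‖x‖) a p) (7 / 10) - min (tD (fun x => ‖x‖) b p) (7 / 10)
  have key : ∀ p q : CubePt L, SameCube p q → f q - f p ≤ dist p.t q.t := fun p q hpq => by
    have c1 := (abs_le.1 (tD_move gauge_norm a hpq.1)).1
    have c2 := (abs_le.1 (tD_move gauge_norm b hpq.1)).2
    have c0 : 0 ≤ dist p.t q.t := dist_nonneg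
    have c3 : tD (fun x => ‖x‖) a p < 7 / 10 → tD (fun x => ‖x‖) b q < 7 / 10 →
        7 / 5 ≤ tD (fun x => ‖x‖) a p + dist p.t q.t + tD (fun x => ‖x‖) b q := fun d1 d2 => by
      have d3 : tD (fun x => ‖x‖) a p < 1 := by linarith
      have d4 : tD (fun x => ‖x‖) b q < 1 := by linarith
      obtain ⟨S, e1, e2⟩ := tD_lt d3
      obtain ⟨T, e3, e4⟩ := tD_lt d4
      rw [← hpq.1] at e3
      have := far_corners hpq.2 (S := S) (T := T)
        (fun v hv => Or.inl ((gauge_norm.supp (e2 ▸ d3) v).1 hv))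
        (fun v hv => Or.inr ((gauge_norm.supp (e4 ▸ d4) v).1 hv))
        (by rw [e1, e3]; exact h) (by rw [e1, e3]; exact hn)
      rw [e2, e4, ← dist_eq_norm, ← dist_eq_norm, dist_comm p.t (ind S)]
      exact this.trans (dist_triangle4 _ _ _ _)
    simp only [f, min_def]
    split_ifs <;> first | linarith | (by_contra; linarith [c3 (by linarith) (by linarith)])
  have := lip f (fun p q hpq => by
    rw [Real.dist_eq, abs_le]
    have h1 := key p q hpq
    have h2 := key q p ⟨hpq.1.symm, union_comm _ _ ▸ hpq.2⟩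
    rw [dist_comm] at h2
    constructor <;> linarith) (fun p q hpq => by
      simp only [f, tD_glue gauge_norm _ hpq]) (vtx a) (vtx b)
  simp only [f, tD_self, tD_vtx gauge_norm h, tD_vtx gauge_norm h.symm, Real.dist_eq] at this
  rw [vert, vert, dist_mk] at hd
  have h3 := this.trans hd
  norm_num at h3

theorem fix_pt (φ : Salvetti L ≃ᵢ Salvetti L) {p : CubePt L} (hp : Nf p)
    (h : ∀ S : Finset V, (∀ v ∈ S, p.t v ≠ 0) →
      φ (vert (p.g * mono L S)) = vert (p.g * mono L S)) : φ (mk p) = mk p := by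
  have hA : SameCube p (vtx p.g) := ⟨rfl, by simpa [vtx] using p.clique⟩
  have hn : ∀ a, Nf (seg hA a) := fun a => by
    by_cases e : a = 1
    · rw [e, seg_one]; exact nf_vtx _
    · exact nf_seg hA hp e
  have key : ∀ a, dist (φ (mk (seg hA a))) (mk (seg hA a)) < 1 / 2 →
      φ (mk (seg hA a)) = mk (seg hA a) := fun a ha => by
    rw [← mk_nf (φ _)]
    refine congrArg mk (rigid_pt (hn a) (nf_nf _) ?_ fun S hS => ?_)
    · rwa [← dist_mk, mk_nf, dist_comm]
    · rw [← dist_mk, mk_nf]
      change dist _ (vert (p.g * mono L S)) ≤ _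
      rw [← h S fun v hv e => hS v hv (by simp [seg_t, e, vtx]), φ.dist_eq, vert, dist_mk]
      exact dist_vtx_le (seg hA a) S hS
  have hc : Continuous fun a => dist (φ (mk (seg hA a))) (mk (seg hA a)) :=
    (φ.continuous.comp (continuous_seg hA)).dist (continuous_seg hA)
  have hcl : IsClopen {a : I | dist (φ (mk (seg hA a))) (mk (seg hA a)) < 1 / 2} := by
    refine ⟨?_, isOpen_lt hc continuous_const⟩
    have : {a : I | dist (φ (mk (seg hA a))) (mk (seg hA a)) < 1 / 2} =
        {a : I | dist (φ (mk (seg hA a))) (mk (seg hA a)) = 0} := by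
      ext a
      exact ⟨fun h => dist_eq_zero.2 (key a h), fun h => lt_of_eq_of_lt h (by norm_num)⟩
    rw [this]
    exact isClosed_eq hc continuous_const
  have h0 := h ∅ (by simp)
  rw [mono_empty, mul_one] at h0
  have h1 := hcl.eq_univ ⟨1, by
    rw [mem_ofPred_eq, seg_one]
    change dist (φ (vert p.g)) (vert p.g) < _
    rw [h0, dist_self]; norm_num⟩
  simpa only [seg_zero] using key 0 (h1 ▸ mem_univ (0 : I) :)

end Pool.Agent.Lib.MP_d2fa5a_al
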