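import Pool.Agent.Lib.MP_d2fa5a_al.Cube4

/-! The action of the isometry group of the cube complex on the vertices. -/

set_option autoImplicit false
set_option linter.unusedSectionVars false

open Set SeparationQuotient Topology Filter

namespace Pool.Agent.Lib.MP_d2fa5a_al

variable {V : Type} [Fintype V] {L : SimpleGraph V}

/-- the underlying isometry -/
def toS (φ : IsomS L) : Salvetti L ≃ᵢ Salvetti L := φ

theorem toS_mul (φ ψ : IsomS L) (x : Salvetti L) : toS (φ * ψ) x = toS φ (toS ψ x) := rfl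

theorem toS_one (x : Salvetti L) : toS (1 : IsomS L) x = x := rfl

/-- the action on vertices -/
noncomputable def vmap (hL : ¬ L.Preconnected) (φ : IsomS L) (w : RAAG L) : RAAG L :=
  (exists_vert_image hL (toS φ) w).choose

theorem vert_vmap (hL : ¬ L.Preconnected) (φ : IsomS L) (w : RAAG L) :
    vert (vmap hL φ w) = toS φ (vert w) := (exists_vert_image hL (toS φ) w).choose_spec

theorem vmap_mul (hL : ¬ L.Preconnected) (φ ψ : IsomS L) (w : RAAG L) :
    vmap hL (φ * ψ) w = vmap hL φ (vmap hL ψ w) :=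
  vert_inj (by rw [vert_vmap, vert_vmap, vert_vmap, toS_mul])

theorem vmap_one (hL : ¬ L.Preconnected) (w : RAAG L) : vmap hL 1 w = w :=
  vert_inj (by rw [vert_vmap, toS_one])

theorem adj_iff_dist {a b : RAAG L} :
    (cayley L).Adj a b ↔ vert a ≠ vert b ∧ dist (vert a) (vert b) ≤ 1 :=
  ⟨fun h => ⟨fun e => h.ne (vert_inj e), dist_vert_le h⟩,
    fun h => adj_of_dist (fun e => h.1 (congrArg vert e)) h.2⟩

/-- the automorphism of the Cayley graph induced by an isometry -/
noncomputable def rhoF (hL : ¬ L.Preconnected) (φ : IsomS L) : SL L :=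
  (⟨⟨vmap hL φ, vmap hL φ⁻¹, fun w => by rw [← vmap_mul, inv_mul_cancel, vmap_one],
    fun w => by rw [← vmap_mul, mul_inv_cancel, vmap_one]⟩, fun {a b} => by
      change (cayley L).Adj (vmap hL φ a) (vmap hL φ b) ↔ _
      rw [adj_iff_dist, adj_iff_dist, vert_vmap, vert_vmap, (toS φ).dist_eq,
        (toS φ).injective.ne_iff]⟩ : cayley L ≃g cayley L)

/-- the restriction homomorphism -/
noncomputable def rho (hL : ¬ L.Preconnected) : IsomS L →* SL L :=
  MonoidHom.mk' (rhoF hL) fun φ ψ => SL.ext (vmap_mul hL φ ψ)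

theorem vert_rho (hL : ¬ L.Preconnected) (φ : IsomS L) (w : RAAG L) :
    vert (rho hL φ • w) = toS φ (vert w) := vert_vmap hL φ w

theorem agree_star (hL : ¬ L.Preconnected) {φ ψ : IsomS L} {a : RAAG L}
    (h : ∀ S T : Finset V, rho hL φ • (a * (mono L S)⁻¹ * mono L T) =
      rho hL ψ • (a * (mono L S)⁻¹ * mono L T)) {y : Salvetti L} (hy : tD sn a (nf y) < 1) :
    toS φ y = toS ψ y := by
  obtain ⟨S, hS, -⟩ := tD_lt hy
  have h1 := fix_pt (toS (ψ⁻¹ * φ)) (nf_nf y) fun T _ => by
    rw [← vert_rho hL, map_mul, mul_smul, eq_mul_inv_of_mul_eq hS, h, map_inv, inv_smul_smul]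
  rw [mk_nf] at h1
  rw [← h1, ← toS_mul ψ, mul_inv_cancel_left, h1]

theorem star_self (y : Salvetti L) : tD sn (nf y).g (nf y) < 1 := by
  simpa [mono_empty] using tD_corner (nf_nf y) ∅ (by simp)

theorem rho_injective (hL : ¬ L.Preconnected) : Function.Injective (rho hL) := fun φ ψ h =>
  IsometryEquiv.ext fun y => agree_star hL (fun _ _ => by rw [h]) (star_self y)

theorem continuous_toS (y : Salvetti L) : Continuous fun φ : IsomS L => toS φ y := by
  have h : Continuous fun φ : IsomS L =>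
      (⟨toS φ, (toS φ).continuous⟩ : C(Salvetti L, Salvetti L)) := continuous_induced_dom
  have h2 := (continuous_eval_const y).comp h
  exact h2

theorem continuous_rho (hL : ¬ L.Preconnected) : Continuous (rho hL) := by
  refine continuous_generateFrom_iff.2 ?_
  rintro _ ⟨x, y, rfl⟩
  have : rho hL ⁻¹' {g : cayley L ≃g cayley L | g x = y} =
      {φ | dist (toS φ (vert x)) (vert y) < 1} := by
    ext φ
    change rho hL φ • x = y ↔ dist (toS φ (vert x)) (vert y) < 1
    rw [← vert_rho hL]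
    exact ⟨fun h => by rw [h, dist_self]; exact zero_lt_one,
      fun h => by_contra fun e => (one_le_dist_vert e).not_gt h⟩
  exact this ▸ isOpen_lt ((continuous_toS _).dist continuous_const) continuous_const

theorem isInducing_rho (hL : ¬ L.Preconnected) : IsInducing (rho hL) := by
  refine ⟨le_antisymm (continuous_iff_le_induced.1 (continuous_rho hL)) ?_⟩
  let t : TopologicalSpace (IsomS L) := TopologicalSpace.induced (rho hL) inferInstance
  refine continuous_iff_le_induced.1 ((ContinuousMap.continuous_compactOpen (X := IsomS L)).2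
    fun K hK U hU => isOpen_iff_mem_nhds.2 fun φ hφ => ?_)
  obtain ⟨s, hs⟩ := hK.elim_finite_subcover (fun a : RAAG L => {y | tD sn a (nf y) < 1})
    (fun a => isOpen_lt (continuous_tD a) continuous_const)
    fun y _ => mem_iUnion.2 ⟨_, star_self y⟩
  have h1 : ∀ x : RAAG L, ∀ᶠ ψ in 𝓝 φ, rho hL ψ • x = rho hL φ • x := fun x =>
    ((isOpen_SL x _).preimage (continuous_induced_dom (f := rho hL))).mem_nhds rfl
  have h2 : ∀ᶠ ψ in 𝓝 φ, ∀ a ∈ s, ∀ S T : Finset V, rho hL ψ • (a * (mono L S)⁻¹ * mono L T) =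
      rho hL φ • (a * (mono L S)⁻¹ * mono L T) :=
    (eventually_all_finset s).2 fun a _ => eventually_all.2 fun S => eventually_all.2 fun T => h1 _
  filter_upwards [h2] with ψ hψ y hy
  obtain ⟨a, ha, hy'⟩ := mem_iUnion₂.1 (hs hy)
  change toS ψ y ∈ U
  rw [agree_star hL (hψ a ha) hy']
  exact hφ hy

/-- left translation of a point -/
def CubePt.tr (g : RAAG L) (p : CubePt L) : CubePt L := ⟨g * p.g, p.t, p.mem, p.clique⟩

theorem Chain.tr (g : RAAG L) {p q : CubePt L} {a : ℝ} (h : Chain p q a) :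
    Chain (p.tr g) (q.tr g) a := by
  have hg : ∀ p q : CubePt L, Glue p q → Glue (p.tr g) (q.tr g) := fun p q ⟨v, h1, h2⟩ =>
    ⟨v, (congrArg (g * ·) h1).trans (mul_assoc _ _ _).symm, h2⟩
  induction h with
  | refl => exact Chain.refl _
  | move h1 _ ih => exact Chain.move (q := CubePt.tr g _) ⟨congrArg (g * ·) h1.1, h1.2⟩ ih
  | glue h1 _ ih => exact Chain.glue (h1.imp (hg _ _) (hg _ _)) ih

theorem tr_tr (g h : RAAG L) (p : CubePt L) : (p.tr h).tr g = p.tr (g * h) :=
  CubePt.ext' (mul_assoc _ _ _).symm rfl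

theorem tr_one (p : CubePt L) : p.tr 1 = p := CubePt.ext' (one_mul _) rfl

theorem isometry_tr (g : RAAG L) : Isometry (CubePt.tr (L := L) g) :=
  Isometry.of_dist_eq fun p q => congrArg sInf (Set.ext fun a => ⟨fun h => by
    have := Chain.tr g⁻¹ h
    rwa [tr_tr, tr_tr, inv_mul_cancel, tr_one, tr_one] at this, Chain.tr g⟩)

theorem exists_rho (hL : ¬ L.Preconnected) (x : RAAG L) : ∃ s, rho hL s • (1 : RAAG L) = x := by
  have h : ∀ (g : RAAG L) (p : CubePt L), SeparationQuotient.map (CubePt.tr g) (mk p) = mk (p.tr g) :=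
    fun g p => SeparationQuotient.map_mk (isometry_tr g).uniformContinuous p
  let s : Salvetti L ≃ᵢ Salvetti L :=
    ⟨⟨SeparationQuotient.map (CubePt.tr x), SeparationQuotient.map (CubePt.tr x⁻¹), fun y => by
      obtain ⟨p, rfl⟩ := surjective_mk y
      rw [h, h, tr_tr, inv_mul_cancel, tr_one], fun y => by
      obtain ⟨p, rfl⟩ := surjective_mk y
      rw [h, h, tr_tr, mul_inv_cancel, tr_one]⟩, Isometry.of_dist_eq fun y z => by
      obtain ⟨p, rfl⟩ := surjective_mk y
      obtain ⟨q, rfl⟩ := surjective_mk z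
      change dist (SeparationQuotient.map _ _) (SeparationQuotient.map _ _) = _
      rw [h, h, dist_mk, dist_mk, (isometry_tr x).dist_eq]⟩
  refine ⟨s, vert_inj ((vert_rho hL s 1).trans ?_)⟩
  exact (h x (vtx 1)).trans (congrArg mk (CubePt.ext' (mul_one x) rfl))

end Pool.Agent.Lib.MP_d2fa5a_al
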