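import Pool.Agent.Lib.MP_d2fa5a_al.Cube5

/-! From uniform lattices in `H × S` to the abstract setting, with a compact abelian factor. -/

set_option autoImplicit false

open Set Filter Topology MulAction
open scoped Pointwise

namespace Pool.Agent.Lib.MP_d2fa5a_al

variable {V : Type} {L : SimpleGraph V}

theorem fg_of_fibred {Γ : Type} [Group Γ] (φ : Γ →* Multiplicative ℤ)
    (hφ : Function.Surjective φ) (hker : φ.ker.FG) : Group.FG Γ := by
  obtain ⟨g, hg⟩ := hφ (Multiplicative.ofAdd 1)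
  obtain ⟨T, hT, hTf⟩ := (Subgroup.fg_iff _).1 hker
  refine Group.fg_iff.2 ⟨insert g T, eq_top_iff.2 fun γ _ => ?_, hTf.insert g⟩
  have h1 : γ * (g ^ (φ γ).toAdd)⁻¹ ∈ Subgroup.closure T := by
    rw [hT, MonoidHom.mem_ker, map_mul, map_inv, map_zpow, hg, ← ofAdd_zsmul]
    simp
  have h2 := Subgroup.mul_mem _ (Subgroup.closure_mono (subset_insert g T) h1)
    (Subgroup.zpow_mem _ (Subgroup.subset_closure (mem_insert g T)) (φ γ).toAdd)
  rwa [inv_mul_cancel_right] at h2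

theorem ne_one_restrict {Γ : Type} [Group Γ] (φ : Γ →* Multiplicative ℤ) (hφ : ∃ γ, φ γ ≠ 1)
    (Γ₁ : Subgroup Γ) [Γ₁.FiniteIndex] : ∃ γ, (φ.comp Γ₁.subtype) γ ≠ 1 := by
  obtain ⟨g, hg⟩ := hφ
  obtain ⟨k, hk, -, h⟩ := Subgroup.exists_pow_mem_of_index_ne_zero
    (Subgroup.FiniteIndex.index_ne_zero (H := Γ₁)) g
  refine ⟨⟨_, h⟩, fun h1 => hg ?_⟩
  have h2 : φ (g ^ k) = 1 := h1
  rw [map_pow] at h2
  have h3 := congrArg Multiplicative.toAdd h2
  rw [toAdd_pow, toAdd_one, smul_eq_zero] at h3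
  exact toAdd_eq_zero.1 (h3.resolve_left hk.ne')

theorem fg_ker_restrict {Γ M : Type} [Group Γ] [Group M] (φ : Γ →* M) (hker : φ.ker.FG)
    (Γ₁ : Subgroup Γ) [Γ₁.FiniteIndex] : (φ.comp Γ₁.subtype).ker.FG := by
  have := (Group.fg_iff_subgroup_fg _).2 hker
  have := Subgroup.fg_of_index_ne_zero (Γ₁.subgroupOf φ.ker)
  exact (Group.fg_iff_subgroup_fg _).1 (Group.fg_of_surjective (G := Γ₁.subgroupOf φ.ker)
    (f := ((φ.ker.subtype.comp (Subgroup.subtype _)).codRestrict Γ₁ fun γ => γ.2).codRestrict _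
      fun γ => γ.1.2) fun γ => ⟨⟨⟨γ.1.1, γ.2⟩, γ.1.2⟩, rfl⟩)

theorem exists_torsionFree {Γ K : Type} [Group Γ] [Group.FG Γ] [CommGroup K] (κ : Γ →* K) :
    ∃ Γ₁ : Subgroup Γ, Γ₁.FiniteIndex ∧ ∀ γ ∈ Γ₁, IsOfFinOrder γ → κ γ = 1 := by
  have hT : (CommGroup.torsion κ.range).FG := by
    have : Module.Finite ℤ (Additive κ.range) := Module.Finite.iff_addGroup_fg.2 inferInstance
    exact (Subgroup.fg_iff_add_fg _).2 ((Submodule.fg_iff_addSubgroup_fg (G := Additive κ.range)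
      (AddSubgroup.toIntSubmodule (Subgroup.toAddSubgroup _))).1 (IsNoetherian.noetherian _))
  have := (Group.fg_iff_subgroup_fg _).2 hT
  have : Finite (CommGroup.torsion κ.range) := CommGroup.finite_of_fg_isMulTorsion _ fun x =>
    Submonoid.isOfFinOrder_coe.1 x.2
  have hm : Nat.card (CommGroup.torsion κ.range) ≠ 0 := Nat.card_pos.ne'
  have := Subgroup.finiteIndex_range_powMonoidHom_of_fg κ.range hm
  refine ⟨(powMonoidHom (Nat.card (CommGroup.torsion κ.range))).range.comap κ.rangeRestrict,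
    ⟨?_⟩, fun γ ⟨a, ha⟩ hγ => ?_⟩
  · rw [Subgroup.index_comap_of_surjective _ κ.rangeRestrict_surjective]
    exact Subgroup.FiniteIndex.index_ne_zero
  · have h1 : IsOfFinOrder a := IsOfFinOrder.of_pow (by
      have := κ.rangeRestrict.isOfFinOrder hγ
      rwa [← ha] at this) hm
    have h2 := congrArg Subtype.val (pow_card_eq_one' (x := (⟨a, h1⟩ : CommGroup.torsion κ.range)))
    exact congrArg Subtype.val (ha.symm.trans h2)

theorem reducible_of_fibred' [Finite V] (hL : ¬ L.Preconnected) {n : ℕ} {G : Type} [Group G]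
    [TopologicalSpace G] [IsTopologicalGroup G] [T2Space G] [LocallyCompactSpace G]
    [SecondCountableTopology G]
    (hG : ∀ Δ : Subgroup G, Selberg (Δ : Set G) → ∃ a b, SplitData Δ a b)
    {K : Type} [CommGroup K] [TopologicalSpace K] [CompactSpace K] [T2Space K]
    {H : Type} [Group H] [TopologicalSpace H] [IsTopologicalGroup H] (H' : Subgroup H)
    (ho : IsOpen (H' : Set H)) [H'.FiniteIndex] (e : H' ≃ₜ* K × (IsomE n × G))
    {S : Type} [Group S] [TopologicalSpace S] (ρ : S →* SL L) (hρ : IsInducing ρ)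
    (hinj : Function.Injective ρ) (htr : ∀ x, ∃ s, ρ s • (1 : RAAG L) = x)
    (Γ : Subgroup (H × S)) [DiscreteTopology Γ] [CompactSpace ((H × S) ⧸ Γ)]
    (φ : Γ →* Multiplicative ℤ) (hφ : Function.Surjective φ) (hker : φ.ker.FG) :
    ∃ Γ' : Subgroup Γ, Γ'.FiniteIndex ∧ ∃ (A B : Type) (_ : Group A) (_ : Group B),
      Infinite A ∧ Infinite B ∧ Nonempty (Γ' ≃* A × B) := by
  have := hρ.topologicalGroup ρ
  have := fg_of_fibred φ hφ hker
  let Γ₁ : Subgroup Γ := H'.comap ((MonoidHom.fst _ _).comp Γ.subtype)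
  have : Γ₁.FiniteIndex := ⟨by
    rw [Subgroup.index_comap]; exact Subgroup.FiniteIndex.index_ne_zero (H := H'.subgroupOf _)⟩
  have := Subgroup.fg_of_index_ne_zero Γ₁
  let p₀ : Γ₁ →* H' := (((MonoidHom.fst _ _).comp Γ.subtype).comp Γ₁.subtype).codRestrict H'
    fun γ => γ.2
  let p₁ : Γ₁ →* K × (IsomE n × G) := e.toMulEquiv.toMonoidHom.comp p₀
  let p : Γ₁ →* IsomE n × G := (MonoidHom.snd _ _).comp p₁
  let _ : MulAction Γ₁ (RAAG L) :=
    MulAction.compHom _ (ρ.comp (((MonoidHom.snd _ _).comp Γ.subtype).comp Γ₁.subtype))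
  have hsm : ∀ (γ : Γ₁) (x : RAAG L), γ • x = ρ γ.1.1.2 • x := fun _ _ => rfl
  have hact : ActsOn Γ₁ (cayley L) := fun γ => actsOn_SL (ρ γ.1.1.2)
  have : T2Space H' := e.toHomeomorph.isEmbedding.t2Space
  have : LocallyCompactSpace H' := e.toHomeomorph.isClosedEmbedding.locallyCompactSpace
  have : T2Space H := IsTopologicalGroup.t2Space_iff_one_closed.2 (by
    have := (H'.isClosed_of_isOpen ho).isClosedEmbedding_subtypeVal.isClosedMap {1}
      isClosed_singleton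
    rwa [image_singleton] at this)
  have := infinite_raag hL
  let j : H × S →* H × SL L := (MonoidHom.id H).prodMap ρ
  have hj : IsEmbedding j := IsEmbedding.id.prodMap ⟨hρ, hinj⟩
  have : DiscreteTopology (Γ.map j) := isDiscrete_iff_discreteTopology.1
    (IsDiscrete.image (isDiscrete_iff_discreteTopology.2 ‹DiscreteTopology Γ›) hj.isInducing)
  have hprop : ∀ C, IsCompact C → ∀ x y : RAAG L, {γ : Γ₁ | p γ ∈ C ∧ γ • x = y}.Finite := by
    intro C hC x y
    have h1 := finite_inter_of_discrete (Γ.map j) (((isCompact_univ.prod hC).image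
      (continuous_subtype_val.comp e.symm.continuous)).prod (isCompact_SL x y))
    refine (h1.preimage (f := fun γ : Γ₁ => j γ.1.1) (hj.injective.comp
      (Subtype.val_injective.comp Subtype.val_injective)).injOn).subset fun γ hγ => ?_
    exact ⟨⟨⟨p₁ γ, ⟨mem_univ _, hγ.1⟩, congrArg Subtype.val (e.symm_apply_apply (p₀ γ))⟩, hγ.2⟩,
      _, γ.1.2, rfl⟩
  have hco : ∃ C, IsCompact C ∧ ∃ B : Set (RAAG L), B.Finite ∧
      ∀ h x, ∃ γ : Γ₁, (p γ)⁻¹ * h ∈ C ∧ γ⁻¹ • x ∈ B := by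
    have hcl : IsClosed ((QuotientGroup.mk : H × S → (H × S) ⧸ Γ) '' {u | u.1 ∈ H'}) := by
      rw [← (QuotientGroup.isQuotientMap_mk Γ).isClosed_preimage, ← isOpen_compl_iff,
        isOpen_iff_mem_nhds]
      intro x hx
      filter_upwards [(ho.preimage (by fun_prop : Continuous fun y : H × S =>
        (y * x⁻¹).1)).mem_nhds (by simp)] with y hy ⟨u, hu, h⟩
      refine hx ⟨(y * x⁻¹)⁻¹ * u, H'.mul_mem (H'.inv_mem hy) hu, ?_⟩
      rw [QuotientGroup.eq] at h ⊢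
      simpa [mul_assoc] using h
    choose N hN hN' using fun h : H' => exists_compact_mem_nhds h
    obtain ⟨t, ht⟩ := hcl.isCompact.elim_finite_subcover
      (fun i : H' × RAAG L => (QuotientGroup.mk : H × S → (H × S) ⧸ Γ) ''
        ((Subtype.val '' interior (N i.1)) ×ˢ {g | ρ g • i.2 = 1}))
      (fun i => QuotientGroup.isOpenMap_coe _
        ((ho.isOpenMap_subtype_val _ isOpen_interior).prod
          ((isOpen_SL _ _).preimage hρ.continuous))) (by
        rintro _ ⟨u, hu, rfl⟩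
        exact mem_iUnion.2 ⟨(⟨u.1, hu⟩, (ρ u.2)⁻¹ • 1), u,
          ⟨⟨_, mem_interior_iff_mem_nhds.2 (hN' _), rfl⟩, smul_inv_smul _ _⟩, rfl⟩)
    refine ⟨_, t.isCompact_biUnion fun i _ =>
      ((hN i.1).image (continuous_snd.comp e.continuous)).inv, _,
      t.finite_toSet.image Prod.snd, fun h x => ?_⟩
    obtain ⟨s, hs⟩ := htr x
    obtain ⟨i, hi, ⟨_, g⟩, ⟨⟨u, hu, rfl⟩, hg⟩, h1⟩ := mem_iUnion₂.1
      (ht ⟨((e.symm (1, h) : H), s)⁻¹, inv_mem (e.symm (1, h)).2, rfl⟩)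
    rw [eq_comm, QuotientGroup.eq, inv_inv] at h1
    refine ⟨⟨⟨_, h1⟩, mul_mem (e.symm (1, h)).2 u.2⟩,
      mem_biUnion hi ⟨u, interior_subset hu, ?_⟩, i, hi, ?_⟩
    · change (e u).2 = ((e (e.symm (1, h) * u)).2⁻¹ * h)⁻¹
      simp
    · rw [eq_inv_smul_iff]
      change ρ (s * g) • i.2 = x
      rw [map_mul, mul_smul, show ρ g • i.2 = 1 from hg, hs]
  obtain ⟨Γ₂, _, hΓ₂⟩ := exists_torsionFree ((MonoidHom.fst _ _).comp p₁)
  have hact₂ : ActsOn Γ₂ (cayley L) := fun γ => hact γ.1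
  have hred : Reducible Γ₂ := by
    refine Setting.reducible (p := p.comp Γ₂.subtype) (Y := cayley L)
      ⟨hact₂, cayley_preconnected, cayley_locFin, fun γ h1 h2 => ?_, fun C hC x y => ?_, ?_⟩
      (threeBranches hL) (fun γ D hD => rigid hL hact₂ γ hD) hG
      ((φ.comp Γ₁.subtype).comp Γ₂.subtype)
      (ne_one_restrict _ (ne_one_restrict _ ?_ _) _) (fg_ker_restrict _ (fg_ker_restrict _ hker _) _)
    · have h3 : IsOfFinOrder γ.1 := finite_powers.1 ((hprop {1} isCompact_singleton 1 1).subset (by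
        rintro _ ⟨k, rfl⟩
        exact ⟨(map_pow p _ _).trans (by rw [show p γ.1 = 1 from h1, one_pow]),
          (stabilizer Γ₁ (1 : RAAG L)).pow_mem (h2 1) k⟩))
      have h4 : e (p₀ γ.1) = 1 := Prod.ext (hΓ₂ _ γ.2 h3) h1
      exact Subtype.ext (Subtype.ext (Subtype.ext (Prod.ext
        (congrArg Subtype.val (e.injective (h4.trans (map_one e).symm)))
        (hinj ((SL.ext h2).trans (map_one ρ).symm)))))
    · exact (hprop C hC x y).preimage (f := fun γ : Γ₂ => γ.1) Subtype.val_injective.injOn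
    · obtain ⟨C, hC, B, hB, h⟩ := hco
      obtain ⟨R, hR, hcov⟩ := exists_cover Γ₂
      refine ⟨_, hR.isCompact_biUnion fun r _ => hC.image
        (f := fun c => (p r)⁻¹ * c) (by fun_prop), _,
        hR.biUnion fun r _ => hB.image fun b => r⁻¹ • b, fun g x => ?_⟩
      obtain ⟨γ, h1, h2⟩ := h g x
      obtain ⟨r, hr, h3⟩ := hcov γ⁻¹
      refine ⟨⟨_, h3⟩⁻¹, mem_biUnion hr ⟨_, h1, ?_⟩, mem_biUnion hr ⟨_, h2, ?_⟩⟩
      · simp [mul_assoc]
      · rw [inv_inv]
        exact (mul_smul _ _ _).symm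
    · obtain ⟨g, hg⟩ := hφ (Multiplicative.ofAdd 1)
      exact ⟨g, by rw [hg]; decide⟩
  obtain ⟨Γ', _, A, B, _, _, hA, hB, ⟨f⟩⟩ := Reducible.prod Γ₂ hred
  refine ⟨Γ'.map Γ₁.subtype, ⟨?_⟩, A, B, inferInstance, inferInstance, hA, hB,
    ⟨(Γ'.equivMapOfInjective _ Γ₁.subtype_injective).symm.trans f⟩⟩
  rw [Subgroup.index_map_subtype]
  exact mul_ne_zero Subgroup.FiniteIndex.index_ne_zero Subgroup.FiniteIndex.index_ne_zero

end Pool.Agent.Lib.MP_d2fa5a_al
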