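import Pool.Agent.Lib.MP_d2fa5a_al.Raag

/-!
The universal cover of the Salvetti complex as a piecewise Euclidean cube complex, and its
isometry group.
-/

set_option autoImplicit false

namespace Pool.Agent.Lib.MP_d2fa5a_al

variable {V : Type} [Fintype V] {L : SimpleGraph V}

/-- A point of a closed cube `g · [0,1]^σ`, with `g` in `A_L` and `σ` a simplex of `L` (or empty):
the base vertex `g` and coordinates `t` in `[0,1]^V` whose support spans a simplex. -/
structure CubePt (L : SimpleGraph V) where
  g : RAAG L
  t : EuclideanSpace ℝ V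
  mem : ∀ v, t v ∈ Set.Icc (0 : ℝ) 1
  clique : L.IsClique {v | t v ≠ 0}

/-- `p` and `q` lie in one cube `g · [0,1]^σ`. -/
def SameCube (p q : CubePt L) : Prop :=
  p.g = q.g ∧ L.IsClique ({v | p.t v ≠ 0} ∪ {v | q.t v ≠ 0})

/-- Gluing: the face `t v = 1` of the cube at `g` is the face `t v = 0` of the cube at `g v`. -/
def Glue (p q : CubePt L) : Prop :=
  ∃ v, q.g = p.g * gen L v ∧ p.t v = 1 ∧ q.t v = 0 ∧ ∀ u, u ≠ v → q.t u = p.t u

/-- Chains of straight segments inside cubes, with their total Euclidean length. -/
inductive Chain : CubePt L → CubePt L → ℝ → Prop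
  | refl (p : CubePt L) : Chain p p 0
  | move {p q r : CubePt L} {a : ℝ} : SameCube p q → Chain q r a → Chain p r (dist p.t q.t + a)
  | glue {p q r : CubePt L} {a : ℝ} : Glue p q ∨ Glue q p → Chain q r a → Chain p r a

namespace Chain

theorem nonneg {p q : CubePt L} {a : ℝ} (h : Chain p q a) : 0 ≤ a := by
  induction h with
  | refl => exact le_rfl
  | move _ _ ih => exact add_nonneg dist_nonneg ih
  | glue _ _ ih => exact ih

theorem trans {p q r : CubePt L} {a b : ℝ} (h : Chain p q a) (h' : Chain q r b) :
    Chain p r (a + b) := by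
  induction h with
  | refl => rwa [zero_add]
  | move h1 _ ih => rw [add_assoc]; exact move h1 (ih h')
  | glue h1 _ ih => exact glue h1 (ih h')

theorem symm {p q : CubePt L} {a : ℝ} (h : Chain p q a) : Chain q p a := by
  induction h with
  | refl => exact refl _
  | move h1 _ ih =>
    have := ih.trans (move ⟨h1.1.symm, Set.union_comm _ _ ▸ h1.2⟩ (refl _))
    rwa [add_zero, add_comm, dist_comm] at this
  | glue h1 _ ih => simpa using ih.trans (glue h1.symm (refl _))

end Chain

/-- The vertex `g`. -/
def vtx (g : RAAG L) : CubePt L := ⟨g, 0, fun _ => ⟨le_rfl, zero_le_one⟩, by simp⟩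

theorem exists_chain (p q : CubePt L) : ∃ a, Chain p q a := by
  classical
  have h1 : ∀ p : CubePt L, ∃ a, Chain p (vtx p.g) a := fun p =>
    ⟨_, Chain.move (q := vtx p.g) ⟨rfl, by simpa [vtx] using p.clique⟩ (Chain.refl _)⟩
  let H : Subgroup (RAAG L) :=
    { carrier := {g | ∀ x, ∃ a, Chain (vtx x) (vtx (x * g)) a}
      one_mem' := fun x => ⟨0, by rw [mul_one]; exact Chain.refl _⟩
      mul_mem' := fun {a b} ha hb x => by
        obtain ⟨c, hc⟩ := ha x
        obtain ⟨d, hd⟩ := hb (x * a)
        exact ⟨_, mul_assoc x a b ▸ hc.trans hd⟩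
      inv_mem' := fun {a} ha x => by
        obtain ⟨c, hc⟩ := ha (x * a⁻¹)
        rw [inv_mul_cancel_right] at hc
        exact ⟨c, hc.symm⟩ }
  have h2 : p.g⁻¹ * q.g ∈ H := PresentedGroup.generated_by _ H (fun v x => by
    let e : CubePt L := ⟨x, EuclideanSpace.single v 1, fun u => by
      by_cases h : u = v <;> simp [h], fun a ha b hb hab => by
        have h1 : a = v := by simpa using ha
        have h2 : b = v := by simpa using hb
        exact absurd (h1.trans h2.symm) hab⟩
    obtain ⟨c, hc⟩ := h1 e
    exact ⟨_, hc.symm.trans (Chain.glue (Or.inl ⟨v, rfl, by simp [e], rfl,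
      fun u hu => by simp [e, vtx, hu]⟩) (Chain.refl _))⟩) _
  obtain ⟨a, ha⟩ := h1 p
  obtain ⟨b, hb⟩ := h1 q
  obtain ⟨c, hc⟩ := h2 p.g
  rw [mul_inv_cancel_left] at hc
  exact ⟨_, (ha.trans hc).trans hb.symm⟩

/-- The intrinsic distance: the infimum of the lengths of chains. -/
noncomputable instance : PseudoMetricSpace (CubePt L) where
  dist p q := sInf {a | Chain p q a}
  dist_self p := le_antisymm (csInf_le ⟨0, fun _ h => h.nonneg⟩ (Chain.refl p))
    (Real.sInf_nonneg fun _ h => h.nonneg)
  dist_comm p q := congrArg sInf (Set.ext fun _ => ⟨Chain.symm, Chain.symm⟩)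
  dist_triangle p q r := by
    rw [← sub_le_iff_le_add]
    refine le_csInf (exists_chain p q) fun a ha => ?_
    rw [sub_le_comm]
    refine le_csInf (exists_chain q r) fun b hb => ?_
    rw [sub_le_iff_le_add']
    exact csInf_le ⟨0, fun _ h => h.nonneg⟩ (Chain.trans ha hb)

/-- The universal cover of the Salvetti complex: the cubes glued along their faces (points at
distance zero are identified), with the piecewise Euclidean metric. -/
abbrev Salvetti (L : SimpleGraph V) : Type := SeparationQuotient (CubePt L)

/-- The group `S_L` of all isometries of the universal cover of the Salvetti complex. -/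
def IsomS (L : SimpleGraph V) : Type := Salvetti L ≃ᵢ Salvetti L

noncomputable instance : Group (IsomS L) := inferInstanceAs (Group (Salvetti L ≃ᵢ Salvetti L))

/-- The topology of uniform convergence on compact sets (the compact-open topology). -/
noncomputable instance : TopologicalSpace (IsomS L) :=
  TopologicalSpace.induced
    (fun g : Salvetti L ≃ᵢ Salvetti L => (⟨g, g.continuous⟩ : C(Salvetti L, Salvetti L)))
    inferInstance

/-- `Γ` is algebraically fibred: some surjection onto `ℤ` has a finitely generated kernel. -/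
def Fibred (Γ : Type) [Group Γ] : Prop :=
  ∃ φ : Γ →* Multiplicative ℤ, Function.Surjective φ ∧ φ.ker.FG

/-- Some finite-index subgroup of `Γ` is a direct product of two infinite groups. -/
def VirtProduct (Γ : Type) [Group Γ] : Prop :=
  ∃ Γ' : Subgroup Γ, Γ'.FiniteIndex ∧ ∃ (A B : Type) (_ : Group A) (_ : Group B),
    Infinite A ∧ Infinite B ∧ Nonempty (Γ' ≃* A × B)

end Pool.Agent.Lib.MP_d2fa5a_al
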