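import Mathlib

/-!
Definitions for the problem on algebraic fibring of lattices in `H × S_L`.
-/

set_option autoImplicit false

namespace Pool.Agent.Lib.MP_d2fa5a_al

/-- The right-angled Artin group `A_L` of the flag complex with 1-skeleton `L`. -/
def RAAG {V : Type} (L : SimpleGraph V) : Type :=
  PresentedGroup {r : FreeGroup V | ∃ u v, L.Adj u v ∧
    r = FreeGroup.of u * FreeGroup.of v * (FreeGroup.of u)⁻¹ * (FreeGroup.of v)⁻¹}

instance {V : Type} (L : SimpleGraph V) : Group (RAAG L) :=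
  inferInstanceAs (Group (PresentedGroup _))

/-- The Cayley graph of `A_L` for the standard generators: the 1-skeleton of the universal cover
of the Salvetti complex. -/
def cayley {V : Type} (L : SimpleGraph V) : SimpleGraph (RAAG L) :=
  SimpleGraph.mulCayley (Set.range fun v : V => (PresentedGroup.of v : RAAG L))

/-- The group `S_L`: automorphisms of the 1-skeleton of the universal cover of the Salvetti
complex. -/
def SL {V : Type} (L : SimpleGraph V) : Type := cayley L ≃g cayley L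

instance {V : Type} (L : SimpleGraph V) : Group (SL L) :=
  inferInstanceAs (Group (cayley L ≃g cayley L))

/-- The topology of pointwise convergence on vertices. -/
instance {V : Type} (L : SimpleGraph V) : TopologicalSpace (SL L) :=
  TopologicalSpace.generateFrom
    {U | ∃ x y : RAAG L, U = {g : cayley L ≃g cayley L | g x = y}}

/-- The isometry group of Euclidean `n`-space. -/
def IsomE (n : ℕ) : Type := EuclideanSpace ℝ (Fin n) ≃ᵢ EuclideanSpace ℝ (Fin n)

noncomputable instance (n : ℕ) : Group (IsomE n) :=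
  inferInstanceAs (Group (EuclideanSpace ℝ (Fin n) ≃ᵢ EuclideanSpace ℝ (Fin n)))

/-- The topology of pointwise convergence. -/
noncomputable instance (n : ℕ) : TopologicalSpace (IsomE n) :=
  TopologicalSpace.induced
    (fun (g : EuclideanSpace ℝ (Fin n) ≃ᵢ EuclideanSpace ℝ (Fin n)) x => g x) inferInstance

/-- The automorphism group of a real Lie algebra. -/
def AutLie (𝔤 : Type) [LieRing 𝔤] [LieAlgebra ℝ 𝔤] : Type := 𝔤 ≃ₗ⁅ℝ⁆ 𝔤

instance (𝔤 : Type) [LieRing 𝔤] [LieAlgebra ℝ 𝔤] : Group (AutLie 𝔤) where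
  mul f g := LieEquiv.trans g f
  one := LieEquiv.refl
  inv f := LieEquiv.symm f
  mul_assoc _ _ _ := rfl
  one_mul _ := rfl
  mul_one _ := rfl
  inv_mul_cancel f := LieEquiv.self_trans_symm f

/-- The usual topology: convergence of all matrix coefficients. -/
instance (𝔤 : Type) [LieRing 𝔤] [LieAlgebra ℝ 𝔤] : TopologicalSpace (AutLie 𝔤) :=
  TopologicalSpace.induced
    (fun (g : 𝔤 ≃ₗ⁅ℝ⁆ 𝔤) (c : 𝔤 × Module.Dual ℝ 𝔤) => c.2 (g c.1)) inferInstance

/-- The identity component of the automorphism group. -/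
def AutLie0 (𝔤 : Type) [LieRing 𝔤] [LieAlgebra ℝ 𝔤] : Subgroup (AutLie 𝔤) :=
  Subgroup.closure (connectedComponent 1)

/-- `(𝔤, θ)` is an effective orthogonal symmetric Lie algebra of noncompact type: `θ` is a Cartan
involution (so `𝔤` is semisimple) and its fixed subalgebra contains no nonzero ideal of `𝔤`. -/
def IsNoncompactType (𝔤 : Type) [LieRing 𝔤] [LieAlgebra ℝ 𝔤] (θ : 𝔤 ≃ₗ⁅ℝ⁆ 𝔤) : Prop :=
  (∀ x, θ (θ x) = x) ∧ (∀ x, x ≠ 0 → killingForm ℝ 𝔤 x (θ x) < 0) ∧
    ∀ I : LieIdeal ℝ 𝔤, (∀ x ∈ I, θ x = x) → I = ⊥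

end Pool.Agent.Lib.MP_d2fa5a_al
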