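import Pool.Agent.Lib.MP_d2fa5a_al.Defs

/-! The isometry group of Euclidean space as a locally compact group. -/

set_option autoImplicit false

open Set Filter Topology

namespace Pool.Agent.Lib.MP_d2fa5a_al

/-- Euclidean space -/
abbrev Euc (n : ℕ) : Type := EuclideanSpace ℝ (Fin n)

variable {n : ℕ}

/-- the underlying isometry -/
def toI (g : IsomE n) : Euc n ≃ᵢ Euc n := g

@[simp] lemma toI_mul (g h : IsomE n) (x : Euc n) : toI (g * h) x = toI g (toI h x) := rfl
@[simp] lemma toI_one (x : Euc n) : toI (1 : IsomE n) x = x := rfl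
@[simp] lemma toI_inv_apply (g : IsomE n) (x : Euc n) : toI g⁻¹ (toI g x) = x := by
  rw [← toI_mul, inv_mul_cancel, toI_one]
@[simp] lemma toI_apply_inv (g : IsomE n) (x : Euc n) : toI g (toI g⁻¹ x) = x := by
  rw [← toI_mul, mul_inv_cancel, toI_one]
lemma IsomE.ext {g h : IsomE n} (e : ∀ x, toI g x = toI h x) : g = h := IsometryEquiv.ext e

lemma isInducing_toI : IsInducing fun (g : IsomE n) x => toI g x := ⟨rfl⟩

lemma continuous_toI (x : Euc n) : Continuous fun g : IsomE n => toI g x :=
  (continuous_apply x).comp isInducing_toI.continuous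

lemma continuous_IsomE {Z : Type*} [TopologicalSpace Z] {f : Z → IsomE n}
    (h : ∀ x, Continuous fun z => toI (f z) x) : Continuous f :=
  isInducing_toI.continuous_iff.2 (continuous_pi h)

lemma Continuous.toI {Z : Type*} [TopologicalSpace Z] {f : Z → IsomE n} {u : Z → Euc n}
    (hf : Continuous f) (hu : Continuous u) : Continuous fun z => toI (f z) (u z) := by
  refine continuous_iff_continuousAt.2 fun z => tendsto_iff_dist_tendsto_zero.2 ?_
  have h1 := tendsto_iff_dist_tendsto_zero.1 (hu.tendsto z)
  have h2 := tendsto_iff_dist_tendsto_zero.1 (((continuous_toI (u z)).comp hf).tendsto z)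
  refine squeeze_zero (fun _ => dist_nonneg) (fun w => ?_) (by simpa using h1.add h2)
  refine (dist_triangle _ (MP_d2fa5a_al.toI (f w) (u z)) _).trans ?_
  rw [IsometryEquiv.dist_eq]

lemma dist_toI_inv (g : IsomE n) (x y : Euc n) : dist (toI g⁻¹ x) y = dist x (toI g y) := by
  rw [← (toI g).dist_eq, toI_apply_inv]

instance : IsTopologicalGroup (IsomE n) where
  continuous_mul := continuous_IsomE fun x =>
    (Continuous.toI continuous_fst ((continuous_toI x).comp continuous_snd) :)
  continuous_inv := continuous_IsomE fun x => continuous_iff_continuousAt.2 fun g => by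
    refine tendsto_iff_dist_tendsto_zero.2 ?_
    simp only [dist_toI_inv]
    have := ((continuous_const (y := x)).dist (continuous_toI (toI g⁻¹ x))).tendsto g
    simpa using this

instance : T2Space (IsomE n) :=
  (IsEmbedding.mk isInducing_toI fun _ _ h => IsomE.ext (congrFun h)).t2Space

instance : SecondCountableTopology (IsomE n) := by
  obtain ⟨D, hD, hd⟩ := TopologicalSpace.exists_countable_dense (Euc n)
  have := hD.to_subtype
  have : IsInducing fun (g : IsomE n) (x : D) => toI g x := by
    refine isInducing_iff_nhds.2 fun g => le_antisymm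
      (tendsto_iff_comap.1 ((continuous_pi fun x : D => continuous_toI x).tendsto g)) ?_
    rw [isInducing_toI.nhds_eq_comap, ← tendsto_iff_comap, tendsto_pi_nhds]
    intro x
    refine Metric.tendsto_nhds.2 fun ε hε => ?_
    obtain ⟨d, hd1, hd2⟩ := hd.exists_dist_lt x (show 0 < ε / 3 by positivity)
    have h1 := Metric.tendsto_nhds.1 (tendsto_pi_nhds.1 (tendsto_comap (f := fun (g : IsomE n)
      (x : D) => toI g x) (x := 𝓝 fun x : D => toI g x)) ⟨d, hd1⟩) (ε / 3) (by positivity)
    filter_upwards [h1] with g' hg'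
    have a1 := dist_triangle4 (toI g' x) (toI g' d) (toI g d) (toI g x)
    rw [IsometryEquiv.dist_eq, IsometryEquiv.dist_eq, dist_comm d x] at a1
    linarith
  exact this.secondCountableTopology

lemma isCompact_ball (r : ℝ) : IsCompact {g : IsomE n | ‖toI g 0‖ ≤ r} := by
  let F : IsomE n → (Euc n → Euc n) × (Euc n → Euc n) := fun g => (toI g, toI g⁻¹)
  have hF : IsInducing F := IsInducing.of_comp
    (isInducing_toI.continuous.prodMk (isInducing_toI.continuous.comp continuous_inv))
    continuous_fst isInducing_toI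
  rw [hF.isCompact_iff]
  have hK := (isCompact_univ_pi fun x : Euc n => isCompact_closedBall (0 : Euc n) (‖x‖ + r))
  refine (hK.prod hK).of_isClosed_subset ?_ ?_
  · have : F '' {g : IsomE n | ‖toI g 0‖ ≤ r} =
        {f | ‖f.1 0‖ ≤ r} ∩ ⋂ x, ⋂ y, {f | dist (f.2 x) y = dist x (f.1 y)} := by
      ext f
      simp only [mem_inter_iff, mem_iInter, mem_ofPred_eq]
      constructor
      · rintro ⟨g, hg, rfl⟩
        exact ⟨hg, fun x y => dist_toI_inv g x y⟩
      · rintro ⟨h1, h2⟩
        have a1 : ∀ y, f.2 (f.1 y) = y := fun y => by rw [← dist_eq_zero, h2, dist_self]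
        have a2 : ∀ x, f.1 (f.2 x) = x := fun x => by
          rw [eq_comm, ← dist_eq_zero, ← h2, dist_self]
        exact ⟨(⟨⟨f.1, f.2, a1, a2⟩, Isometry.of_dist_eq fun x y => by
          change dist (f.1 x) (f.1 y) = _
          rw [← h2, a1]⟩ : Euc n ≃ᵢ Euc n), h1, rfl⟩
    rw [this]
    exact (isClosed_le (by fun_prop) continuous_const).inter
      (isClosed_iInter fun x => isClosed_iInter fun y => isClosed_eq (by fun_prop) (by fun_prop))
  · rintro _ ⟨g, hg, rfl⟩
    have hg' : dist (toI g 0) 0 ≤ r := by simpa using hg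
    constructor
    · intro x _
      have := dist_triangle (toI g x) (toI g 0) 0
      rw [IsometryEquiv.dist_eq, dist_zero_right x] at this
      exact this.trans (by linarith)
    · intro x _
      have := dist_triangle x 0 (toI g 0)
      rw [← dist_toI_inv, dist_zero_right x, dist_comm 0] at this
      exact this.trans (by linarith)

instance : LocallyCompactSpace (IsomE n) :=
  (isCompact_ball 1).locallyCompactSpace_of_mem_nhds_of_group (x := 1)
    (((continuous_toI 0).norm.tendsto 1).eventually_le_const (by simp))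

/-- the linear part -/
noncomputable def rot (g : IsomE n) : Euc n ≃ₗᵢ[ℝ] Euc n := (toI g).toRealLinearIsometryEquiv

lemma toI_eq (g : IsomE n) (x : Euc n) : toI g x = rot g x + toI g 0 := by
  simp [rot, IsometryEquiv.toRealLinearIsometryEquiv_apply]

lemma rot_mul (g h : IsomE n) (x : Euc n) : rot (g * h) x = rot g (rot h x) := by
  have h1 := toI_eq (g * h) x
  rw [toI_mul, toI_mul, toI_eq g, toI_eq g (toI h 0), toI_eq h x, map_add, add_assoc] at h1
  exact (add_right_cancel h1).symm

lemma rot_one (x : Euc n) : rot (1 : IsomE n) x = x := by simpa using (toI_eq 1 x).symm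

/-- translations -/
noncomputable def tr (u : Euc n) : IsomE n := IsometryEquiv.addLeft u

@[simp] lemma toI_tr (u x : Euc n) : toI (tr u) x = u + x := rfl

lemma tr_add (u v : Euc n) : tr (u + v) = tr u * tr v := IsomE.ext fun x => by simp [add_assoc]
lemma tr_zero : tr (0 : Euc n) = 1 := IsomE.ext fun x => by simp
lemma tr_neg (u : Euc n) : tr (-u) = (tr u)⁻¹ := by
  rw [eq_inv_iff_mul_eq_one, ← tr_add, neg_add_cancel, tr_zero]

lemma mul_tr (g : IsomE n) (u : Euc n) : g * tr u = tr (rot g u) * g := IsomE.ext fun x => by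
  simp only [toI_mul, toI_tr]
  rw [toI_eq, toI_eq g x, map_add, add_assoc]

end Pool.Agent.Lib.MP_d2fa5a_al
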