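import Pool.Agent.Lib.MP_d2fa5a_al.Setting
import Pool.Agent.Lib.MP_d2fa5a_al.Isom

/-! The Euclidean factor. -/

set_option autoImplicit false

open Set Filter Topology MulAction
open scoped Pointwise RealInnerProductSpace

namespace Pool.Agent.Lib.MP_d2fa5a_al

variable {n : ℕ} {Γ G W : Type*} [Group Γ] [Group G] [TopologicalSpace G] [IsTopologicalGroup G]
  [MulAction Γ W] {p : Γ →* IsomE n × G} {Y : SimpleGraph W}

lemma exists_int_char {Γ' : Type*} [Group Γ'] [Group.FG Γ'] (χ : Γ' → ℝ)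
    (hχ : ∀ a b, χ (a * b) = χ a + χ b) {z : Γ'} (hz : χ z ≠ 0) :
    ∃ f : Γ' →* Multiplicative ℤ, f z ≠ 1 := by
  let χ' : Γ' →* Multiplicative ℝ := MonoidHom.mk' (fun a => Multiplicative.ofAdd (χ a))
    fun a b => by rw [hχ]; rfl
  obtain ⟨T, hT, hTf⟩ := Group.fg_iff.1 ‹Group.FG Γ'›
  let M : Submodule ℤ ℝ := Submodule.span ℤ (χ '' T)
  have : Module.Finite ℤ M := Module.Finite.span_of_finite ℤ (hTf.image χ)
  have hM : ∀ a, χ a ∈ M := by
    intro a
    have h1 : Subgroup.closure T ≤ (AddSubgroup.toSubgroup M.toAddSubgroup).comap χ' :=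
      (Subgroup.closure_le _).2 fun t ht => Submodule.subset_span ⟨t, ht, rfl⟩
    exact h1 (hT ▸ Subgroup.mem_top a)
  have h2 : (⟨χ z, hM z⟩ : M) ≠ 0 := fun h => hz (congrArg Subtype.val h)
  obtain ⟨f, hf⟩ := not_forall.1 (mt (Module.forall_dual_apply_eq_zero_iff ℤ _).1 h2)
  refine ⟨MonoidHom.mk' (fun a => Multiplicative.ofAdd (f ⟨χ a, hM a⟩)) fun a b => ?_, hf⟩
  rw [← ofAdd_add, ← map_add]
  congr 2
  exact Subtype.ext (hχ a b)

lemma Setting.reducible_of_central [Infinite W] {H : Type*} [Group H] [TopologicalSpace H]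
    [IsTopologicalGroup H] {q : Γ →* H} (S : Setting q Y) (Γ' : Subgroup Γ)
    [Γ'.FiniteIndex] (f : Γ' →* Multiplicative ℤ) (z : Γ') (hz : f z ≠ 1)
    (hc : ∀ a : Γ', z * a = a * z) {v : W} (hv : (z : Γ) • v = v) : Reducible Γ := by
  set m := (f z).toAdd with hm
  have hm0 : m ≠ 0 := hz
  have : NeZero m.natAbs := ⟨by omega⟩
  let g : Γ' →* Multiplicative (ZMod m.natAbs) :=
    (Int.castAddHom (ZMod m.natAbs)).toMultiplicative.comp f
  have hK : (g.ker.map Γ'.subtype).FiniteIndex :=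
    ⟨by rw [Subgroup.index_map_subtype]; exact mul_ne_zero Subgroup.FiniteIndex.index_ne_zero
          Subgroup.FiniteIndex.index_ne_zero⟩
  have hdec : ∀ γ ∈ g.ker.map Γ'.subtype, ∃ b ∈ f.ker.map Γ'.subtype, ∃ k : ℤ,
      γ = b * (z : Γ) ^ k := by
    rintro _ ⟨γ, hγ, rfl⟩
    have h1 : ((f γ).toAdd : ZMod m.natAbs) = 0 := hγ
    rw [ZMod.intCast_zmod_eq_zero_iff_dvd, Int.natCast_natAbs, abs_dvd] at h1
    obtain ⟨k, hk⟩ := h1
    refine ⟨_, ⟨γ * (z ^ k)⁻¹, ?_, rfl⟩, k, by simp⟩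
    refine Multiplicative.toAdd.injective ?_
    simp [hk, ← hm, mul_comm]
  have hinj : ∀ k : ℤ, f (z ^ k) = 1 → k = 0 := by
    intro k hk
    have := congrArg Multiplicative.toAdd hk
    simpa [← hm, hm0] using this
  refine ⟨Subgroup.zpowers (z : Γ), f.ker.map Γ'.subtype, ?_, ?_, ?_, ?_, ?_⟩
  · refine Infinite.of_injective (fun k : ℤ => (⟨(z : Γ) ^ k, k, rfl⟩ : Subgroup.zpowers (z : Γ)))
      fun i j h => ?_
    have h1 : z ^ i = z ^ j := Subtype.ext (by simpa using congrArg Subtype.val h)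
    have := hinj (i - j) (by rw [zpow_sub, h1, mul_inv_cancel, map_one])
    omega
  · by_contra hB
    rw [not_infinite_iff_finite] at hB
    obtain ⟨R, hR, hcov⟩ := exists_cover (g.ker.map Γ'.subtype)
    refine S.infinite_orbit v (((hR.prod (toFinite (f.ker.map Γ'.subtype : Set Γ))).image
      fun x => x.1 • x.2 • v).subset ?_)
    rintro _ ⟨γ, rfl⟩
    obtain ⟨r, hr, h⟩ := hcov γ
    obtain ⟨b, hb, k, e⟩ := hdec _ h
    refine ⟨(r, b), ⟨hr, hb⟩, ?_⟩
    have h1 : (z : Γ) ^ k • v = v := (stabilizer Γ v).zpow_mem hv k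
    simp only
    rw [inv_mul_eq_iff_eq_mul.1 e, mul_smul, mul_smul, h1]
  · rintro _ ⟨k, rfl⟩ _ ⟨b, -, rfl⟩
    exact congrArg Subtype.val ((Commute.zpow_left (hc b) k).eq)
  · rw [eq_bot_iff]
    rintro _ ⟨⟨k, rfl⟩, b, hb, e⟩
    have : b = z ^ k := Subtype.ext e
    rw [this] at hb
    simp [hinj k hb]
  · refine Subgroup.finiteIndex_of_le (H := g.ker.map Γ'.subtype) fun γ hγ => ?_
    obtain ⟨b, hb, k, rfl⟩ := hdec γ hγ
    exact mul_mem (Subgroup.mem_sup_right hb) (Subgroup.mem_sup_left ⟨k, rfl⟩)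

theorem Setting.reducible_of_fixed [T2Space G] [LocallyCompactSpace G] [SecondCountableTopology G]
    [Infinite W] [Group.FG Γ] (S : Setting p Y) (Γ' : Subgroup Γ) [Γ'.FiniteIndex] {e : Euc n}
    (he0 : e ≠ 0) (he : ∀ γ ∈ Γ', rot (p γ).1 e = e) : Reducible Γ := by
  obtain ⟨v⟩ : Nonempty W := inferInstance
  have hfg : Group.FG Γ' := Subgroup.fg_of_index_ne_zero Γ'
  obtain ⟨T, hT, hTf⟩ := Group.fg_iff.1 hfg
  obtain ⟨N, hN, F, hF, hNF⟩ := S.exists_nhds v
  obtain ⟨C, hC, hcov⟩ := S.cocomp_fix Γ'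
    (hF.union ((hTf.prod hF).image fun x => (x.1 : Γ)⁻¹ • x.2)) v
  let τ : ℝ → IsomE n × G := fun j => (tr (j • e), 1)
  have hτ : ∀ j, ∀ γ ∈ Γ', p γ * τ j = τ j * p γ := fun j γ hγ =>
    Prod.ext (by simp [τ, mul_tr, he γ hγ]) (by simp [τ])
  have hτ2 : ∀ i j, τ (i - j) = τ i * (τ j)⁻¹ := fun i j =>
    Prod.ext (by simp [τ, ← tr_neg, ← tr_add, sub_eq_add_neg, add_smul]) (by simp [τ])
  choose l hl hlF hlv hlC using fun j : ℕ => hcov (τ j)
  obtain ⟨a, -, φ, hφ, hlim⟩ := hC.tendsto_subseq hlC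
  have h1 := (hlim.comp (tendsto_add_atTop_nat 1)).inv.mul hlim
  rw [inv_mul_cancel] at h1
  have h2 : ∀ᶠ w in 𝓝 (1 : IsomE n × G), (∀ t ∈ T, w * p t * w⁻¹ * (p t)⁻¹ ∈ N) ∧
      ‖toI w.1 0‖ < ‖e‖ := by
    refine ((eventually_all_finite hTf).2 fun t _ => ?_).and ?_
    · exact (by fun_prop : Continuous fun w : IsomE n × G =>
        w * p t * w⁻¹ * (p t)⁻¹).continuousAt.preimage_mem_nhds (by simpa using hN)
    · exact (((continuous_toI 0).comp continuous_fst).norm.tendsto 1).eventually_lt_const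
        (by simpa using he0)
  obtain ⟨i, hi1, hi2⟩ := (h1.eventually h2).exists
  have hjk : φ i < φ (i + 1) := hφ (by omega)
  simp only [Function.comp] at hi1 hi2
  generalize φ i = j at *
  generalize φ (i + 1) = k at *
  set w := ((p (l k))⁻¹ * τ k)⁻¹ * ((p (l j))⁻¹ * τ j) with hw
  let z : Γ' := ⟨l k * (l j)⁻¹, mul_mem (hl k) (inv_mem (hl j))⟩
  have hz : p z = τ (k - j) * w := by
    have := hτ j z z.2
    have e1 : p z = p (l k) * (p (l j))⁻¹ := by simp [z]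
    have e2 : Commute (τ k) (τ j) :=
      Prod.ext (by simp [τ, ← tr_add, add_comm]) (by simp [τ])
    have e3 : w = (τ k)⁻¹ * τ j * p z := by rw [mul_assoc, ← this, e1, hw]; group
    rw [hτ2, e3, e2.inv_left.eq]; group
  have hzF : ∀ x ∈ F ∪ (fun x : Γ' × W => (x.1 : Γ)⁻¹ • x.2) '' T ×ˢ F, (z : Γ)⁻¹ • x = x := by
    intro x hx
    rw [inv_smul_eq_iff]
    change x = (l k * (l j)⁻¹) • x
    rw [mul_smul, inv_smul_eq_iff.2 (hlF j x hx).symm, hlF k x hx]
  have hcomm : ∀ t ∈ T, z * t = t * z := by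
    intro t ht
    have h3 : (z : Γ) * t * (z : Γ)⁻¹ * (t : Γ)⁻¹ = 1 := by
      refine hNF _ ?_ fun x hx => ?_
      · have h4 := hτ (k - j) _ (z * t * z⁻¹).2
        have h5 : w = (τ (k - j))⁻¹ * p z := by rw [hz]; group
        have h6 : w * p t * w⁻¹ = p (z * t * z⁻¹ : Γ') := by
          rw [h5, ← mul_right_cancel_iff (a := (τ (k - j))⁻¹), ← mul_left_cancel_iff (a := τ (k - j)),
            ← mul_assoc, ← mul_assoc _ (p _), ← h4]
          simp only [Subgroup.coe_mul, map_mul, InvMemClass.coe_inv, map_inv]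
          group
        have := hi1 t ht
        rw [h6] at this
        simpa using this
      · rw [mul_smul, mul_smul, mul_smul, hzF _ (Or.inr ⟨(t, x), ⟨ht, hx⟩, rfl⟩), smul_inv_smul,
          ← eq_inv_smul_iff, hzF _ (Or.inl hx)]
    rw [mul_inv_eq_one, mul_inv_eq_iff_eq_mul] at h3
    exact Subtype.ext h3
  have hcent : ∀ a : Γ', z * a = a * z := by
    intro a
    have h1 : Subgroup.closure T ≤ Subgroup.centralizer {z} :=
      (Subgroup.closure_le _).2 fun t ht => Subgroup.mem_centralizer_singleton_iff.2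
        (hcomm t ht).symm
    exact (Subgroup.mem_centralizer_singleton_iff.1 (h1 (hT ▸ Subgroup.mem_top a))).symm
  obtain ⟨f, hf⟩ := exists_int_char (Γ' := Γ') (fun γ => ⟪e, toI (p γ).1 0⟫) (z := z)
    (fun a b => by
      simp only [Subgroup.coe_mul, map_mul, Prod.fst_mul, toI_mul]
      rw [toI_eq, inner_add_right, add_comm]
      congr 1
      conv_lhs => rw [← he a a.2, LinearIsometryEquiv.inner_map_map])
    (by
      simp only [hz, Prod.fst_mul, toI_mul, τ, toI_tr, inner_add_right, inner_smul_right,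
        real_inner_self_eq_norm_sq]
      have a1 := abs_real_inner_le_norm e (toI w.1 0)
      have a2 : (1 : ℝ) ≤ k - j := by
        have : (j : ℝ) + 1 ≤ k := by exact_mod_cast hjk
        linarith
      have a3 := norm_pos_iff.2 he0
      have a4 := mul_lt_mul_of_pos_left hi2 a3
      have a5 := neg_abs_le ⟪e, toI w.1 0⟫
      nlinarith)
  refine S.reducible_of_central Γ' f z hf hcent (v := v) ?_
  change (l k * (l j)⁻¹) • v = v
  rw [mul_smul, inv_smul_eq_iff.2 (hlv j).symm, hlv k]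

lemma exists_contraction {T : Set Γ} (hT : T.Finite) (hgen : Subgroup.closure T = ⊤)
    (hne : ∀ e : Euc n, (∀ γ, rot (p γ).1 e = e) → e = 0) :
    ∃ θ : ℝ, 0 ≤ θ ∧ θ < 1 ∧ ∀ (R : Euc n ≃ₗᵢ[ℝ] Euc n) u, ∃ δ ∈ insert 1 T,
      ‖u + R (rot (p δ).1 u)‖ ≤ 2 * θ * ‖u‖ := by
  have := hT.fintype
  let L : Euc n →ₗ[ℝ] (T → Euc n) :=
    LinearMap.pi fun t => (rot (p t).1).toLinearEquiv.toLinearMap - LinearMap.id
  have hL : LinearMap.ker L = ⊥ := by
    rw [eq_bot_iff]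
    intro u hu
    refine hne u fun γ => ?_
    have hγ : γ ∈ Subgroup.closure T := hgen ▸ Subgroup.mem_top γ
    induction hγ using Subgroup.closure_induction with
    | mem t ht => exact sub_eq_zero.1 (congrFun (LinearMap.mem_ker.1 hu) ⟨t, ht⟩)
    | one => simp [rot_one]
    | mul a b _ _ ha hb => rw [map_mul, Prod.fst_mul, rot_mul, hb, ha]
    | inv a _ ha =>
      conv_lhs => rw [← ha, ← rot_mul, ← Prod.fst_mul, ← map_mul, inv_mul_cancel]
      simp [rot_one]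
  obtain ⟨K, hK, hLK⟩ := L.exists_antilipschitzWith hL
  set ε : ℝ := min 1 (K⁻¹ : ℝ) with hε
  have hε0 : 0 < ε := lt_min one_pos (inv_pos.2 hK)
  have hε1 : ε ≤ 1 := min_le_left _ _
  refine ⟨1 - ε ^ 2 / 32, by nlinarith, by nlinarith, fun R u => ?_⟩
  have key : ∀ y : Euc n, ‖y‖ = ‖u‖ → ε / 2 * ‖u‖ ≤ ‖u - y‖ →
      ‖u + y‖ ≤ 2 * (1 - ε ^ 2 / 32) * ‖u‖ := by
    intro y hy h
    have h1 := parallelogram_law_with_norm ℝ u y
    rw [hy] at h1
    have h2 := mul_self_le_mul_self (by positivity) h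
    refine abs_le_of_sq_le_sq' ?_ (mul_nonneg (by nlinarith) (norm_nonneg _)) |>.2
    nlinarith [mul_self_nonneg (ε ^ 2 * ‖u‖)]
  by_cases h1 : ε / 2 * ‖u‖ ≤ ‖u - R u‖
  · exact ⟨1, mem_insert _ _, by simpa [rot_one] using key _ (R.norm_map u) h1⟩
  have hu : 0 < ‖u‖ := by
    by_contra h
    exact h1 ((mul_nonpos_of_nonneg_of_nonpos (by positivity) (not_lt.1 h)).trans (norm_nonneg _))
  obtain ⟨t, ht⟩ : ∃ t : T, ε * ‖u‖ ≤ ‖L u t‖ := by
    by_contra h
    push Not at h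
    have h2 := (pi_norm_lt_iff (by positivity)).2 h
    have h3 := hLK.le_mul_norm (map_zero L) u
    have h4 : ε ≤ (K⁻¹ : ℝ) := min_le_right _ _
    have h5 : (0 : ℝ) < K := hK
    have h6 := mul_lt_mul_of_pos_left (h2.trans_le (mul_le_mul_of_nonneg_right h4 hu.le)) h5
    rw [← mul_assoc, mul_inv_cancel₀ h5.ne', one_mul] at h6
    linarith
  refine ⟨t, mem_insert_of_mem _ t.2, key _ (by simp) ?_⟩
  have h2 : ‖L u t‖ = ‖(u - R u) - (u - R (rot (p t).1 u))‖ := by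
    rw [← R.norm_map]
    simp [L]
  have h3 := norm_sub_le (u - R u) (u - R (rot (p t).1 u))
  linarith

theorem bounded_of_no_fixed {T : Set Γ} (hT : T.Finite) (hgen : Subgroup.closure T = ⊤)
    (hne : ∀ e : Euc n, (∀ γ, rot (p γ).1 e = e) → e = 0) {C : Set (IsomE n × G)}
    (hC : IsCompact C) (hcov : ∀ h, ∃ l, (p l)⁻¹ * h ∈ C) {ψ : Γ → ℝ}
    (hadd : ∀ a b, ψ (a * b) = ψ a + ψ b)
    (hψ : ∀ K, IsCompact K → ∃ c, ∀ γ, p γ ∈ K → |ψ γ| ≤ c) (K : Set G) (hK : IsCompact K) :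
    ∃ c, ∀ γ, (p γ).2 ∈ K → |ψ γ| ≤ c := by
  obtain ⟨θ, hθ0, hθ1, hθ⟩ := exists_contraction hT hgen hne
  have h1 : ψ 1 = 0 := by simpa using hadd 1 1
  have hinv : ∀ a, ψ a⁻¹ = -ψ a := fun a => by
    have := hadd a a⁻¹
    rw [mul_inv_cancel, h1] at this
    linarith
  let τ : Euc n → IsomE n × G := fun u => (tr u, 1)
  have hred : ∀ K : Set G, IsCompact K → ∃ c, ∀ γ l, (p γ).2 ∈ K →
      (p l)⁻¹ * τ (toI (p γ).1 0) ∈ C → |ψ γ| ≤ |ψ l| + c := by
    intro K hK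
    obtain ⟨c, hc⟩ := hψ _ (hC.mul ((isCompact_ball 0).prod hK))
    refine ⟨c, fun γ l h1 h2 => ?_⟩
    have h3 := hc (l⁻¹ * γ) ⟨_, h2, (τ (toI (p γ).1 0))⁻¹ * p γ,
      ⟨by simp [τ, ← tr_neg], by simpa [τ] using h1⟩, by simp [mul_assoc]⟩
    rw [hadd, hinv] at h3
    have := abs_add_le (ψ l) (-ψ l + ψ γ)
    rw [add_neg_cancel_left] at this
    linarith
  obtain ⟨a, ha⟩ := hψ _ ((hC.insert 1).mul ((isCompact_ball 1).prod isCompact_singleton
    (t := {1})) |>.mul hC.inv)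
  have hlin : ∀ m : ℕ, ∀ u l, ‖u‖ ≤ m → (p l)⁻¹ * τ u ∈ C → |ψ l| ≤ a * (m + 1) := by
    intro m
    induction m with
    | zero =>
      intro u l hu hl
      simpa using ha l ⟨_, ⟨1, mem_insert _ _, τ u, ⟨by simpa [τ] using hu.trans (by simp), rfl⟩,
        rfl⟩, ((p l)⁻¹ * τ u)⁻¹, by simpa using hl, by simp⟩
    | succ m ih =>
      intro u l hu hl
      set u' := ((m : ℝ) / (m + 1)) • u with hu'
      obtain ⟨l', hl'⟩ := hcov (τ u')
      have hm : (0 : ℝ) < m + 1 := by positivity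
      push_cast at hu ⊢
      have a1 := ih u' l' (by
        rw [hu', norm_smul, Real.norm_of_nonneg (by positivity), div_mul_eq_mul_div,
          div_le_iff₀ hm]
        exact mul_le_mul_of_nonneg_left hu (by positivity)) hl'
      have a2 : ‖-u' + u‖ ≤ 1 := by
        have : -u' + u = (1 / (m + 1) : ℝ) • u := by
          rw [hu', ← neg_smul]
          nth_rw 2 [← one_smul ℝ u]
          rw [← add_smul]; congr 1; field_simp; ring
        rw [this, norm_smul, Real.norm_of_nonneg (by positivity), div_mul_eq_mul_div,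
          div_le_iff₀ hm]
        linarith
      have a3 := ha (l'⁻¹ * l) ⟨_, ⟨_, mem_insert_of_mem _ hl', (τ u')⁻¹ * τ u,
        ⟨by simpa [τ, ← tr_neg] using a2, by simp [τ]⟩, rfl⟩, ((p l)⁻¹ * τ u)⁻¹,
        by simpa using hl, by simp [mul_assoc]⟩
      rw [hadd, hinv] at a3
      have := abs_add_le (ψ l') (-ψ l' + ψ l)
      rw [add_neg_cancel_left] at this
      linarith
  have ha0 : 0 ≤ a := by
    obtain ⟨l, hl⟩ := hcov (τ 0)
    simpa using (abs_nonneg _).trans (hlin 0 0 l (by simp) hl)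
  have hcont : Continuous fun c : IsomE n × G => toI c⁻¹.1 0 :=
    Continuous.toI (continuous_fst.comp continuous_inv) continuous_const
  obtain ⟨r, hr⟩ := (hC.image hcont.norm).bddAbove
  obtain ⟨s, hs⟩ := ((hT.insert 1).image
    fun δ => ‖toI (p δ).1 0‖ + ‖toI (p δ⁻¹).1 0‖).bddAbove
  obtain ⟨c₁, hc₁⟩ := hred _ ((hT.insert 1).isCompact_biUnion (f := fun δ =>
    (fun x : (IsomE n × G) × (IsomE n × G) => x.1⁻¹.2 * (p δ).2 * x.2⁻¹.2 * (p δ⁻¹).2) '' C ×ˢ C)
    fun δ _ => (hC.prod hC).image (by fun_prop))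
  set c₀ := 2 * a + |a * (2 * |r| + |s|) + c₁| with hc₀
  have hiter : ∀ k : ℕ, ∀ u l, (p l)⁻¹ * τ u ∈ C → |ψ l| ≤ θ ^ k * a * ‖u‖ + c₀ := by
    intro k
    induction k with
    | zero =>
      intro u l hl
      have a1 := hlin _ u l (Nat.le_ceil _) hl
      have a2 := mul_le_mul_of_nonneg_left (Nat.ceil_lt_add_one (norm_nonneg u)).le ha0
      have := abs_nonneg (a * (2 * |r| + |s|) + c₁)
      rw [pow_zero]; linarith
    | succ k ih =>
      intro u l hl
      set c := (p l)⁻¹ * τ u with hc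
      have e : p l = τ u * c⁻¹ := by rw [hc]; group
      have b1 : ‖toI (p l).1 0‖ ≤ ‖u‖ + |r| := by
        rw [e]
        exact (norm_add_le _ _).trans (add_le_add le_rfl ((hr ⟨c, hl, rfl⟩).trans (le_abs_self r)))
      obtain ⟨δ, hδ, b2⟩ := hθ (rot (p l).1) (toI (p l).1 0)
      have b3 : ‖toI (p (l * δ * l * δ⁻¹)).1 0‖ ≤ 2 * θ * ‖toI (p l).1 0‖ + |s| := by
        have b4 := (hs ⟨δ, hδ, rfl⟩).trans (le_abs_self s)
        have b5 : toI (p (l * δ * l * δ⁻¹)).1 0 =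
            (toI (p l).1 0 + rot (p l).1 (rot (p δ).1 (toI (p l).1 0))) +
            (rot (p l).1 (toI (p δ).1 0) +
              rot (p l).1 (rot (p δ).1 (rot (p l).1 (toI (p δ⁻¹).1 0)))) := by
          simp only [map_mul, Prod.fst_mul, toI_mul]
          rw [toI_eq, toI_eq (p δ).1, toI_eq (p l).1 (toI _ _)]
          simp only [map_add]; abel
        rw [b5]
        refine (norm_add_le _ _).trans (add_le_add b2 ((norm_add_le _ _).trans ?_))
        simpa using b4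
      obtain ⟨l', hl'⟩ := hcov (τ (toI (p (l * δ * l * δ⁻¹)).1 0))
      have b6 := hc₁ _ l' (mem_biUnion hδ ⟨(c, c), ⟨hl, hl⟩, by simp [e, τ]⟩) hl'
      have b7 := ih _ _ hl'
      rw [hadd, hadd, hadd, hinv, show ψ l + ψ δ + ψ l + -ψ δ = 2 * ψ l by ring, abs_mul,
        abs_two] at b6
      have b8 : 0 ≤ θ ^ k * a := by positivity
      have b9 : θ ^ k * a ≤ a := mul_le_of_le_one_left ha0 (pow_le_one₀ hθ0 hθ1.le)
      have b10 := mul_le_mul_of_nonneg_left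
        (b3.trans (add_le_add (mul_le_mul_of_nonneg_left b1 (by positivity)) le_rfl)) b8
      have b11 : θ ^ k * a * (2 * θ * |r| + |s|) ≤ a * (2 * |r| + |s|) :=
        mul_le_mul b9 (by nlinarith [abs_nonneg r]) (by positivity) ha0
      have b12 := le_abs_self (a * (2 * |r| + |s|) + c₁)
      rw [pow_succ]
      nlinarith
  obtain ⟨c, hc⟩ := hred K hK
  refine ⟨c₀ + c, fun γ hγ => ?_⟩
  obtain ⟨l, hl⟩ := hcov (τ (toI (p γ).1 0))
  have hlim := (((tendsto_pow_atTop_nhds_zero_of_lt_one hθ0 hθ1).mul_const a).mul_const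
    ‖toI (p γ).1 0‖).add_const c₀
  have := ge_of_tendsto' hlim fun k => hiter k _ l hl
  have := hc γ l hγ hl
  linarith

end Pool.Agent.Lib.MP_d2fa5a_al
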