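import Mathlib

/-! A commensurator-invariant character of a cocompact discrete subgroup extends continuously. -/

set_option autoImplicit false

open Set MeasureTheory Filter Topology
open scoped Pointwise BoundedContinuousFunction

namespace Pool.Agent.Lib.MP_d2fa5a_al

variable {G Γ : Type*} [Group G] [TopologicalSpace G] [IsTopologicalGroup G] [T2Space G]
  [LocallyCompactSpace G] [Group Γ]

lemma exists_equivariant (p : Γ →* G) (Λ : Subgroup Γ)
    (hP : ∀ K : Set G, IsCompact K → {l : Γ | l ∈ Λ ∧ p l ∈ K}.Finite)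
    {C : Set G} (hC : IsCompact C) (hcov : ∀ h : G, ∃ l ∈ Λ, (p l)⁻¹ * h ∈ C)
    (φ : Γ → ℝ) (hadd : ∀ a b, φ (a * b) = φ a + φ b) :
    ∃ f : G → ℝ, Continuous f ∧ ∀ l ∈ Λ, ∀ h, f (p l * h) = φ l + f h := by
  obtain ⟨β, hβ1, -, hβc, hβ01⟩ :=
    exists_continuous_one_zero_of_isCompact hC isClosed_empty (disjoint_empty _)
  set t : Λ → G → ℝ := fun i h => β ((p i)⁻¹ * h) with ht
  have tcont : ∀ i, Continuous (t i) := fun i => β.continuous.comp (continuous_const.mul continuous_id)
  have hlf : LocallyFinite fun i => Function.support (t i) := by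
    intro h₀
    obtain ⟨N, hN, hNn⟩ := exists_compact_mem_nhds h₀
    refine ⟨N, hNn, ?_⟩
    have hfin := hP _ (hN.mul hβc.isCompact.inv)
    refine (hfin.preimage Subtype.val_injective.injOn).subset ?_
    rintro i ⟨h, h1, h2⟩
    refine ⟨i.2, h, h2, ((p i)⁻¹ * h)⁻¹, ?_, by simp⟩
    rw [Set.mem_inv, inv_inv]
    exact subset_tsupport _ h1
  have hlf2 : LocallyFinite fun i : Λ => Function.support (fun h => φ i * t i h) :=
    hlf.subset fun i h hh => right_ne_zero_of_mul hh
  have hfs : ∀ h, Function.HasFiniteSupport fun i => t i h := fun h => hlf.point_finite h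
  have hfs2 : ∀ h, Function.HasFiniteSupport fun i : Λ => φ i * t i h :=
    fun h => hlf2.point_finite h
  have spos : ∀ h, 0 < ∑ᶠ i, t i h := by
    intro h
    obtain ⟨l, hl, hlC⟩ := hcov h
    have := single_le_finsum (⟨l, hl⟩ : Λ) (hfs h) fun j => (hβ01 _).1
    have h1 : t ⟨l, hl⟩ h = 1 := hβ1 hlC
    linarith
  refine ⟨fun h => (∑ᶠ i : Λ, φ i * t i h) / ∑ᶠ i, t i h,
    (continuous_finsum (fun i => continuous_const.mul (tcont i)) hlf2).div
      (continuous_finsum tcont hlf) fun h => (spos h).ne', fun l hl h => ?_⟩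
  have e0 : ∀ j : Λ, t (Equiv.mulLeft (⟨l, hl⟩ : Λ) j) (p l * h) = t j h := by
    intro j; simp [ht, mul_assoc]
  have e1 : ∑ᶠ i, t i (p l * h) = ∑ᶠ i, t i h := by
    rw [← finsum_comp_equiv (Equiv.mulLeft (⟨l, hl⟩ : Λ))]
    simp only [e0]
  have e2 : ∑ᶠ i : Λ, φ i * t i (p l * h) = φ l * ∑ᶠ i, t i h + ∑ᶠ i : Λ, φ i * t i h := by
    rw [← finsum_comp_equiv (Equiv.mulLeft (⟨l, hl⟩ : Λ)), mul_finsum, ← finsum_add_distrib
      ((hfs h).subset fun i hi => right_ne_zero_of_mul hi) (hfs2 h)]
    congr 1; ext j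
    rw [e0]
    simp [hadd, add_mul]
  simp only [e1, e2]
  field_simp [(spos h).ne']

variable [SecondCountableTopology G]

theorem exists_extension (p : Γ →* G) (hd : DenseRange p) {T : Set Γ} (hT : T.Finite)
    (hgen : Subgroup.closure T = ⊤) (Λ : Subgroup Γ)
    (hP : ∀ K : Set G, IsCompact K → {l : Γ | l ∈ Λ ∧ p l ∈ K}.Finite)
    (hC : ∀ γ : Γ, ∃ C, IsCompact C ∧ ∀ h : G, ∃ l ∈ Λ, γ * l * γ⁻¹ ∈ Λ ∧ (p l)⁻¹ * h ∈ C)
    (φ : Γ → ℝ) (hadd : ∀ a b, φ (a * b) = φ a + φ b) :
    ∃ ψ : G → ℝ, Continuous ψ ∧ (∀ a b, ψ (a * b) = ψ a + ψ b) ∧ ∀ l ∈ Λ, ψ (p l) = φ l := by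
  borelize G
  set μ : Measure G := Measure.haar with hμ
  have φ1 : φ 1 = 0 := by have := hadd 1 1; simp at this; exact this
  have φinv : ∀ a, φ a⁻¹ = -φ a := by
    intro a; have := hadd a a⁻¹; rw [mul_inv_cancel, φ1] at this; linarith
  obtain ⟨C, hCc, hcov'⟩ := hC 1
  have hcov : ∀ h : G, ∃ l ∈ Λ, (p l)⁻¹ * h ∈ C := fun h =>
    let ⟨l, hl, _, h2⟩ := hcov' h; ⟨l, hl, h2⟩
  obtain ⟨f, fcont, hf⟩ := exists_equivariant p Λ hP hCc hcov φ hadd
  obtain ⟨B, hBc, hB1⟩ := exists_compact_mem_nhds (1 : G)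
  obtain ⟨K, hKc, hK⟩ := exists_compact_superset
    ((hCc.inv.mul hBc).union ((hT.image p).union (hT.image p).inv).isCompact)
  have hCB : ∀ h ∈ C, (fun s => h * s) ⁻¹' B ⊆ K := by
    intro h hh s hs
    exact interior_subset (hK (Or.inl ⟨h⁻¹, by simpa using hh, h * s, hs, by simp⟩))
  obtain ⟨l₀, -, hC0⟩ := hcov 1
  have hBpos : 0 < μ.real B :=
    ENNReal.toReal_pos (Measure.measure_pos_of_mem_nhds μ hB1).ne' hBc.measure_lt_top.ne
  have hpre : ∀ h : G, μ.real ((fun s => h * s) ⁻¹' B) = μ.real B := by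
    intro h; simp only [Measure.real, measure_preimage_mul]
  have hBK : μ.real B ≤ μ.real K := by
    rw [← hpre ((p l₀)⁻¹ * 1)]
    exact measureReal_mono (hCB _ hC0) hKc.measure_lt_top.ne
  have hKpos : 0 < μ.real K := hBpos.trans_le hBK
  set m := μ.real K with hm
  -- averaging operator
  set P : (G → ℝ) → G → ℝ := fun u h => m⁻¹ * ∫ s in K, u (h * s) ∂μ with hPdef
  have hint : ∀ u : G → ℝ, Continuous u → ∀ h, IntegrableOn (fun s => u (h * s)) K μ :=
    fun u hu h => (hu.comp (continuous_const.mul continuous_id)).continuousOn.integrableOn_compact hKc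
  have Pcont : ∀ u : G → ℝ, Continuous u → Continuous (P u) := fun u hu =>
    continuous_const.mul (continuous_parametric_integral_of_continuous
      (f := fun h s => u (h * s)) (hu.comp continuous_mul) hKc)
  have Padd : ∀ u v : G → ℝ, Continuous u → Continuous v → ∀ h,
      P (fun x => u x + v x) h = P u h + P v h := by
    intro u v hu hv h
    simp only [hPdef]
    rw [integral_add (hint u hu h) (hint v hv h), mul_add]
  have Psub : ∀ u v : G → ℝ, Continuous u → Continuous v → ∀ h,
      P (fun x => u x - v x) h = P u h - P v h := by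
    intro u v hu hv h
    simp only [hPdef]
    rw [integral_sub (hint u hu h) (hint v hv h), mul_sub]
  have Pconst : ∀ (a : ℝ) h, P (fun _ => a) h = a := by
    intro a h
    simp only [hPdef, setIntegral_const, smul_eq_mul, ← hm]
    field_simp
  have Pleft : ∀ (u : G → ℝ) g h, P u (g * h) = P (fun x => u (g * x)) h := by
    intro u g h; simp only [hPdef, mul_assoc]
  have Pbound : ∀ u : G →ᵇ ℝ, ∀ h, ‖P u h‖ ≤ ‖u‖ := by
    intro u h
    have := norm_setIntegral_le_of_norm_le_const (μ := μ) (s := K) (f := fun s => u (h * s))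
      hKc.measure_lt_top (fun x _ => u.norm_coe_le_norm _)
    simp only [hPdef, norm_mul, norm_inv, Real.norm_of_nonneg hKpos.le]
    rw [inv_mul_le_iff₀ hKpos, mul_comm]
    exact this
  -- the defect of `f`
  have g0inv : ∀ l ∈ Λ, ∀ h, P f (p l * h) - f (p l * h) = P f h - f h := by
    intro l hl h
    rw [Pleft, hf l hl]
    simp only [hf l hl]
    rw [Padd _ _ continuous_const fcont, Pconst (φ l) h]; ring
  obtain ⟨M₀, hM₀⟩ := hCc.exists_bound_of_continuousOn ((Pcont f fcont).sub fcont).continuousOn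
  have g0bd : ∀ h, ‖P f h - f h‖ ≤ M₀ := by
    intro h
    obtain ⟨l, hl, hlC⟩ := hcov h
    have := g0inv l hl ((p l)⁻¹ * h)
    rw [mul_inv_cancel_left] at this
    rw [this]; exact hM₀ _ hlC
  let Tm : (G →ᵇ ℝ) → G →ᵇ ℝ := fun u => BoundedContinuousFunction.ofNormedAddCommGroup
    (fun h => P u h - m⁻¹ * (∫ y in B, u y ∂μ) + (P f h - f h))
    (((Pcont u u.continuous).sub continuous_const).add ((Pcont f fcont).sub fcont))
    (‖u‖ + ‖m⁻¹ * ∫ y in B, u y ∂μ‖ + M₀)
    (fun h => (norm_add_le _ _).trans (add_le_add ((norm_sub_le _ _).trans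
      (add_le_add (Pbound u h) le_rfl)) (g0bd h)))
  have hTm : ∀ u h, Tm u h = P u h - m⁻¹ * (∫ y in B, u y ∂μ) + (P f h - f h) := fun _ _ => rfl
  set S : Set (G →ᵇ ℝ) := {u | ∀ l ∈ Λ, ∀ h, u (p l * h) = u h} with hS
  have hSc : IsClosed S := by
    simp only [hS, ofPred_forall]
    exact isClosed_iInter fun l => isClosed_iInter fun _ => isClosed_iInter fun h =>
      isClosed_eq (continuous_eval_const _) (continuous_eval_const _)
  have hmaps : MapsTo Tm S S := by
    intro u hu l hl h
    rw [hTm, hTm, g0inv l hl, Pleft]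
    simp only [hu l hl]
  have hcontr : ∀ u ∈ S, ∀ v ∈ S, dist (Tm u) (Tm v) ≤ (1 - μ.real B / m) * dist u v := by
    intro u hu v hv
    have hnn : 0 ≤ 1 - μ.real B / m := sub_nonneg.2 ((div_le_one hKpos).2 hBK)
    rw [BoundedContinuousFunction.dist_le (mul_nonneg hnn dist_nonneg)]
    intro h'
    obtain ⟨l, hl, hh⟩ := hcov h'
    set h := (p l)⁻¹ * h' with hhdef
    have e : h' = p l * h := by simp [hhdef]
    rw [e, hmaps hu l hl, hmaps hv l hl, Real.dist_eq, hTm, hTm]
    have hw : Continuous fun x => u x - v x := u.continuous.sub v.continuous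
    have hBm : MeasurableSet ((fun s => h * s) ⁻¹' B) :=
      hBc.measurableSet.preimage (measurable_const_mul h)
    have e1 : ∫ y in B, (u y - v y) ∂μ
        = ∫ s in (fun s => h * s) ⁻¹' B, (u (h * s) - v (h * s)) ∂μ := by
      have := setIntegral_map_equiv (μ := μ) (MeasurableEquiv.mulLeft h) (fun y => u y - v y) B
      simp only [MeasurableEquiv.coe_mulLeft, map_mul_left_eq_self] at this
      exact this
    have e2 : P u h - m⁻¹ * (∫ y in B, u y ∂μ) + (P f h - f h)
        - (P v h - m⁻¹ * (∫ y in B, v y ∂μ) + (P f h - f h))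
        = m⁻¹ * ∫ s in K \ (fun s => h * s) ⁻¹' B, (u (h * s) - v (h * s)) ∂μ := by
      rw [setIntegral_sdiff hBm (hint _ hw h) (hCB h hh), ← e1,
        integral_sub (u.continuous.continuousOn.integrableOn_compact hBc)
          (v.continuous.continuousOn.integrableOn_compact hBc)]
      have := Psub u v u.continuous v.continuous h
      simp only [hPdef] at this ⊢
      linear_combination -this
    rw [e2]
    have e3 := norm_setIntegral_le_of_norm_le_const (μ := μ)
      (s := K \ (fun s => h * s) ⁻¹' B) (f := fun s => u (h * s) - v (h * s)) (C := dist u v)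
      ((measure_mono sdiff_subset).trans_lt hKc.measure_lt_top)
      (fun x _ => by
        rw [← dist_eq_norm]; exact BoundedContinuousFunction.dist_coe_le_dist _)
    rw [measureReal_sdiff (hCB h hh) hBm hKc.measure_lt_top.ne, hpre, ← hm] at e3
    rw [abs_mul, abs_of_pos (inv_pos.2 hKpos), inv_mul_le_iff₀ hKpos]
    refine e3.trans (le_of_eq ?_)
    field_simp
  have hnn : 0 ≤ 1 - μ.real B / m := sub_nonneg.2 ((div_le_one hKpos).2 hBK)
  have hCW : ContractingWith ⟨1 - μ.real B / m, hnn⟩ (hmaps.restrict Tm S S) := by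
    refine ⟨?_, LipschitzWith.of_dist_le_mul fun u v => hcontr u u.2 v v.2⟩
    show (1 - μ.real B / m : ℝ) < 1
    have := div_pos hBpos hKpos
    linarith
  obtain ⟨u, huS, hufix, -⟩ := hCW.exists_fixedPoint' hSc.isComplete hmaps
    (x := 0) (fun _ _ _ => rfl) (edist_ne_top _ _)
  set F : G → ℝ := fun h => f h + u h with hF
  have Fcont : Continuous F := fcont.add u.continuous
  set c := m⁻¹ * (∫ y in B, u y ∂μ) with hc
  have PF : ∀ h, P F h = F h + c := by
    intro h
    have := congrArg (fun w : G →ᵇ ℝ => w h) hufix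
    simp only [hTm] at this
    rw [hF, Padd f u fcont u.continuous]
    simp only
    linarith
  have Feq : ∀ l ∈ Λ, ∀ h, F (p l * h) = φ l + F h := by
    intro l hl h
    simp only [hF, hf l hl, huS l hl]; ring
  -- maximum principle
  have hconst : ∀ γ h, F (p γ * h) - F h = F (p γ * 1) - F 1 := by
    intro γ
    set w : G → ℝ := fun h => F (p γ * h) - F h with hw
    have wcont : Continuous w := (Fcont.comp (continuous_const.mul continuous_id)).sub Fcont
    have Pw : ∀ h, P w h = w h := by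
      intro h
      have := Psub (fun x => F (p γ * x)) F (Fcont.comp (continuous_const.mul continuous_id))
        Fcont h
      rw [← Pleft F (p γ) h, PF, PF] at this
      simp only [hw]
      linarith
    obtain ⟨C', hC'c, hcov2⟩ := hC γ
    obtain ⟨l₁, -, -, hC1⟩ := hcov2 1
    obtain ⟨h₀, -, hmax⟩ := hC'c.exists_isMaxOn ⟨_, hC1⟩ wcont.continuousOn
    have hle : ∀ h, w h ≤ w h₀ := by
      intro h
      obtain ⟨l, hl, hl', hh⟩ := hcov2 h
      have e : w h = w ((p l)⁻¹ * h) := by
        have a1 := Feq l hl ((p l)⁻¹ * h)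
        have a2 := Feq _ hl' (p γ * ((p l)⁻¹ * h))
        rw [hadd, hadd, φinv] at a2
        simp only [map_mul, map_inv, mul_assoc, inv_mul_cancel_left, mul_inv_cancel_left] at a1 a2
        simp only [hw]
        linarith
      rw [e]; exact hmax hh
    have hstep : ∀ z, w z = w h₀ → ∀ s ∈ interior K, w (z * s) = w h₀ := by
      intro z hz s hs
      have hc2 : Continuous fun s => w h₀ - w (z * s) :=
        continuous_const.sub (wcont.comp (continuous_const.mul continuous_id))
      have h0 : ∫ s in K, (w h₀ - w (z * s)) ∂μ = 0 := by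
        have := Psub (fun _ => w h₀) w continuous_const wcont z
        rw [Pconst (w h₀) z, Pw, hz, sub_self] at this
        simp only [hPdef] at this
        exact (mul_eq_zero.1 this).resolve_left (inv_pos.2 hKpos).ne'
      rw [setIntegral_eq_zero_iff_of_nonneg_ae (Eventually.of_forall fun s => sub_nonneg.2 (hle _))
        (hc2.continuousOn.integrableOn_compact hKc)] at h0
      have h1 := Measure.eqOn_open_of_ae_eq (μ := μ)
        (ae_restrict_of_ae_restrict_of_subset interior_subset h0) isOpen_interior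
        hc2.continuousOn continuous_zero.continuousOn hs
      exact (sub_eq_zero.1 h1).symm
    have hall : ∀ γ' : Γ, ∀ z, w z = w h₀ ↔ w (z * p γ') = w h₀ := by
      intro γ'
      have hmem : γ' ∈ Subgroup.closure T := hgen ▸ Subgroup.mem_top γ'
      induction hmem using Subgroup.closure_induction with
      | mem t ht =>
        intro z
        refine ⟨fun hz => hstep z hz _ (hK (Or.inr (Or.inl ⟨t, ht, rfl⟩))), fun hz => ?_⟩
        have := hstep _ hz (p t)⁻¹ (hK (Or.inr (Or.inr (by simpa using ⟨t, ht, rfl⟩))))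
        simpa using this
      | one => simp
      | mul a b _ _ iha ihb => intro z; rw [iha z, ihb, map_mul, mul_assoc]
      | inv a _ iha => intro z; rw [iha (z * p a⁻¹)]; simp
    have hfun : (fun x => w (h₀ * x)) = fun _ => w h₀ := by
      refine hd.equalizer (wcont.comp (continuous_const.mul continuous_id)) continuous_const ?_
      ext γ'
      exact (hall γ' h₀).1 rfl
    have hval : ∀ h, w h = w h₀ := fun h => by simpa using congrFun hfun (h₀⁻¹ * h)
    intro h
    exact (hval h).trans (hval 1).symm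
  have hmul : ∀ h g, F (g * h) - F h = F (g * 1) - F 1 := by
    intro h
    have : (fun g => F (g * h) - F h) = fun g => F (g * 1) - F 1 := by
      refine hd.equalizer ((Fcont.comp (continuous_id.mul continuous_const)).sub continuous_const)
        ((Fcont.comp (continuous_id.mul continuous_const)).sub continuous_const) ?_
      ext γ
      exact hconst γ h
    exact congrFun this
  refine ⟨fun g => F g - F 1, Fcont.sub continuous_const, fun a b => ?_, fun l hl => ?_⟩
  · have := hmul b a
    rw [mul_one] at this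
    linarith
  · have := Feq l hl 1
    rw [mul_one] at this
    linarith

/-- version without density: a character of `Γ` bounded on bounded sets -/
theorem exists_bounded_extension (p : Γ →* G) {T : Set Γ} (hT : T.Finite)
    (hgen : Subgroup.closure T = ⊤) (Λ : Subgroup Γ)
    (hP : ∀ K : Set G, IsCompact K → {l : Γ | l ∈ Λ ∧ p l ∈ K}.Finite)
    (hC : ∀ γ : Γ, ∃ C, IsCompact C ∧ ∀ h : G, ∃ l ∈ Λ, γ * l * γ⁻¹ ∈ Λ ∧ (p l)⁻¹ * h ∈ C)
    (φ : Γ → ℝ) (hadd : ∀ a b, φ (a * b) = φ a + φ b) :
    ∃ ψ : Γ → ℝ, (∀ a b, ψ (a * b) = ψ a + ψ b) ∧ (∀ l ∈ Λ, ψ l = φ l) ∧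
      ∀ K : Set G, IsCompact K → ∃ c, ∀ γ, p γ ∈ K → |ψ γ| ≤ c := by
  set G₁ : Subgroup G := p.range.topologicalClosure with hG₁
  have hcl : IsClosed (G₁ : Set G) := Subgroup.isClosed_topologicalClosure _
  have hemb : IsClosedEmbedding (Subtype.val : G₁ → G) := hcl.isClosedEmbedding_subtypeVal
  have : LocallyCompactSpace G₁ := hemb.locallyCompactSpace
  have : SecondCountableTopology G₁ := hemb.isInducing.secondCountableTopology
  let p₁ : Γ →* G₁ := p.codRestrict G₁ fun γ => Subgroup.le_topologicalClosure _ ⟨γ, rfl⟩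
  have hd : DenseRange p₁ := by
    intro x
    rw [hemb.isInducing.closure_eq_preimage_closure_image, mem_preimage, ← range_comp]
    exact x.2
  obtain ⟨ψ, hψc, hψa, hψl⟩ := exists_extension p₁ hd hT hgen Λ
    (fun K hK => (hP _ (hK.image continuous_subtype_val)).subset fun l hl =>
      ⟨hl.1, _, hl.2, rfl⟩)
    (fun γ => by
      obtain ⟨C, hCc, hcov⟩ := hC γ
      exact ⟨_, hemb.isCompact_preimage hCc, fun h => hcov h⟩) φ hadd
  refine ⟨fun γ => ψ (p₁ γ), fun a b => by simp only [map_mul, hψa], hψl, fun K hK => ?_⟩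
  obtain ⟨c, hc⟩ := (hemb.isCompact_preimage hK).exists_bound_of_continuousOn hψc.continuousOn
  exact ⟨c, fun γ hγ => hc _ hγ⟩

end Pool.Agent.Lib.MP_d2fa5a_al
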