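import Pool.Agent.Lib.MP_d2fa5a_al.Euclid
import Pool.Agent.Lib.MP_d2fa5a_al.LieData
import Pool.Agent.Lib.MP_d2fa5a_al.Harmonic

/-! The main argument in the abstract setting. -/

set_option autoImplicit false

open Set Filter Topology MulAction
open scoped Pointwise

namespace Pool.Agent.Lib.MP_d2fa5a_al

variable {n : ℕ} {Γ G W : Type*} [Group Γ] [Group G] [TopologicalSpace G] [IsTopologicalGroup G]
  [MulAction Γ W] {p : Γ →* IsomE n × G} {Y : SimpleGraph W}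

lemma exists_normalized (φ : Γ →* Multiplicative ℤ) (hφ : ∃ γ, φ γ ≠ 1) :
    ∃ f : Γ → ℤ, (∀ a b, f (a * b) = f a + f b) ∧ (∃ γ, f γ = 1) ∧ ∀ γ, f γ = 0 ↔ φ γ = 1 := by
  obtain ⟨m, hm⟩ := Int.subgroup_cyclic (Subgroup.toAddSubgroup' φ.range)
  have h1 : ∀ γ, ∃ k : ℤ, k • m = (φ γ).toAdd := fun γ =>
    AddSubgroup.mem_closure_singleton.1 (hm ▸ ⟨γ, rfl⟩)
  choose f hf using h1
  have hm0 : m ≠ 0 := by
    rintro rfl
    obtain ⟨γ, hγ⟩ := hφ
    exact hγ (by simpa using (hf γ).symm)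
  simp only [smul_eq_mul] at hf
  obtain ⟨g, hg⟩ : m ∈ Subgroup.toAddSubgroup' φ.range :=
    hm ▸ AddSubgroup.subset_closure (mem_singleton m)
  refine ⟨f, fun a b => mul_right_cancel₀ hm0 ?_, ⟨g, mul_right_cancel₀ hm0 ?_⟩, fun γ => ?_⟩
  · rw [add_mul, hf, hf, hf, map_mul, toAdd_mul]
  · rw [hf, hg, one_mul]; rfl
  · rw [← toAdd_eq_zero, ← hf]; simp [hm0]

theorem Setting.reducible_of_split [Infinite W] (S : Setting p Y)
    (hrig : ∀ (γ : Γ) (D : ℕ), (∀ x, Near Y D x (γ • x)) → ∀ x : W, γ • x = x)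
    {T : Set Γ} (hT : T.Finite) (hgen : Subgroup.closure T = ⊤)
    (hne : ∀ Γ' : Subgroup Γ, Γ'.FiniteIndex → ∀ e : Euc n,
      (∀ γ ∈ Γ', rot (p γ).1 e = e) → e = 0)
    {a b : G →* G} (hs : SplitData ((MonoidHom.snd _ _).comp p).range a b)
    (ψ : Γ →* Multiplicative ℝ) {γ₀ : Γ} (hγ₀ : ψ γ₀ ≠ 1)
    (hψ : ∀ γ, a (p γ).2 = 1 → ψ γ = 1) : Reducible Γ := by
  obtain ⟨v⟩ : Nonempty W := inferInstance
  let B₀ : Subgroup Γ := (a.comp ((MonoidHom.snd _ _).comp p)).ker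
  have hB₀ : ∀ γ, γ ∈ B₀ ↔ a (p γ).2 = 1 := fun γ => Iff.rfl
  let ρ : IsomE n × G →* IsomE n × G := (MonoidHom.id _).prodMap b
  have hρ : Continuous ρ := continuous_id.prodMap hs.cb
  have hρB : ∀ β ∈ B₀, ρ (p β) = p β := fun β hβ => Prod.ext rfl (by
    have := hs.mul (p β).2
    rwa [(hB₀ β).1 hβ, one_mul] at this)
  obtain ⟨C', hC', B', hB', hcov⟩ : ∃ C', IsCompact C' ∧ ∃ B' : Set W, B'.Finite ∧
      ∀ h x, a h.2 = 1 → ∃ β ∈ B₀, (p β)⁻¹ * h ∈ C' ∧ β⁻¹ • x ∈ B' := by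
    obtain ⟨C, hC, B, hB, h⟩ := S.cocomp
    have hfin := hs.fin _ (hC.image (hs.ca.comp continuous_snd))
    have : ∀ d : G, ∃ g : Γ, (∃ g', a (p g').2 = d) → a (p g).2 = d := fun d => by
      by_cases hd : ∃ g', a (p g').2 = d
      · exact ⟨hd.choose, fun _ => hd.choose_spec⟩
      · exact ⟨1, fun h => absurd h hd⟩
    choose g hg using this
    refine ⟨_, hfin.isCompact_biUnion (f := fun d => (fun c => (p (g d))⁻¹ * c) '' C)
      fun d _ => hC.image (by fun_prop), _, (hfin.prod hB).image fun x => (g x.1)⁻¹ • x.2,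
      fun h' x hh => ?_⟩
    obtain ⟨γ, h1, h2⟩ := h h' x
    have h3 : a (p γ⁻¹).2 ∈ (a ∘ Prod.snd) '' C ∩ a '' ((MonoidHom.snd _ _).comp p).range :=
      ⟨⟨_, h1, by simp [hh]⟩, _, ⟨γ⁻¹, rfl⟩, rfl⟩
    refine ⟨γ * g (a (p γ⁻¹).2), ?_, mem_biUnion h3 ⟨_, h1, by simp [mul_assoc]⟩,
      ⟨(_, _), ⟨h3, h2⟩, by simp [mul_smul]⟩⟩
    rw [hB₀, map_mul, Prod.snd_mul, map_mul, hg _ ⟨_, rfl⟩]; simp
  obtain ⟨D, hD⟩ := exists_near_finite S.conn hB' (fun _ => v) id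
  let Z : Set Γ := {γ | ρ (p γ) ∈ insert 1 C' ∧ Near Y D v (γ • v)}
  have hZ1 : (1 : Γ) ∈ Z := ⟨by simp, by simpa using (Near.refl v).mono (Nat.zero_le D)⟩
  have hZ : ∀ γ, ∃ z ∈ Z, γ * z⁻¹ ∈ B₀ := by
    intro γ
    obtain ⟨β, hβ, h1, h2⟩ := hcov (ρ (p γ)) (γ • v) (hs.ab _)
    refine ⟨β⁻¹ * γ, ⟨Or.inr ?_, by simpa [mul_smul] using hD _ h2⟩, by simpa using hβ⟩
    rw [map_mul, map_mul, hρB _ (inv_mem hβ), map_inv]; exact h1
  have hfinZ : ∀ T : Set Γ, T.Finite →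
      {β | β ∈ B₀ ∧ ∃ z ∈ Z, ∃ z' ∈ Z, ∃ t ∈ T, β = z * t * z'⁻¹}.Finite := by
    intro T hT
    obtain ⟨D', hD'⟩ := exists_near_finite S.conn hT (fun _ => v) (fun t => t • v)
    refine (S.proper' (((hC'.insert 1).mul (hT.image fun t => ρ (p t)).isCompact).mul
      (hC'.insert 1).inv) v (D + D' + D)).subset ?_
    rintro β ⟨hβ, z, hz, z', hz', t, ht, e⟩
    refine ⟨?_, ?_⟩
    · rw [← hρB β hβ, e]
      exact ⟨_, ⟨_, hz.1, _, ⟨t, ht, rfl⟩, rfl⟩, (ρ (p z'))⁻¹, by simpa using hz'.1, by simp⟩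
    · have h1 := (hD' t ht).smul S.act z
      have h2 := hz'.2.symm.smul S.act (z * t * z'⁻¹)
      rw [← mul_smul, inv_mul_cancel_right, mul_smul] at h2
      exact e ▸ (hz.2.trans h1).trans h2
  obtain ⟨T', hT', hT'B, hT'gen⟩ : ∃ T' : Set Γ, T'.Finite ∧ (∀ t ∈ T', t ∈ B₀) ∧
      B₀ ≤ Subgroup.closure T' := by
    refine ⟨_, hfinZ _ ((hT.union hT.inv).insert 1), fun t ht => ht.1, fun β hβ => ?_⟩
    set T' := {β | β ∈ B₀ ∧ ∃ z ∈ Z, ∃ z' ∈ Z, ∃ t ∈ insert 1 (T ∪ T⁻¹), β = z * t * z'⁻¹}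
    have step : ∀ γ, ∀ t ∈ T ∪ T⁻¹, (∃ z ∈ Z, γ * z⁻¹ ∈ Subgroup.closure T') →
        ∃ z ∈ Z, γ * t * z⁻¹ ∈ Subgroup.closure T' := by
      rintro γ t ht ⟨z, hz, h⟩
      obtain ⟨z', hz', h'⟩ := hZ (z * t)
      refine ⟨z', hz', ?_⟩
      have := mul_mem h (Subgroup.subset_closure (show _ ∈ T' from
        ⟨h', z, hz, z', hz', t, Or.inr ht, rfl⟩))
      simpa [mul_assoc] using this
    have key : ∀ γ ∈ Subgroup.closure T, ∃ z ∈ Z, γ * z⁻¹ ∈ Subgroup.closure T' := by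
      intro γ hγ
      induction hγ using Subgroup.closure_induction_right with
      | one => exact ⟨1, hZ1, by simp⟩
      | mul_right x _ y hy ih => exact step x y (Or.inl hy) ih
      | mul_inv_cancel x _ y hy ih => exact step x y⁻¹ (Or.inr (by simpa using hy)) ih
    obtain ⟨z, hz, h⟩ := key β (hgen ▸ Subgroup.mem_top β)
    have h1 : Subgroup.closure T' ≤ B₀ := (Subgroup.closure_le _).2 fun t ht => ht.1
    have h2 : z ∈ B₀ := by simpa using mul_mem (inv_mem (h1 h)) hβ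
    simpa using mul_mem h (Subgroup.subset_closure (show z ∈ T' from
      ⟨h2, z, hz, 1, hZ1, 1, Or.inl rfl, by simp⟩))
  let A : Subgroup Γ := Subgroup.centralizer B₀
  have hA : ∀ α ∈ A, ∀ β ∈ B₀, α * β = β * α := fun α hα β hβ => (hα β hβ).symm
  have hidx : (A ⊔ B₀).FiniteIndex := by
    have := hT'.to_subtype
    let Φ : Γ → T' → Γ := fun z t => z * t * z⁻¹
    have hfin : (Φ '' Z).Finite := by
      refine (Finite.pi' fun _ : T' => hfinZ T' hT').subset ?_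
      rintro _ ⟨z, hz, rfl⟩ t
      exact ⟨Subgroup.Normal.conj_mem inferInstance _ (hT'B t t.2) z, z, hz, z, hz, t, t.2, rfl⟩
    obtain ⟨R, -, hR, hRZ⟩ := hfin.exists_subset_finite_image_eq (subset_refl _)
    refine finiteIndex_of_cover _ hR fun γ => ?_
    obtain ⟨z, hz, h⟩ := hZ γ
    obtain ⟨r, hr, e⟩ : Φ z ∈ Φ '' R := hRZ ▸ ⟨z, hz, rfl⟩
    have h1 : r⁻¹ * z ∈ A := by
      have h2 : Subgroup.closure T' ≤ Subgroup.centralizer {r⁻¹ * z} := by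
        refine (Subgroup.closure_le _).2 fun t ht => Subgroup.mem_centralizer_singleton_iff.2 ?_
        have h3 : r * t * r⁻¹ = z * t * z⁻¹ := congrFun e ⟨t, ht⟩
        calc t * (r⁻¹ * z) = r⁻¹ * (r * t * r⁻¹) * z := by group
          _ = r⁻¹ * z * t := by rw [h3]; group
      exact fun β hβ => Subgroup.mem_centralizer_singleton_iff.1 (h2 (hT'gen hβ))
    refine ⟨r, hr, ?_⟩
    have := mul_mem (Subgroup.mem_sup_right (S := A) (Subgroup.Normal.conj_mem' inferInstance _ h r))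
      (Subgroup.mem_sup_left h1)
    simpa [mul_assoc] using this
  have hAY : ∀ α ∈ A, ∀ x : W, α • x = x := by
    intro α hα
    obtain ⟨D', hD'⟩ := exists_near_finite S.conn hB' id (fun y => α • y)
    refine hrig α D' fun x => ?_
    obtain ⟨β, hβ, -, h⟩ := hcov 1 x (map_one a)
    have := (hD' _ h).smul S.act β
    rwa [id, smul_inv_smul, ← mul_smul, ← hA α hα β hβ, mul_smul, smul_inv_smul] at this
  have hrot : ∀ α ∈ A, ∀ u, rot (p α).1 u = u := by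
    intro α hα
    have hcont : Continuous fun c : IsomE n × G => toI c.1 0 :=
      Continuous.toI continuous_fst continuous_const
    obtain ⟨M, hM⟩ := (hC'.image ((Continuous.toI (continuous_const (y := (p α).1)) hcont).dist
      hcont)).bddAbove
    have h1 : ∀ u, ‖rot (p α).1 u - u‖ ≤ M + ‖toI (p α).1 0‖ := by
      intro u
      obtain ⟨β, hβ, h, -⟩ := hcov (tr u, 1) v (map_one a)
      have h2 := hM ⟨_, h, rfl⟩
      have h3 : (p α).1 * (p β⁻¹).1 = (p β⁻¹).1 * (p α).1 := by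
        rw [← Prod.fst_mul, ← Prod.fst_mul, ← map_mul, ← map_mul, hA α hα _ (inv_mem hβ)]
      simp only [Prod.fst_mul, toI_mul, toI_tr, add_zero, ← map_inv] at h2
      rw [← toI_mul, h3, toI_mul, IsometryEquiv.dist_eq, toI_eq, dist_eq_norm] at h2
      have h4 := norm_sub_le (rot (p α).1 u + toI (p α).1 0 - u) (toI (p α).1 0)
      rw [show rot (p α).1 u + toI (p α).1 0 - u - toI (p α).1 0 = rot (p α).1 u - u by abel] at h4
      linarith
    intro u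
    by_contra h2
    have h3 := norm_pos_iff.2 (sub_ne_zero.2 h2)
    have h4 := h1 (((|M + ‖toI (p α).1 0‖| + 1) / ‖rot (p α).1 u - u‖) • u)
    rw [map_smul, ← smul_sub, norm_smul, Real.norm_of_nonneg (by positivity),
      div_mul_cancel₀ _ h3.ne'] at h4
    linarith [le_abs_self (M + ‖toI (p α).1 0‖)]
  have hAE : ∀ α ∈ A, (p α).1 = 1 := by
    intro α hα
    let Fix : Subgroup Γ :=
      { carrier := {γ | rot (p γ).1 (toI (p α).1 0) = toI (p α).1 0}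
        one_mem' := by simp [rot_one]
        mul_mem' := fun {x y} hx hy => by
          simp only [mem_ofPred_eq, map_mul, Prod.fst_mul, rot_mul] at hx hy ⊢
          rw [hy, hx]
        inv_mem' := fun {x} hx => by
          simp only [mem_ofPred_eq] at hx ⊢
          conv_lhs => rw [← hx, ← rot_mul, ← Prod.fst_mul, ← map_mul, inv_mul_cancel]
          simp [rot_one] }
    have h1 : A ⊔ B₀ ≤ Fix := by
      refine sup_le (fun x hx => hrot x hx _) fun β hβ => ?_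
      have h2 := congrArg (fun γ => toI (p γ).1 0) (hA α hα β hβ)
      simp only [map_mul, Prod.fst_mul, toI_mul] at h2
      rw [toI_eq, toI_eq (p β).1 (toI _ _), hrot α hα, add_comm] at h2
      exact (add_right_cancel h2).symm
    have h2 := hne _ hidx _ h1
    exact IsomE.ext fun x => by rw [toI_eq, hrot α hα, h2]; simp
  refine ⟨A, B₀, ?_, ?_, hA, ?_, hidx⟩
  · by_contra hfin
    rw [not_infinite_iff_finite] at hfin
    have h1 : A ⊔ B₀ ≤ ψ.ker := by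
      refine sup_le (fun α hα => ?_) fun β hβ => hψ β hβ
      have := (isOfFinOrder_of_finite (⟨α, hα⟩ : A))
      exact (ψ.isOfFinOrder (A.subtype.isOfFinOrder this)).eq_one'
    obtain ⟨k, hk, -, h2⟩ := Subgroup.exists_pow_mem_of_index_ne_zero hidx.index_ne_zero γ₀
    have h3 : ψ γ₀ ^ k = 1 := by rw [← map_pow]; exact h1 h2
    exact hγ₀ ((pow_eq_one_iff_left hk.ne').1 h3)
  · by_contra hfin
    rw [not_infinite_iff_finite] at hfin
    refine Set.infinite_univ ((((toFinite (B₀ : Set Γ)).prod hB').image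
      fun x => x.1 • x.2).subset fun x _ => ?_)
    obtain ⟨β, hβ, -, h⟩ := hcov 1 x (map_one a)
    exact ⟨(β, _), ⟨hβ, h⟩, by simp⟩
  · rw [eq_bot_iff]
    rintro α ⟨hα, hα'⟩
    refine S.faith α (Prod.ext (hAE α hα) (hs.centre _ hα' ?_)) (hAY α hα)
    rintro _ ⟨β, rfl⟩ hβ
    simpa using congrArg (fun γ => (p γ).2) (hA α hα β hβ)

theorem Setting.reducible [T2Space G] [LocallyCompactSpace G] [SecondCountableTopology G]
    [Infinite W] (S : Setting p Y) (h3 : ThreeBranches Y)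
    (hrig : ∀ (γ : Γ) (D : ℕ), (∀ x, Near Y D x (γ • x)) → ∀ x : W, γ • x = x)
    (hG : ∀ Δ : Subgroup G, Selberg (Δ : Set G) → ∃ a b, SplitData Δ a b)
    (φ : Γ →* Multiplicative ℤ) (hφ : ∃ γ, φ γ ≠ 1) (hker : φ.ker.FG) : Reducible Γ := by
  obtain ⟨v⟩ : Nonempty W := inferInstance
  obtain ⟨f, hadd, ⟨g, hg⟩, hf0⟩ := exists_normalized φ hφ
  obtain ⟨T₀, hT₀, hT₀f⟩ := (Subgroup.fg_iff _).1 hker
  let f' : Γ →* Multiplicative ℤ := MonoidHom.mk' (fun a => Multiplicative.ofAdd (f a))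
    fun a b => by rw [hadd]; rfl
  have hgen : Subgroup.closure (insert g T₀) = ⊤ := by
    rw [eq_top_iff]
    intro γ _
    have h1 : γ * (g ^ f γ)⁻¹ ∈ Subgroup.closure T₀ := by
      rw [hT₀, MonoidHom.mem_ker, ← hf0]
      change (f' (γ * (g ^ f γ)⁻¹)).toAdd = 0
      rw [map_mul, map_inv, map_zpow]
      simp [f', hg]
    simpa using mul_mem (Subgroup.closure_mono (subset_insert g T₀) h1)
      (Subgroup.zpow_mem _ (Subgroup.subset_closure (mem_insert g T₀)) (f γ))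
  have hT := hT₀f.insert g
  have : Group.FG Γ := Group.fg_iff.2 ⟨_, hgen, hT⟩
  obtain ⟨γ₀, hγ₀, hγ₀'⟩ : ∃ γ : Γ, γ • v = v ∧ f γ ≠ 0 := by
    obtain ⟨C, -, B, hB, h⟩ := S.cocomp
    exact exists_stab_ne_zero S.act S.conn S.lf h3 hB (fun x => (h 1 x).imp fun _ h => h.2) hadd
      ⟨g, hg⟩ hT₀f (fun γ h => hT₀ ▸ (hf0 γ).1 h)
      (fun t ht => (hf0 t).2 (show t ∈ φ.ker from hT₀ ▸ Subgroup.subset_closure ht)) v
  obtain ⟨ψ, hψ1, hψ2, hψ3⟩ := exists_bounded_extension p hT hgen (stabilizer Γ v)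
    (fun K hK => (S.proper K hK v v).subset fun _ h => ⟨h.2, h.1⟩)
    (fun γ => by
      obtain ⟨C, hC, h⟩ := S.cocomp_fix ⊤ (finite_singleton (γ⁻¹ • v)) v
      refine ⟨C, hC, fun x => ?_⟩
      obtain ⟨l, -, h1, h2, h3⟩ := h x
      exact ⟨l, h2, by rw [mem_stabilizer_iff, mul_smul, mul_smul, h1 _ rfl, smul_inv_smul], h3⟩)
    (fun γ => (f γ : ℝ)) (fun a b => by rw [hadd]; push_cast; rfl)
  by_cases hfix : ∃ Γ' : Subgroup Γ, Γ'.FiniteIndex ∧ ∃ e : Euc n, e ≠ 0 ∧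
      ∀ γ ∈ Γ', rot (p γ).1 e = e
  · obtain ⟨Γ', _, e, he0, he⟩ := hfix
    exact S.reducible_of_fixed Γ' he0 he
  have hne : ∀ Γ' : Subgroup Γ, Γ'.FiniteIndex → ∀ e : Euc n,
      (∀ γ ∈ Γ', rot (p γ).1 e = e) → e = 0 := fun Γ' h e he => by
    by_contra h0
    exact hfix ⟨Γ', h, e, h0, he⟩
  obtain ⟨C, hC, hcov⟩ := S.cocomp_stab v
  have hbd := bounded_of_no_fixed hT hgen (fun e he => hne ⊤ inferInstance e fun γ _ => he γ) hC
    (fun h => (hcov h).imp fun _ h => h.2) hψ1 hψ3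
  have hsel : Selberg (((MonoidHom.snd _ _).comp p).range : Set G) := by
    refine (selberg ((stabilizer Γ v).map p) (fun K hK => ((S.proper K hK v v).image p).subset ?_)
      hC fun h => ?_).snd.mono ?_
    · rintro _ ⟨h1, γ, h2, rfl⟩
      exact ⟨γ, ⟨h1, h2⟩, rfl⟩
    · obtain ⟨l, hl, e⟩ := hcov h
      exact ⟨_, ⟨l, hl, rfl⟩, e⟩
    · rintro _ ⟨_, ⟨γ, -, rfl⟩, rfl⟩
      exact ⟨γ, rfl⟩
  obtain ⟨a, b, hs⟩ := hG _ hsel
  let ψ' : Γ →* Multiplicative ℝ := MonoidHom.mk' (fun a => Multiplicative.ofAdd (ψ a))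
    fun a b => by rw [hψ1]; rfl
  refine S.reducible_of_split hrig hT hgen hne hs ψ' (γ₀ := γ₀) (fun h => hγ₀' ?_) fun β hβ => ?_
  · have : ψ γ₀ = 0 := h
    exact_mod_cast (hψ2 γ₀ hγ₀).symm.trans this
  obtain ⟨K, hK, hK1⟩ := exists_compact_mem_nhds (1 : G)
  obtain ⟨c, hc⟩ := hbd K hK
  have h1 : ∀ k : ℕ, |(k : ℝ) * ψ β| ≤ c := by
    intro k
    have h2 := hs.perf (ψ'.ker.map ((MonoidHom.snd _ _).comp p)) (by
      rintro _ ⟨x, rfl⟩ _ ⟨y, rfl⟩ - -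
      exact ⟨x * y * x⁻¹ * y⁻¹, by simp [MonoidHom.mem_ker], by simp⟩)
      _ ⟨β ^ k, rfl⟩ (by simp [hβ])
    have h3 : {x : G | x⁻¹ * (p (β ^ k)).2 ∈ K} ∈ 𝓝 (p (β ^ k)).2 :=
      (by fun_prop : Continuous fun x : G => x⁻¹ * (p (β ^ k)).2).continuousAt.preimage_mem_nhds
        (by simpa using hK1)
    obtain ⟨_, h4, κ, hκ, rfl⟩ := mem_closure_iff_nhds.1 h2 _ h3
    have h5 := hc (κ⁻¹ * β ^ k) (by simpa using h4)
    have h6 : ψ (κ⁻¹ * β ^ k) = k * ψ β := by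
      change (ψ' (κ⁻¹ * β ^ k)).toAdd = _
      rw [map_mul, map_inv, show ψ' κ = 1 from hκ, map_pow]
      simp [ψ']
    rwa [h6] at h5
  by_contra h2
  have h3 : 0 < |ψ β| := abs_pos.2 h2
  obtain ⟨k, hk⟩ := exists_nat_gt (c / |ψ β|)
  have h4 := h1 k
  rw [abs_mul, Nat.abs_cast] at h4
  rw [div_lt_iff₀ h3] at hk
  linarith

end Pool.Agent.Lib.MP_d2fa5a_al
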