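import Pool.Agent.Lib.MP_d2fa5a_al.Graph

/-! The abstract setting: a group acting properly and cocompactly on `H × Y`. -/

set_option autoImplicit false

open Set Filter Topology MulAction
open scoped Pointwise

namespace Pool.Agent.Lib.MP_d2fa5a_al

variable {Γ H W : Type*} [Group Γ] [Group H] [TopologicalSpace H] [IsTopologicalGroup H]
  [MulAction Γ W]

/-- a finite-index subgroup is an internal direct product of two infinite groups -/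
def Reducible (Γ : Type*) [Group Γ] : Prop :=
  ∃ A B : Subgroup Γ, Infinite A ∧ Infinite B ∧ (∀ a ∈ A, ∀ b ∈ B, a * b = b * a) ∧
    A ⊓ B = ⊥ ∧ (A ⊔ B).FiniteIndex

lemma exists_cover (K : Subgroup Γ) [K.FiniteIndex] :
    ∃ R : Set Γ, R.Finite ∧ ∀ γ, ∃ r ∈ R, r⁻¹ * γ ∈ K :=
  ⟨range (fun q : Γ ⧸ K => q.out), finite_range _, fun γ => ⟨_, ⟨QuotientGroup.mk γ, rfl⟩,
    QuotientGroup.eq.1 (QuotientGroup.out_eq' _)⟩⟩

lemma finiteIndex_of_cover (K : Subgroup Γ) {R : Set Γ} (hR : R.Finite)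
    (h : ∀ γ, ∃ r ∈ R, r⁻¹ * γ ∈ K) : K.FiniteIndex := by
  have := hR.to_subtype
  have : Finite (Γ ⧸ K) := Finite.of_surjective (fun r : R => (QuotientGroup.mk r : Γ ⧸ K))
    fun q => by
      obtain ⟨γ, rfl⟩ := QuotientGroup.mk_surjective q
      obtain ⟨r, hr, e⟩ := h γ
      exact ⟨⟨r, hr⟩, QuotientGroup.eq.2 e⟩
  exact Subgroup.finiteIndex_of_finite_quotient

/-- proper cocompact faithful action on `H × Y` -/
structure Setting (p : Γ →* H) (Y : SimpleGraph W) : Prop where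
  act : ActsOn Γ Y
  conn : Y.Preconnected
  lf : ∀ x, (Y.neighborSet x).Finite
  faith : ∀ γ, p γ = 1 → (∀ x : W, γ • x = x) → γ = 1
  proper : ∀ K, IsCompact K → ∀ x y : W, {γ | p γ ∈ K ∧ γ • x = y}.Finite
  cocomp : ∃ C, IsCompact C ∧ ∃ B : Set W, B.Finite ∧
    ∀ h x, ∃ γ, (p γ)⁻¹ * h ∈ C ∧ γ⁻¹ • x ∈ B

/-- cocompact image -/
def Cocomp (p : Γ →* H) (Λ : Subgroup Γ) : Prop :=
  ∃ C, IsCompact C ∧ ∀ h, ∃ l ∈ Λ, (p l)⁻¹ * h ∈ C

variable {p : Γ →* H} {Y : SimpleGraph W}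

lemma Cocomp.mono {Λ Λ' : Subgroup Γ} (h : Cocomp p Λ) (hle : Λ ≤ Λ') : Cocomp p Λ' :=
  let ⟨C, hC, h⟩ := h; ⟨C, hC, fun g => let ⟨l, hl, e⟩ := h g; ⟨l, hle hl, e⟩⟩

lemma Cocomp.of_relIndex {Λ Λ' : Subgroup Γ} (h : Cocomp p Λ) (hi : Λ'.relIndex Λ ≠ 0) :
    Cocomp p (Λ' ⊓ Λ) := by
  obtain ⟨C, hC, h⟩ := h
  have : (Λ'.subgroupOf Λ).FiniteIndex := ⟨hi⟩
  obtain ⟨R, hR, hcov⟩ := exists_cover (Λ'.subgroupOf Λ)
  refine ⟨⋃ r ∈ R, (fun c => (p r)⁻¹ * c) '' C,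
    hR.isCompact_biUnion fun r _ => hC.image (by fun_prop), fun g => ?_⟩
  obtain ⟨l, hl, e⟩ := h g
  obtain ⟨r, hr, e'⟩ := hcov ⟨l, hl⟩⁻¹
  refine ⟨l * r, ⟨by simpa using Λ'.inv_mem e', Λ.mul_mem hl r.2⟩, mem_biUnion hr ⟨_, e, ?_⟩⟩
  simp [mul_assoc]

lemma Setting.cocomp_stab (S : Setting p Y) (v : W) : Cocomp p (stabilizer Γ v) := by
  obtain ⟨C, hC, B, hB, h⟩ := S.cocomp
  have : ∀ b : W, ∃ g : Γ, (∃ g' : Γ, g' • b = v) → g • b = v := fun b => by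
    by_cases hb : ∃ g' : Γ, g' • b = v
    · exact ⟨hb.choose, fun _ => hb.choose_spec⟩
    · exact ⟨1, fun h => absurd h hb⟩
  choose g hg using this
  refine ⟨⋃ b ∈ B, (fun c => p (g b) * c) '' C,
    hB.isCompact_biUnion fun r _ => hC.image (by fun_prop), fun x => ?_⟩
  obtain ⟨γ, e, hγ⟩ := h x v
  have := hg (γ⁻¹ • v) ⟨γ, by simp⟩
  refine ⟨γ * (g (γ⁻¹ • v))⁻¹, ?_, mem_biUnion hγ ⟨_, e, by simp [mul_assoc]⟩⟩
  rw [mem_stabilizer_iff, mul_smul, ← eq_inv_smul_iff, inv_smul_eq_iff, this]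

lemma Setting.relIndex_stab (S : Setting p Y) (x v : W) :
    (stabilizer Γ x).relIndex (stabilizer Γ v) ≠ 0 := by
  change (stabilizer (stabilizer Γ v) x).index ≠ 0
  rw [index_stabilizer]
  obtain ⟨n, hn⟩ := exists_near S.conn v x
  refine Set.ncard_ne_zero_of_mem (mem_orbit_self x) ((finite_near S.lf n v).subset ?_)
  rintro _ ⟨γ, rfl⟩
  have := hn.smul S.act (γ : Γ)
  rwa [γ.2] at this

lemma Setting.cocomp_fix (S : Setting p Y) (Γ' : Subgroup Γ) [Γ'.FiniteIndex] {F : Set W}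
    (hF : F.Finite) (v : W) :
    ∃ C, IsCompact C ∧ ∀ h, ∃ l ∈ Γ', (∀ x ∈ F, l • x = x) ∧ l • v = v ∧ (p l)⁻¹ * h ∈ C := by
  have := hF.to_subtype
  obtain ⟨C, hC, h⟩ := (S.cocomp_stab v).of_relIndex
    (Λ' := Γ' ⊓ ⨅ x : F, stabilizer Γ (x : W)) (Subgroup.relIndex_inf_ne_zero
      (Subgroup.FiniteIndex.index_ne_zero (H := Γ'.subgroupOf _))
      (Subgroup.relIndex_iInf_ne_zero fun x => S.relIndex_stab x v))
  refine ⟨C, hC, fun g => ?_⟩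
  obtain ⟨l, hl, e⟩ := h g
  exact ⟨l, hl.1.1, fun x hx => Subgroup.mem_iInf.1 hl.1.2 ⟨x, hx⟩, hl.2, e⟩

lemma Setting.exists_nhds [T2Space H] [LocallyCompactSpace H] (S : Setting p Y) (v : W) :
    ∃ N ∈ 𝓝 (1 : H), ∃ F : Set W, F.Finite ∧ ∀ γ, p γ ∈ N → (∀ x ∈ F, γ • x = x) → γ = 1 := by
  obtain ⟨K, hK, hK1⟩ := exists_compact_mem_nhds (1 : H)
  have hfin := S.proper K hK v v
  have : ∀ γ : Γ, ∃ x : W, γ • x = x → ∀ y : W, γ • y = y := fun γ => by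
    by_cases h : ∀ y : W, γ • y = y
    · exact ⟨v, fun _ => h⟩
    · obtain ⟨y, hy⟩ := not_forall.1 h
      exact ⟨y, fun h' => absurd h' hy⟩
  choose x hx using this
  refine ⟨K ∩ (p '' {γ | p γ ∈ K ∧ γ • v = v} \ {1})ᶜ, inter_mem hK1
    (((hfin.image p).subset sdiff_subset).isClosed.isOpen_compl.mem_nhds (by simp)),
    insert v (x '' _), (hfin.image x).insert v, fun γ h1 h2 => ?_⟩
  have h3 : γ ∈ {γ | p γ ∈ K ∧ γ • v = v} := ⟨h1.1, h2 v (mem_insert _ _)⟩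
  refine S.faith γ ?_ (hx γ (h2 _ (mem_insert_of_mem _ ⟨γ, h3, rfl⟩)))
  by_contra h4
  exact h1.2 ⟨⟨γ, h3, rfl⟩, h4⟩

lemma Setting.infinite_orbit [Infinite W] (S : Setting p Y) (v : W) : (orbit Γ v).Infinite := by
  intro hfin
  obtain ⟨C, -, B, hB, h⟩ := S.cocomp
  obtain ⟨D, hD⟩ := exists_near_finite S.conn hB (fun _ => v) id
  refine Set.infinite_univ ((hfin.biUnion fun y _ => finite_near S.lf D y).subset fun x _ => ?_)
  obtain ⟨γ, -, hγ⟩ := h 1 x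
  exact mem_biUnion (mem_orbit v γ) (by simpa using (hD _ hγ).smul S.act γ)

lemma Setting.proper' (S : Setting p Y) {K : Set H} (hK : IsCompact K) (x : W) (D : ℕ) :
    {γ | p γ ∈ K ∧ Near Y D x (γ • x)}.Finite :=
  ((finite_near S.lf D x).biUnion fun y _ => S.proper K hK x y).subset
    fun _ h => mem_biUnion h.2 ⟨h.1, rfl⟩

end Pool.Agent.Lib.MP_d2fa5a_al
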